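import Pool.Agent.Lib.MP_529d88_nt.Defs

section

set_option autoImplicit false

namespace Pool.Agent.Syr66

open Finset

section
variable {α : ℝ} (h0 : 0 < α) (h1 : α < 1)
include h0 h1

private theorem geo_summable : Summable (fun t : ℕ => (1 - α) ^ t * α) :=
  (summable_geometric_of_lt_one (by linarith) (by linarith)).mul_right α

private theorem geo_sum : ∑' t : ℕ, (1 - α) ^ t * α = 1 := by
  rw [tsum_mul_right, tsum_geometric_of_lt_one (by linarith) (by linarith)]
  have : (1 : ℝ) - (1 - α) = α := by ring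
  rw [this, inv_mul_cancel₀ h0.ne']

private theorem term_nonneg_le {m : ℕ} (hm : ∀ x : ℤ, 0 ≤ p α m x ∧ p α m x ≤ 1) (x : ℤ) (t : ℕ) :
    0 ≤ (1 - α) ^ t * α *
      (if (3 : ℤ) ∣ 2 ^ (t + 1) * x - 1 then p α m ((2 ^ (t + 1) * x - 1) / 3) else 0) ∧
    (1 - α) ^ t * α *
      (if (3 : ℤ) ∣ 2 ^ (t + 1) * x - 1 then p α m ((2 ^ (t + 1) * x - 1) / 3) else 0) ≤
      (1 - α) ^ t * α := by
  have hw : 0 ≤ (1 - α) ^ t * α := mul_nonneg (pow_nonneg (by linarith) t) h0.le
  split_ifs
  · exact ⟨mul_nonneg hw (hm _).1, mul_le_of_le_one_right hw (hm _).2⟩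
  · rw [mul_zero]
    exact ⟨le_rfl, hw⟩

/-- Bounds by induction on `m`: the terms are between `0` and `(1 - α) ^ t * α`, whose sum is `1`. -/
theorem p_nonneg_le (m : ℕ) (x : ℤ) : 0 ≤ p α m x ∧ p α m x ≤ 1 := by
  induction m generalizing x with
  | zero => simp [p]
  | succ m ih =>
    have hs := geo_summable h0 h1
    have ht := term_nonneg_le h0 h1 ih x
    rw [p]
    refine ⟨tsum_nonneg fun t => (ht t).1, ?_⟩
    exact ((Summable.of_nonneg_of_le (fun t => (ht t).1) (fun t => (ht t).2) hs).tsum_le_tsum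
      (fun t => (ht t).2) hs).trans_eq (geo_sum h0 h1)

theorem p_nonneg (m : ℕ) (x : ℤ) : 0 ≤ p α m x := (p_nonneg_le h0 h1 m x).1

theorem p_le_one (m : ℕ) (x : ℤ) : p α m x ≤ 1 := (p_nonneg_le h0 h1 m x).2

/-- Summability of the series defining `p`. -/
theorem p_summable (m : ℕ) (x : ℤ) : Summable (fun t : ℕ => (1 - α) ^ t * α *
    (if (3 : ℤ) ∣ 2 ^ (t + 1) * x - 1 then p α m ((2 ^ (t + 1) * x - 1) / 3) else 0)) := by
  have ht := term_nonneg_le h0 h1 (fun y => p_nonneg_le h0 h1 m y) x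
  exact Summable.of_nonneg_of_le (fun t => (ht t).1) (fun t => (ht t).2) (geo_summable h0 h1)

/-- Split off the term `t = 0` (`Summable.tsum_eq_zero_add`); the rest is `(1 - α)` times the series
of `2 * x`, because `2 ^ (t + 2) * x = 2 ^ (t + 1) * (2 * x)`. -/
theorem p_rec (m : ℕ) (x : ℤ) : p α (m + 1) x = (1 - α) * p α (m + 1) (2 * x) +
    α * (if (3 : ℤ) ∣ 2 * x - 1 then p α m ((2 * x - 1) / 3) else 0) := by
  have h : p α (m + 1) x = ∑' t : ℕ, (1 - α) ^ t * α *
      (if (3 : ℤ) ∣ 2 ^ (t + 1) * x - 1 then p α m ((2 ^ (t + 1) * x - 1) / 3) else 0) := by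
    rw [p]
  rw [h, (p_summable h0 h1 m x).tsum_eq_zero_add]
  have h2 : p α (m + 1) (2 * x) = ∑' t : ℕ, (1 - α) ^ t * α *
      (if (3 : ℤ) ∣ 2 ^ (t + 1) * (2 * x) - 1 then
        p α m ((2 ^ (t + 1) * (2 * x) - 1) / 3) else 0) := by
    rw [p]
  rw [h2, ← tsum_mul_left, add_comm]
  congr 1
  · refine tsum_congr fun t => ?_
    have e : (2 : ℤ) ^ (t + 1 + 1) * x = 2 ^ (t + 1) * (2 * x) := by ring
    rw [e, pow_succ]
    ring
  · simp

end

/-- Period `3 ^ m`, by induction on `m` (termwise in the series):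
`(2 ^ (t+1) * (x + 3 ^ (m+1) * s) - 1) / 3 = (2 ^ (t+1) * x - 1) / 3 + 3 ^ m * (2 ^ (t+1) * s)` and
divisibility by `3` is not changed. -/
theorem p_periodic (α : ℝ) (m : ℕ) (x t : ℤ) : p α m (x + 3 ^ m * t) = p α m x := by
  induction m generalizing x t with
  | zero => simp [p]
  | succ m ih =>
    rw [p, p]
    refine tsum_congr fun s => ?_
    have e : (2 : ℤ) ^ (s + 1) * (x + 3 ^ (m + 1) * t) - 1 =
        (2 ^ (s + 1) * x - 1) + 3 * (3 ^ m * (2 ^ (s + 1) * t)) := by ring
    have hd : ((3 : ℤ) ∣ 2 ^ (s + 1) * (x + 3 ^ (m + 1) * t) - 1) ↔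
        (3 : ℤ) ∣ 2 ^ (s + 1) * x - 1 := by
      rw [e]
      exact (Int.dvd_add_left (Dvd.intro _ rfl))
    congr 1
    by_cases h : (3 : ℤ) ∣ 2 ^ (s + 1) * x - 1
    · rw [if_pos h, if_pos (hd.2 h), e, Int.add_mul_ediv_left _ _ (by norm_num : (3 : ℤ) ≠ 0), ih]
    · rw [if_neg h, if_neg (fun h' => h (hd.1 h'))]

end Pool.Agent.Syr66
end

section

set_option autoImplicit false

namespace Pool.Agent.Syr66

open Finset

/-- Euclidean division: `x = c + M y`. -/
theorem sum_split (M K : ℕ) (g : ℤ → ℝ) :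
    ∑ x ∈ range (M * K), g (x : ℤ) =
      ∑ c ∈ range M, ∑ y ∈ range K, g ((c : ℤ) + M * y) := by
  induction K with
  | zero => simp
  | succ K ih =>
    rw [Nat.mul_succ, Finset.sum_range_add, ih, ← Finset.sum_add_distrib]
    refine Finset.sum_congr rfl fun c _ => ?_
    rw [Finset.sum_range_succ]
    congr 2
    push_cast
    ring

/-- Chain rule for `hh` along `x = c + M y` (from `sum_split` applied to `negMulLog ∘ g` and to `g`;
unfold `hh`). -/
theorem hh_split (M K : ℕ) (g : ℤ → ℝ) :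
    hh (range (M * K)) (fun x => g (x : ℤ)) =
      hh (range M) (fun c => ∑ y ∈ range K, g ((c : ℤ) + M * y)) +
      ∑ c ∈ range M, hh (range K) (fun y => g ((c : ℤ) + M * y)) := by
  unfold hh
  rw [sum_split M K (fun z => Real.negMulLog (g z)), sum_split M K g, Finset.sum_sub_distrib]
  ring

end Pool.Agent.Syr66
end

section

set_option autoImplicit false

namespace Pool.Agent.Syr66

open Finset

/-- Homogeneity. Proof: `Real.negMulLog_mul` (valid for all reals) and `Finset.mul_sum`. -/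
theorem hh_mul {ι : Type*} (s : Finset ι) (f : ι → ℝ) (c : ℝ) :
    hh s (fun i => c * f i) = c * hh s f := by
  unfold hh
  rw [← Finset.mul_sum, Real.negMulLog_mul]
  simp only [Real.negMulLog_mul]
  rw [Finset.sum_add_distrib, ← Finset.mul_sum, ← Finset.sum_mul]
  ring

/-- With `F = ∑ f`: if `F = 0` all `f i = 0` and both sums vanish; otherwise `f i ≤ F`, so
`negMulLog (f i) = f i * (- log (f i)) ≥ f i * (- log F)`, and sum over `i`. -/
theorem hh_nonneg {ι : Type*} (s : Finset ι) (f : ι → ℝ) (hf : ∀ i ∈ s, 0 ≤ f i) :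
    0 ≤ hh s f := by
  unfold hh
  have h1 : Real.negMulLog (∑ i ∈ s, f i) = ∑ i ∈ s, f i * (-Real.log (∑ i ∈ s, f i)) := by
    rw [← Finset.sum_mul, Real.negMulLog]
    ring
  rw [h1, ← Finset.sum_sub_distrib]
  apply Finset.sum_nonneg
  intro i hi
  have hfi := hf i hi
  rcases eq_or_lt_of_le hfi with h0 | h0
  · rw [← h0]
    simp
  · have h2 : f i ≤ ∑ i ∈ s, f i := Finset.single_le_sum hf hi
    have h3 : Real.log (f i) ≤ Real.log (∑ i ∈ s, f i) := Real.log_le_log h0 h2
    rw [Real.negMulLog]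
    nlinarith

/-- With `F = ∑ f`, `n = s.card`: for `f i > 0` one has
`f i * log (F / (f i * n)) ≤ f i * (F / (f i * n) - 1) = F / n - f i`, also true if `f i = 0`; sum
over `i ∈ s`. (Case `F = 0`: everything vanishes; case `s = ∅`: everything is 0.) -/
theorem hh_le {ι : Type*} (s : Finset ι) (f : ι → ℝ) (hf : ∀ i ∈ s, 0 ≤ f i) :
    hh s f ≤ (∑ i ∈ s, f i) * Real.log s.card := by
  rcases eq_or_lt_of_le (Finset.sum_nonneg hf) with h0 | h0
  · have h1 : ∀ i ∈ s, f i = 0 := (Finset.sum_eq_zero_iff_of_nonneg hf).1 h0.symm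
    have h2 : ∑ i ∈ s, Real.negMulLog (f i) = 0 := by
      apply Finset.sum_eq_zero
      intro i hi
      rw [h1 i hi]
      simp
    unfold hh
    rw [h2, ← h0]
    simp
  · have hne : s.Nonempty := by
      rcases s.eq_empty_or_nonempty with h | h
      · rw [h] at h0
        simp at h0
      · exact h
    have hn : (0 : ℝ) < s.card := by
      exact_mod_cast Finset.card_pos.2 hne
    set F := ∑ i ∈ s, f i with hF
    have key : ∀ i ∈ s, Real.negMulLog (f i) ≤
        f i * (Real.log s.card - Real.log F) + (F / s.card - f i) := by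
      intro i hi
      rcases eq_or_lt_of_le (hf i hi) with h1 | h1
      · rw [← h1]
        simp only [Real.negMulLog_zero, zero_mul, sub_zero, zero_add]
        positivity
      · have h2 : Real.log (F / (f i * s.card)) ≤ F / (f i * s.card) - 1 :=
          Real.log_le_sub_one_of_pos (by positivity)
        rw [Real.log_div (by positivity) (by positivity),
          Real.log_mul (by positivity) (by positivity)] at h2
        have h3 : f i * (F / (f i * s.card) - 1) = F / s.card - f i := by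
          field_simp
        have h4 := mul_le_mul_of_nonneg_left h2 h1.le
        rw [h3] at h4
        rw [Real.negMulLog]
        nlinarith
    have hsum := Finset.sum_le_sum key
    rw [Finset.sum_add_distrib, Finset.sum_sub_distrib, ← Finset.sum_mul, ← hF,
      Finset.sum_const, nsmul_eq_mul] at hsum
    have h5 : (s.card : ℝ) * (F / s.card) = F := by
      field_simp
    rw [h5] at hsum
    unfold hh
    rw [← hF, Real.negMulLog]
    linarith

/-- `hh` only depends on the values on `s`. -/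
theorem hh_congr {ι : Type*} (s : Finset ι) (f g : ι → ℝ) (h : ∀ i ∈ s, f i = g i) :
    hh s f = hh s g := by
  unfold hh
  rw [Finset.sum_congr rfl h,
    Finset.sum_congr rfl (fun i hi => by rw [h i hi] :
      ∀ i ∈ s, Real.negMulLog (f i) = Real.negMulLog (g i))]

end Pool.Agent.Syr66
end
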