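import Pool.Agent.Lib.MP_529d88_nt.Defs

section

set_option autoImplicit false

namespace Pool.Agent.Syr66

open Finset

/-- Superadditivity of `hh` (nonnegativity of mutual information). Put `F j = ∑ i, f j i`,
`G i = ∑ j, f j i`, `Z = ∑ j, F j = ∑ i, G i`. The claim is
`∑ j, ∑ i, f j i * log (f j i * Z / (F j * G i)) ≥ 0`. For `f j i > 0` use `log x ≥ 1 - 1 / x`
(`Real.one_sub_inv_le_log_of_pos`): the term is `≥ f j i - F j * G i / Z`; for `f j i = 0` this lower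
bound is `≤ 0`, fine. Sum: `≥ Z - Z * Z / Z = 0`. (If `Z = 0` everything is zero.) To compare with the
statement use `∑ i, negMulLog (f j i) = - ∑ i, f j i * log (f j i)`,
`negMulLog (F j) = - ∑ i, f j i * log (F j)`, and so on. -/
theorem sum_hh_le {ι κ : Type*} (s : Finset ι) (t : Finset κ) (f : κ → ι → ℝ)
    (hf : ∀ j ∈ t, ∀ i ∈ s, 0 ≤ f j i) :
    ∑ j ∈ t, hh s (f j) ≤ hh s (fun i => ∑ j ∈ t, f j i) := by
  classical
  set F : κ → ℝ := fun j => ∑ i ∈ s, f j i with hF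
  set G : ι → ℝ := fun i => ∑ j ∈ t, f j i with hG
  set Z : ℝ := ∑ j ∈ t, F j with hZ
  have hZ' : Z = ∑ i ∈ s, G i := by
    simp only [hZ, hF, hG]
    exact Finset.sum_comm
  have hF0 : ∀ j ∈ t, 0 ≤ F j := fun j hj => Finset.sum_nonneg (fun i hi => hf j hj i hi)
  have hG0 : ∀ i ∈ s, 0 ≤ G i := fun i hi => Finset.sum_nonneg (fun j hj => hf j hj i hi)
  have hZ0 : 0 ≤ Z := Finset.sum_nonneg hF0
  have hfF : ∀ j ∈ t, ∀ i ∈ s, f j i ≤ F j := fun j hj i hi =>
    Finset.single_le_sum (f := fun i => f j i) (fun i hi => hf j hj i hi) hi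
  have hfG : ∀ j ∈ t, ∀ i ∈ s, f j i ≤ G i := fun j hj i hi =>
    Finset.single_le_sum (f := fun j => f j i) (fun j hj => hf j hj i hi) hj
  have hFZ : ∀ j ∈ t, F j ≤ Z := fun j hj => Finset.single_le_sum hF0 hj
  -- pointwise
  have hpt : ∀ j ∈ t, ∀ i ∈ s, f j i - F j * G i / Z ≤
      f j i * Real.log (f j i) - f j i * Real.log (F j) - f j i * Real.log (G i)
        + f j i * Real.log Z := by
    intro j hj i hi
    rcases (hf j hj i hi).eq_or_lt with h0 | h0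
    · rw [← h0]
      have : 0 ≤ F j * G i / Z := div_nonneg (mul_nonneg (hF0 j hj) (hG0 i hi)) hZ0
      simp
      linarith
    · have hFp : 0 < F j := lt_of_lt_of_le h0 (hfF j hj i hi)
      have hGp : 0 < G i := lt_of_lt_of_le h0 (hfG j hj i hi)
      have hZp : 0 < Z := lt_of_lt_of_le hFp (hFZ j hj)
      have hx : 0 < f j i * Z / (F j * G i) := by positivity
      have hl := Real.one_sub_inv_le_log_of_pos hx
      have hlog : Real.log (f j i * Z / (F j * G i)) =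
          Real.log (f j i) + Real.log Z - (Real.log (F j) + Real.log (G i)) := by
        rw [Real.log_div (by positivity) (by positivity), Real.log_mul h0.ne' hZp.ne',
          Real.log_mul hFp.ne' hGp.ne']
      rw [hlog] at hl
      have h2 := mul_le_mul_of_nonneg_left hl h0.le
      have h3 : f j i * (1 - (f j i * Z / (F j * G i))⁻¹) = f j i - F j * G i / Z := by
        field_simp
      rw [h3] at h2
      linarith
  have hsum : ∑ j ∈ t, ∑ i ∈ s, (f j i - F j * G i / Z) ≤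
      ∑ j ∈ t, ∑ i ∈ s, (f j i * Real.log (f j i) - f j i * Real.log (F j)
        - f j i * Real.log (G i) + f j i * Real.log Z) :=
    Finset.sum_le_sum (fun j hj => Finset.sum_le_sum (fun i hi => hpt j hj i hi))
  have hleft : ∑ j ∈ t, ∑ i ∈ s, (f j i - F j * G i / Z) = 0 := by
    have h1 : ∀ j ∈ t, ∑ i ∈ s, (f j i - F j * G i / Z) = F j - F j * Z / Z := by
      intro j _
      rw [Finset.sum_sub_distrib, ← Finset.sum_div, ← Finset.mul_sum, ← hZ']
    rw [Finset.sum_congr rfl h1, Finset.sum_sub_distrib, ← Finset.sum_div, ← Finset.sum_mul, ← hZ]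
    rcases hZ0.eq_or_lt with h | h
    · rw [← h]; simp
    · field_simp
      ring
  have hright : ∑ j ∈ t, ∑ i ∈ s, (f j i * Real.log (f j i) - f j i * Real.log (F j)
        - f j i * Real.log (G i) + f j i * Real.log Z) =
      (∑ j ∈ t, ∑ i ∈ s, f j i * Real.log (f j i)) - (∑ j ∈ t, F j * Real.log (F j))
        - (∑ i ∈ s, G i * Real.log (G i)) + Z * Real.log Z := by
    simp only [Finset.sum_add_distrib, Finset.sum_sub_distrib]
    have e1 : ∑ j ∈ t, ∑ i ∈ s, f j i * Real.log (F j) = ∑ j ∈ t, F j * Real.log (F j) := by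
      refine Finset.sum_congr rfl (fun j _ => ?_)
      rw [← Finset.sum_mul]
    have e2 : ∑ j ∈ t, ∑ i ∈ s, f j i * Real.log (G i) = ∑ i ∈ s, G i * Real.log (G i) := by
      rw [Finset.sum_comm]
      refine Finset.sum_congr rfl (fun i _ => ?_)
      rw [← Finset.sum_mul]
    have e3 : ∑ j ∈ t, ∑ i ∈ s, f j i * Real.log Z = Z * Real.log Z := by
      have : ∀ j ∈ t, ∑ i ∈ s, f j i * Real.log Z = F j * Real.log Z := by
        intro j _
        rw [← Finset.sum_mul]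
      rw [Finset.sum_congr rfl this, ← Finset.sum_mul]
    rw [e1, e2, e3]
  have hgoalL : ∑ j ∈ t, hh s (f j) =
      - (∑ j ∈ t, ∑ i ∈ s, f j i * Real.log (f j i)) + ∑ j ∈ t, F j * Real.log (F j) := by
    simp only [hh, Real.negMulLog, Finset.sum_sub_distrib, neg_mul, Finset.sum_neg_distrib]
    ring
  have hgoalR : hh s (fun i => ∑ j ∈ t, f j i) =
      - (∑ i ∈ s, G i * Real.log (G i)) + Z * Real.log Z := by
    have : (∑ i ∈ s, ∑ j ∈ t, f j i) = Z := hZ'.symm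
    simp only [hh, Real.negMulLog, neg_mul, Finset.sum_neg_distrib, this]
    ring
  rw [hgoalL, hgoalR]
  rw [hleft, hright] at hsum
  linarith

end Pool.Agent.Syr66
end

section

set_option autoImplicit false

namespace Pool.Agent.Syr66

open Finset

/-- The second derivative is `- 1 / t + 1 ≤ 0` on `(0, 1]`. (E.g. `AntitoneOn.concaveOn_of_deriv`,
or `concaveOn_of_deriv2_nonpos`; `Real.continuous_negMulLog`, `Real.deriv_negMulLog`.) -/
theorem concave_negMulLog_add_sq :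
    ConcaveOn ℝ (Set.Icc (0 : ℝ) 1) (fun t => Real.negMulLog t + t ^ 2 / 2) := by
  have hd : ∀ x : ℝ, x ≠ 0 → HasDerivAt (fun t => Real.negMulLog t + t ^ 2 / 2)
      (-Real.log x - 1 + x) x := by
    intro x hx
    have h1 := Real.hasDerivAt_negMulLog hx
    have h2 : HasDerivAt (fun t : ℝ => t ^ 2 / 2) x x := by
      have := (hasDerivAt_pow 2 x).div_const 2
      have e : x = ((2 : ℕ) : ℝ) * x ^ (2 - 1) / 2 := by
        push_cast
        ring
      rw [← e] at this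
      exact this
    exact h1.add h2
  refine AntitoneOn.concaveOn_of_deriv (convex_Icc 0 1) ?_ ?_ ?_
  · exact (Real.continuous_negMulLog.add (by fun_prop)).continuousOn
  · intro x hx
    rw [interior_Icc] at hx
    exact (hd x hx.1.ne').differentiableAt.differentiableWithinAt
  · intro x hx y hy hxy
    rw [interior_Icc] at hx hy
    rw [(hd x hx.1.ne').deriv, (hd y hy.1.ne').deriv]
    have h1 := Real.log_le_sub_one_of_pos (div_pos hx.1 hy.1)
    rw [Real.log_div hx.1.ne' hy.1.ne'] at h1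
    have h2 : (y - x) ≤ 1 - x / y := by
      have : 1 - x / y = (y - x) / y := by
        field_simp [hy.1.ne']
      rw [this, le_div_iff₀ hy.1]
      nlinarith [hy.2]
    linarith

/-- Entropy gain of a convolution on `ℤ/3`, for probability vectors `a` and `b`.
Let `g t = negMulLog t + t ^ 2 / 2` (concave on `[0,1]`). The coordinates `r d` of the convolution are
convex combinations with weights `a 0, a 1, a 2` of the coordinates of `b`, so by Jensen
`∑ d, g (r d) ≥ ∑ d, g (b d)`. Moreover `∑ r d ^ 2 = A * B + (1 - A) * (1 - B) / 2` with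
`A = ∑ a ^ 2`, `B = ∑ b ^ 2` (expand, using `∑ a = ∑ b = 1`), hence
`∑ negMulLog (r d) - ∑ negMulLog (b d) ≥ (B - ∑ r ^ 2) / 2 = (1 - A) * (3 * B - 1) / 4`.
Finally `3 * B - 1 = ∑ b d * (3 * b d - 1) ≥ ∑ b d * log (3 * b d) = log 3 - ∑ negMulLog (b d)`
(`Real.log_le_sub_one_of_pos`), and `1 - A ≥ 0`. -/
theorem conv_prob3 (a0 a1 a2 b0 b1 b2 : ℝ) (h0 : 0 ≤ a0) (h1 : 0 ≤ a1) (h2 : 0 ≤ a2)
    (k0 : 0 ≤ b0) (k1 : 0 ≤ b1) (k2 : 0 ≤ b2) (ha : a0 + a1 + a2 = 1) (hb : b0 + b1 + b2 = 1) :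
    (Real.negMulLog b0 + Real.negMulLog b1 + Real.negMulLog b2) +
      1 / 4 * (1 - (a0 ^ 2 + a1 ^ 2 + a2 ^ 2)) *
        (Real.log 3 - (Real.negMulLog b0 + Real.negMulLog b1 + Real.negMulLog b2)) ≤
    Real.negMulLog (a0 * b0 + a1 * b2 + a2 * b1) + Real.negMulLog (a0 * b1 + a1 * b0 + a2 * b2) +
      Real.negMulLog (a0 * b2 + a1 * b1 + a2 * b0) := by
  have g3 : ∀ x y z : ℝ, x ∈ Set.Icc (0 : ℝ) 1 → y ∈ Set.Icc (0 : ℝ) 1 → z ∈ Set.Icc (0 : ℝ) 1 →
      a0 * (Real.negMulLog x + x ^ 2 / 2) + a1 * (Real.negMulLog y + y ^ 2 / 2) +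
        a2 * (Real.negMulLog z + z ^ 2 / 2) ≤
      Real.negMulLog (a0 * x + a1 * y + a2 * z) + (a0 * x + a1 * y + a2 * z) ^ 2 / 2 := by
    intro x y z hx hy hz
    have := concave_negMulLog_add_sq.le_map_sum (t := (Finset.univ : Finset (Fin 3)))
      (w := ![a0, a1, a2]) (p := ![x, y, z])
      (by intro i _; fin_cases i <;> simp [h0, h1, h2])
      (by simp [Fin.sum_univ_three, ha])
      (by intro i _; fin_cases i <;> simp <;> first | exact hx | exact hy | exact hz)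
    simpa [Fin.sum_univ_three] using this
  have m0 : b0 ∈ Set.Icc (0 : ℝ) 1 := ⟨k0, by linarith⟩
  have m1 : b1 ∈ Set.Icc (0 : ℝ) 1 := ⟨k1, by linarith⟩
  have m2 : b2 ∈ Set.Icc (0 : ℝ) 1 := ⟨k2, by linarith⟩
  have e0 := g3 b0 b2 b1 m0 m2 m1
  have e1 := g3 b1 b0 b2 m1 m0 m2
  have e2 := g3 b2 b1 b0 m2 m1 m0
  set N := Real.negMulLog b0 + Real.negMulLog b1 + Real.negMulLog b2 with hN
  have hl : ∀ b : ℝ, 0 ≤ b → b * Real.log 3 - Real.negMulLog b ≤ b * (3 * b - 1) := by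
    intro b hb0
    rcases hb0.eq_or_lt with h | h
    · rw [← h]
      simp
    · have h3 := Real.log_le_sub_one_of_pos (show (0 : ℝ) < 3 * b by linarith)
      rw [Real.log_mul (by norm_num) h.ne'] at h3
      have := mul_le_mul_of_nonneg_left h3 hb0
      unfold Real.negMulLog
      linarith
  have l0 := hl b0 k0
  have l1 := hl b1 k1
  have l2 := hl b2 k2
  have hL : Real.log 3 - N ≤ 3 * (b0 ^ 2 + b1 ^ 2 + b2 ^ 2) - 1 := by
    have : Real.log 3 = b0 * Real.log 3 + b1 * Real.log 3 + b2 * Real.log 3 := by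
      rw [← add_mul, ← add_mul, hb, one_mul]
    rw [this]
    nlinarith
  have hA : 0 ≤ 1 - (a0 ^ 2 + a1 ^ 2 + a2 ^ 2) := by nlinarith
  have hmul := mul_le_mul_of_nonneg_left hL hA
  have hr : (a0 * b0 + a1 * b2 + a2 * b1) ^ 2 + (a0 * b1 + a1 * b0 + a2 * b2) ^ 2 +
      (a0 * b2 + a1 * b1 + a2 * b0) ^ 2 =
      (a0 ^ 2 + a1 ^ 2 + a2 ^ 2) * (b0 ^ 2 + b1 ^ 2 + b2 ^ 2) +
        (1 - (a0 ^ 2 + a1 ^ 2 + a2 ^ 2)) * (1 - (b0 ^ 2 + b1 ^ 2 + b2 ^ 2)) / 2 := by
    have q1 : 1 - (a0 ^ 2 + a1 ^ 2 + a2 ^ 2) = 2 * (a0 * a1 + a0 * a2 + a1 * a2) := by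
      have : (a0 + a1 + a2) ^ 2 = 1 := by rw [ha]; norm_num
      linarith [this]
    have q2 : 1 - (b0 ^ 2 + b1 ^ 2 + b2 ^ 2) = 2 * (b0 * b1 + b0 * b2 + b1 * b2) := by
      have : (b0 + b1 + b2) ^ 2 = 1 := by rw [hb]; norm_num
      linarith [this]
    rw [q1, q2]
    ring
  have hsum : N + (b0 ^ 2 + b1 ^ 2 + b2 ^ 2) / 2 ≤
      (Real.negMulLog (a0 * b0 + a1 * b2 + a2 * b1) + Real.negMulLog (a0 * b1 + a1 * b0 + a2 * b2) +
      Real.negMulLog (a0 * b2 + a1 * b1 + a2 * b0)) +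
      ((a0 * b0 + a1 * b2 + a2 * b1) ^ 2 + (a0 * b1 + a1 * b0 + a2 * b2) ^ 2 +
      (a0 * b2 + a1 * b1 + a2 * b0) ^ 2) / 2 := by
    have : N + (b0 ^ 2 + b1 ^ 2 + b2 ^ 2) / 2 =
        (a0 + a1 + a2) * (N + (b0 ^ 2 + b1 ^ 2 + b2 ^ 2) / 2) := by rw [ha, one_mul]
    rw [this, hN]
    linarith
  rw [hr] at hsum
  nlinarith

end Pool.Agent.Syr66
end
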