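import Pool.Agent.Lib.MP_529d88_nt.P1
import Pool.Agent.Lib.MP_529d88_nt.A1

section

set_option autoImplicit false

namespace Pool.Agent.Syr66

open Finset

/-- From `sum_W_succ`: `wt α (k+1) j = (1 - α) * wt α k j` and `wt α (k+1) (j+1) = α * wt α k j`
for `j ≤ k`. -/
theorem Ex_succ (α : ℝ) (k : ℕ) (f : ℕ × ℕ → ℝ) :
    Ex α (k + 1) f = Ex α k (fun q => (1 - α) * f (q.1, 2 * q.2) +
      α * f (q.1 + 1, 2 * q.2 + 3 ^ q.1)) := by
  unfold Ex
  rw [sum_W_succ]
  refine Finset.sum_congr rfl fun q hq => ?_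
  have hle := W_fst_le hq
  have h1 : wt α (k + 1) q.1 = (1 - α) * wt α k q.1 := by
    unfold wt
    rw [Nat.succ_sub hle, pow_succ]
    ring
  have h2 : wt α (k + 1) (q.1 + 1) = α * wt α k q.1 := by
    unfold wt
    rw [Nat.succ_sub_succ, pow_succ]
    ring
  simp only [h1, h2]
  ring

theorem Ex_zero (α : ℝ) (f : ℕ × ℕ → ℝ) : Ex α 0 f = f (0, 0) := by
  simp [Ex, W, wt]

theorem Ex_congr (α : ℝ) (k : ℕ) (f g : ℕ × ℕ → ℝ) (h : ∀ q ∈ W k, f q = g q) :
    Ex α k f = Ex α k g := by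
  unfold Ex
  exact Finset.sum_congr rfl fun q hq => by rw [h q hq]

theorem Ex_add' (α : ℝ) (k : ℕ) (f g : ℕ × ℕ → ℝ) :
    Ex α k (fun q => f q + g q) = Ex α k f + Ex α k g := by
  unfold Ex
  rw [← Finset.sum_add_distrib]
  exact Finset.sum_congr rfl fun q _ => by ring

theorem Ex_mul (α : ℝ) (k : ℕ) (c : ℝ) (f : ℕ × ℕ → ℝ) :
    Ex α k (fun q => c * f q) = c * Ex α k f := by
  unfold Ex
  rw [Finset.mul_sum]
  exact Finset.sum_congr rfl fun q _ => by ring

/-- Induction on `l` with `Ex_succ`. -/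
theorem Ex_add (α : ℝ) (k l : ℕ) (f : ℕ × ℕ → ℝ) :
    Ex α (k + l) f = Ex α k (fun q => Ex α l (fun q' =>
      f (q.1 + q'.1, 2 ^ l * q.2 + 3 ^ q.1 * q'.2))) := by
  induction l generalizing f with
  | zero => simp [Ex_zero]
  | succ l ih =>
    rw [← Nat.add_assoc, Ex_succ, ih]
    refine Ex_congr _ _ _ _ fun q _ => ?_
    rw [Ex_succ]
    refine Ex_congr _ _ _ _ fun q' _ => ?_
    have e1 : 2 * (2 ^ l * q.2 + 3 ^ q.1 * q'.2) = 2 ^ (l + 1) * q.2 + 3 ^ q.1 * (2 * q'.2) := by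
      ring
    have e2 : 2 * (2 ^ l * q.2 + 3 ^ q.1 * q'.2) + 3 ^ (q.1 + q'.1)
        = 2 ^ (l + 1) * q.2 + 3 ^ q.1 * (2 * q'.2 + 3 ^ q'.1) := by
      ring
    have e3 : q.1 + q'.1 + 1 = q.1 + (q'.1 + 1) := by ring
    simp only [e1, e2, e3]
    rw [← e1, e2]

/-- Moment generating function, by induction. -/
theorem Ex_pow (α : ℝ) (k : ℕ) (x : ℝ) :
    Ex α k (fun q => x ^ q.1) = (1 - α + α * x) ^ k := by
  induction k with
  | zero => simp [Ex_zero]
  | succ k ih =>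
    rw [Ex_succ]
    have : (fun q : ℕ × ℕ => (1 - α) * x ^ q.1 + α * x ^ (q.1 + 1))
        = fun q : ℕ × ℕ => (1 - α + α * x) * x ^ q.1 := by
      funext q
      ring
    rw [this, Ex_mul, ih]
    ring

theorem Ex_const (α : ℝ) (k : ℕ) (c : ℝ) : Ex α k (fun _ => c) = c := by
  have h := Ex_pow α k 1
  have h2 : Ex α k (fun _ => c) = c * Ex α k (fun q => (1 : ℝ) ^ q.1) := by
    rw [← Ex_mul]
    simp
  rw [h2, h]
  simp

/-- The mean number of odd steps, by induction. -/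
theorem Ex_fst (α : ℝ) (k : ℕ) : Ex α k (fun q => (q.1 : ℝ)) = α * k := by
  induction k with
  | zero => simp [Ex_zero]
  | succ k ih =>
    rw [Ex_succ]
    have : (fun q : ℕ × ℕ => (1 - α) * ((q.1 : ℕ) : ℝ) + α * (((q.1 + 1 : ℕ)) : ℝ))
        = fun q : ℕ × ℕ => (q.1 : ℝ) + α := by
      funext q
      push_cast
      ring
    rw [this, Ex_add', ih, Ex_const]
    push_cast
    ring

theorem Ex_sum {κ : Type*} (α : ℝ) (k : ℕ) (t : Finset κ) (f : κ → ℕ × ℕ → ℝ) :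
    Ex α k (fun q => ∑ i ∈ t, f i q) = ∑ i ∈ t, Ex α k (f i) := by
  unfold Ex
  rw [Finset.sum_comm]
  exact Finset.sum_congr rfl fun q _ => by rw [Finset.mul_sum]

theorem wt_nonneg {α : ℝ} (h0 : 0 ≤ α) (h1 : α ≤ 1) (k j : ℕ) : 0 ≤ wt α k j := by
  unfold wt
  exact mul_nonneg (pow_nonneg h0 _) (pow_nonneg (by linarith) _)

theorem Ex_mono {α : ℝ} (h0 : 0 ≤ α) (h1 : α ≤ 1) (k : ℕ) (f g : ℕ × ℕ → ℝ)
    (h : ∀ q ∈ W k, f q ≤ g q) : Ex α k f ≤ Ex α k g := by
  unfold Ex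
  exact Finset.sum_le_sum fun q hq => mul_le_mul_of_nonneg_left (h q hq) (wt_nonneg h0 h1 _ _)

theorem Ex_nonneg {α : ℝ} (h0 : 0 ≤ α) (h1 : α ≤ 1) (k : ℕ) (f : ℕ × ℕ → ℝ)
    (h : ∀ q ∈ W k, 0 ≤ f q) : 0 ≤ Ex α k f := by
  unfold Ex
  exact Finset.sum_nonneg fun q hq => mul_nonneg (wt_nonneg h0 h1 _ _) (h q hq)

end Pool.Agent.Syr66
end

section

section

set_option autoImplicit false

namespace Pool.Agent.Syr66

open Finset

private theorem sum_three_mult (α : ℝ) (m : ℕ) (c y : ℤ) (hc : c % 3 = 1 ∨ c % 3 = 2) :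
    ∑ d ∈ range 3, p α (m + 1) (y + c * 3 ^ m * (d : ℤ)) =
      ∑ d ∈ range 3, p α (m + 1) (y + 3 ^ m * (d : ℤ)) := by
  obtain ⟨e, he⟩ : ∃ e : ℤ, c = 3 * e + c % 3 := ⟨c / 3, by omega⟩
  rcases hc with hc | hc
  · rw [hc] at he
    refine Finset.sum_congr rfl fun d _ => ?_
    have : y + c * 3 ^ m * (d : ℤ) = (y + 3 ^ m * (d : ℤ)) + 3 ^ (m + 1) * (e * d) := by
      rw [he]; ring
    rw [this, p_periodic]
  · rw [hc] at he
    simp only [Finset.sum_range_succ, Finset.sum_range_zero, zero_add]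
    have e1 : y + c * 3 ^ m * ((1 : ℕ) : ℤ) = (y + 3 ^ m * ((2 : ℕ) : ℤ)) + 3 ^ (m + 1) * e := by
      rw [he]; push_cast; ring
    have e2 : y + c * 3 ^ m * ((2 : ℕ) : ℤ) =
        (y + 3 ^ m * ((1 : ℕ) : ℤ)) + 3 ^ (m + 1) * (2 * e + 1) := by
      rw [he]; push_cast; ring
    rw [e1, e2, p_periodic, p_periodic]
    simp only [Nat.cast_zero, mul_zero]
    ring

private theorem two_pow_mod (t : ℕ) : (2 : ℤ) ^ t % 3 = 1 ∨ (2 : ℤ) ^ t % 3 = 2 := by
  induction t with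
  | zero => left; norm_num
  | succ t ih =>
    rw [pow_succ]
    omega

/-- Consistency of the laws modulo `3 ^ (m + 1)` and `3 ^ m`. Induction on `m`.
`m = 0`: `∑ d, p α 1 (x + d) = ∑' t, (1-α)^t α * #{d < 3 : 3 ∣ 2 ^ (t+1) * (x + d) - 1}` and exactly one
`d` works for each `t`; the series is `1`.
`m ≥ 1`: exchange the finite sum and the series (`Summable.tsum_finsetSum` or so). For
`z = x + 3 ^ m * d`: `2 ^ (t+1) * z - 1` is divisible by `3` iff `2 ^ (t+1) * x - 1` is, and then the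
quotient is `y + 2 ^ (t+1) * 3 ^ (m-1) * d` with `y = (2 ^ (t+1) * x - 1) / 3`. Since
`2 ^ (t+1)` is `1` or `2` mod `3` and `p α m` has period `3 ^ m`, the sum over `d < 3` of
`p α m (y + 2 ^ (t+1) * 3 ^ (m-1) * d)` is the sum over `d < 3` of `p α m (y + 3 ^ (m-1) * d)`, which is
`p α (m-1) y` by the induction hypothesis. -/
theorem p_marg {α : ℝ} (h0 : 0 < α) (h1 : α < 1) (m : ℕ) (x : ℤ) :
    ∑ d ∈ range 3, p α (m + 1) (x + 3 ^ m * d) = p α m x := by
  induction m generalizing x with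
  | zero =>
    have hex : ∑ d ∈ range 3, p α (0 + 1) (x + 3 ^ 0 * (d : ℤ)) =
        ∑' t : ℕ, ∑ d ∈ range 3, (1 - α) ^ t * α *
          (if (3 : ℤ) ∣ 2 ^ (t + 1) * (x + 3 ^ 0 * (d : ℤ)) - 1 then
            p α 0 ((2 ^ (t + 1) * (x + 3 ^ 0 * (d : ℤ)) - 1) / 3) else 0) := by
      rw [Summable.tsum_finsetSum (fun (d : ℕ) _ => p_summable h0 h1 0 (x + 3 ^ 0 * (d : ℤ)))]
      refine Finset.sum_congr rfl fun d _ => ?_
      rw [p]
    rw [hex]
    have hterm : ∀ t : ℕ, ∑ d ∈ range 3, (1 - α) ^ t * α *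
          (if (3 : ℤ) ∣ 2 ^ (t + 1) * (x + 3 ^ 0 * (d : ℤ)) - 1 then
            p α 0 ((2 ^ (t + 1) * (x + 3 ^ 0 * (d : ℤ)) - 1) / 3) else 0) =
          (1 - α) ^ t * α := by
      intro t
      rw [← Finset.mul_sum]
      have h2 := two_pow_mod (t + 1)
      generalize (2 : ℤ) ^ (t + 1) = c at h2
      have key : ∑ d ∈ range 3, (if (3 : ℤ) ∣ c * (x + 3 ^ 0 * (d : ℤ)) - 1 then
            p α 0 ((c * (x + 3 ^ 0 * (d : ℤ)) - 1) / 3) else 0) = 1 := by
        simp only [p, pow_zero, one_mul]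
        simp only [Finset.sum_range_succ, Finset.sum_range_zero, zero_add, Nat.cast_zero,
          Nat.cast_one, Nat.cast_ofNat, add_zero]
        obtain ⟨e, r, he, hr⟩ : ∃ e r : ℤ, c = 3 * e + r ∧ (r = 1 ∨ r = 2) :=
          ⟨c / 3, c % 3, by omega, h2⟩
        obtain ⟨f, s, hf, hs⟩ : ∃ f s : ℤ, x = 3 * f + s ∧ (s = 0 ∨ s = 1 ∨ s = 2) :=
          ⟨x / 3, x % 3, by omega, by omega⟩
        have hd : ∀ u : ℤ, ((3 : ℤ) ∣ c * (x + u) - 1) ↔ (3 : ℤ) ∣ r * (s + u) - 1 := by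
          intro u
          have : c * (x + u) - 1 = (r * (s + u) - 1) + 3 * (3 * e * f + e * s + e * u + r * f) := by
            rw [he, hf]; ring
          rw [this]
          exact Int.dvd_add_left (Dvd.intro _ rfl)
        have hd0 : ((3 : ℤ) ∣ c * x - 1) ↔ (3 : ℤ) ∣ r * s - 1 := by
          have := hd 0
          simpa using this
        rw [if_congr hd0 rfl rfl, if_congr (hd 1) rfl rfl, if_congr (hd 2) rfl rfl]
        rcases hr with rfl | rfl <;> rcases hs with rfl | rfl | rfl <;> norm_num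
      rw [key, mul_one]
    rw [tsum_congr hterm, tsum_mul_right, tsum_geometric_of_lt_one (by linarith) (by linarith)]
    have : (1 : ℝ) - (1 - α) = α := by ring
    rw [this, inv_mul_cancel₀ h0.ne', p]
  | succ m ih =>
    have hex : ∑ d ∈ range 3, p α (m + 1 + 1) (x + 3 ^ (m + 1) * (d : ℤ)) =
        ∑' t : ℕ, ∑ d ∈ range 3, (1 - α) ^ t * α *
          (if (3 : ℤ) ∣ 2 ^ (t + 1) * (x + 3 ^ (m + 1) * (d : ℤ)) - 1 then
            p α (m + 1) ((2 ^ (t + 1) * (x + 3 ^ (m + 1) * (d : ℤ)) - 1) / 3) else 0) := by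
      rw [Summable.tsum_finsetSum (fun (d : ℕ) _ => p_summable h0 h1 (m + 1) (x + 3 ^ (m + 1) * (d : ℤ)))]
      refine Finset.sum_congr rfl fun d _ => ?_
      rw [p]
    rw [hex]
    have hp : p α (m + 1) x = ∑' t : ℕ, (1 - α) ^ t * α *
      (if (3 : ℤ) ∣ 2 ^ (t + 1) * x - 1 then p α m ((2 ^ (t + 1) * x - 1) / 3) else 0) := by
      rw [p]
    rw [hp]
    refine tsum_congr fun t => ?_
    rw [← Finset.mul_sum]
    congr 1
    have hd : ∀ d : ℤ, ((3 : ℤ) ∣ 2 ^ (t + 1) * (x + 3 ^ (m + 1) * d) - 1) ↔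
        (3 : ℤ) ∣ 2 ^ (t + 1) * x - 1 := by
      intro d
      have e : (2 : ℤ) ^ (t + 1) * (x + 3 ^ (m + 1) * d) - 1 =
          (2 ^ (t + 1) * x - 1) + 3 * (2 ^ (t + 1) * 3 ^ m * d) := by ring
      rw [e]
      exact Int.dvd_add_left (Dvd.intro _ rfl)
    by_cases h : (3 : ℤ) ∣ 2 ^ (t + 1) * x - 1
    · rw [if_pos h, ← ih ((2 ^ (t + 1) * x - 1) / 3),
        ← sum_three_mult α m (2 ^ (t + 1)) _ (two_pow_mod (t + 1))]
      refine Finset.sum_congr rfl fun d _ => ?_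
      rw [if_pos ((hd d).2 h)]
      congr 1
      have e : (2 : ℤ) ^ (t + 1) * (x + 3 ^ (m + 1) * (d : ℤ)) - 1 =
          (2 ^ (t + 1) * x - 1) + 3 * (2 ^ (t + 1) * 3 ^ m * d) := by ring
      rw [e, Int.add_mul_ediv_left _ _ (by norm_num : (3 : ℤ) ≠ 0)]
    · rw [if_neg h]
      refine Finset.sum_eq_zero fun d _ => ?_
      rw [if_neg (fun h' => h ((hd d).1 h'))]

end Pool.Agent.Syr66
end

section

set_option autoImplicit false

namespace Pool.Agent.Syr66

open Finset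

section
variable {α : ℝ} (h0 : 0 < α) (h1 : α < 1)
include h0 h1

/-- Induction with `sum_split (3 ^ m) 3` and `p_marg`. -/
theorem p_sum (m : ℕ) : ∑ x ∈ range (3 ^ m), p α m (x : ℤ) = 1 := by
  induction m with
  | zero => simp [p]
  | succ m ih =>
    rw [pow_succ, sum_split (3 ^ m) 3 (p α (m + 1)), ← ih]
    refine Finset.sum_congr rfl fun c _ => ?_
    rw [← p_marg h0 h1 m (c : ℤ)]
    push_cast
    rfl

/-- `negMulLog 1 = 0`. -/
theorem Hp_eq_hh (m : ℕ) : Hp α m = hh (range (3 ^ m)) (fun x => p α m (x : ℤ)) := by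
  unfold hh Hp
  rw [p_sum h0 h1 m, Real.negMulLog_one, sub_zero]

/-- `range 1 = {0}` and `p α 0 = 1`. -/
theorem Hp_zero : Hp α 0 = 0 := by
  simp [Hp, p]

/-- `Hp_eq_hh`, `hh_split (3 ^ m) 3` and `p_marg`. -/
theorem Hp_succ (m : ℕ) : Hp α (m + 1) = Hp α m + hp α m := by
  rw [Hp_eq_hh h0 h1 (m + 1), pow_succ, hh_split (3 ^ m) 3 (p α (m + 1)), Hp_eq_hh h0 h1 m]
  have e : ∀ (c y : ℕ), p α (m + 1) ((c : ℤ) + ((3 ^ m : ℕ) : ℤ) * (y : ℤ)) =
      p α (m + 1) ((c : ℤ) + 3 ^ m * (y : ℤ)) := by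
    intro c y
    push_cast
    rfl
  simp only [e, p_marg h0 h1]
  rfl

theorem hp_nonneg (m : ℕ) : 0 ≤ hp α m :=
  Finset.sum_nonneg fun _ _ => hh_nonneg _ _ fun _ _ => p_nonneg h0 h1 _ _

/-- `hh_le` for each `x`, `p_marg` and `p_sum`. -/
theorem hp_le (m : ℕ) : hp α m ≤ Real.log 3 := by
  have h : ∀ x ∈ range (3 ^ m), hh (range 3) (fun d => p α (m + 1) ((x : ℤ) + 3 ^ m * d)) ≤
      p α m (x : ℤ) * Real.log 3 := by
    intro x _
    have := hh_le (range 3) (fun d => p α (m + 1) ((x : ℤ) + 3 ^ m * d))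
      (fun _ _ => p_nonneg h0 h1 _ _)
    rw [p_marg h0 h1, card_range] at this
    exact_mod_cast this
  refine (Finset.sum_le_sum h).trans (le_of_eq ?_)
  rw [← Finset.sum_mul, p_sum h0 h1, one_mul]

theorem Hp_nonneg (m : ℕ) : 0 ≤ Hp α m :=
  Finset.sum_nonneg fun _ _ => Real.negMulLog_nonneg (p_nonneg h0 h1 _ _) (p_le_one h0 h1 _ _)

end

end Pool.Agent.Syr66
end
end

section

set_option autoImplicit false

namespace Pool.Agent.Syr66

open Finset

theorem enc_mem (k n : ℕ) : enc k n ∈ W k := by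
  induction k generalizing n with
  | zero => simp [enc, W]
  | succ k ih =>
    unfold enc W
    rw [Finset.mem_union, Finset.mem_image, Finset.mem_image]
    split_ifs with h
    · exact Or.inl ⟨enc k (T n), ih _, rfl⟩
    · exact Or.inr ⟨enc k (T n), ih _, rfl⟩

private theorem two_T_even {n : ℕ} (h : n % 2 = 0) : 2 * T n = n := by
  unfold T
  rw [if_pos h]
  omega

private theorem two_T_odd {n : ℕ} (h : ¬ n % 2 = 0) : 2 * T n = 3 * n + 1 := by
  unfold T
  rw [if_neg h]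
  omega

/-- Induction on `k` generalizing `n`: `T^[k+1] n = T^[k] (T n)`, and `2 * T n` is `n` or
`3 * n + 1`. -/
theorem enc_spec (k n : ℕ) :
    2 ^ k * T^[k] n = 3 ^ (enc k n).1 * n + (enc k n).2 := by
  induction k generalizing n with
  | zero => simp [enc]
  | succ k ih =>
    rw [Function.iterate_succ_apply]
    have h := ih (T n)
    unfold enc
    split_ifs with h0
    · have h2 := two_T_even h0
      calc 2 ^ (k + 1) * T^[k] (T n) = 2 * (2 ^ k * T^[k] (T n)) := by ring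
        _ = 3 ^ (enc k (T n)).1 * (2 * T n) + 2 * (enc k (T n)).2 := by rw [h]; ring
        _ = _ := by rw [h2]
    · have h2 := two_T_odd h0
      calc 2 ^ (k + 1) * T^[k] (T n) = 2 * (2 ^ k * T^[k] (T n)) := by ring
        _ = 3 ^ (enc k (T n)).1 * (2 * T n) + 2 * (enc k (T n)).2 := by rw [h]; ring
        _ = 3 ^ (enc k (T n)).1 * (3 * n + 1) + 2 * (enc k (T n)).2 := by rw [h2]
        _ = _ := by ring

private theorem enc_inj {k n n' : ℕ} (hn : n < 2 ^ k) (hn' : n' < 2 ^ k)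
    (h : enc k n = enc k n') : n = n' := by
  have h1 := enc_spec k n
  have h2 := enc_spec k n'
  rw [h] at h1
  have hm1 : 3 ^ (enc k n').1 * n + (enc k n').2 ≡ 0 [MOD 2 ^ k] := by
    rw [← h1]
    exact (Nat.modEq_zero_iff_dvd).2 (Dvd.intro _ rfl)
  have hm2 : 3 ^ (enc k n').1 * n' + (enc k n').2 ≡ 0 [MOD 2 ^ k] := by
    rw [← h2]
    exact (Nat.modEq_zero_iff_dvd).2 (Dvd.intro _ rfl)
  have h3 := Nat.ModEq.add_right_cancel' _ (hm1.trans hm2.symm)
  have hco : Nat.gcd (2 ^ k) (3 ^ (enc k n').1) = 1 := by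
    apply Nat.Coprime.pow
    norm_num
  have h4 := Nat.ModEq.cancel_left_of_coprime hco h3
  have h5 : n % 2 ^ k = n' % 2 ^ k := h4
  rwa [Nat.mod_eq_of_lt hn, Nat.mod_eq_of_lt hn'] at h5

/-- `enc k` is injective on `range (2 ^ k)` (if `enc k n = enc k n'` then
`3 ^ j * n ≡ 3 ^ j * n'` mod `2 ^ k` by `enc_spec`, so `n = n'`), maps into `W k`, and both have
`2 ^ k` elements (`card_W`), so it is a bijection. -/
theorem sum_enc (k : ℕ) (f : ℕ × ℕ → ℝ) :
    ∑ n ∈ range (2 ^ k), f (enc k n) = ∑ q ∈ W k, f q := by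
  have hinj : Set.InjOn (enc k) (range (2 ^ k) : Finset ℕ) := by
    intro n hn n' hn' h
    rw [Finset.mem_coe, Finset.mem_range] at hn hn'
    exact enc_inj hn hn' h
  have himg : (range (2 ^ k)).image (enc k) = W k := by
    apply Finset.eq_of_subset_of_card_le
    · intro q hq
      rw [Finset.mem_image] at hq
      obtain ⟨n, _, rfl⟩ := hq
      exact enc_mem k n
    · rw [card_W, Finset.card_image_of_injOn hinj, Finset.card_range]
  rw [← himg, Finset.sum_image hinj]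

/-- `enc k` only depends on `n` mod `2 ^ k`. -/
theorem enc_mod (k n t : ℕ) : enc k (n + 2 ^ k * t) = enc k n := by
  induction k generalizing n t with
  | zero => simp [enc]
  | succ k ih =>
    have hpar : (n + 2 ^ (k + 1) * t) % 2 = n % 2 := by
      have : 2 ^ (k + 1) * t = 2 * (2 ^ k * t) := by ring
      omega
    unfold enc
    by_cases h0 : n % 2 = 0
    · have h0' : (n + 2 ^ (k + 1) * t) % 2 = 0 := by rw [hpar]; exact h0
      have hT : T (n + 2 ^ (k + 1) * t) = T n + 2 ^ k * t := by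
        have a := two_T_even h0
        have b := two_T_even h0'
        have : 2 ^ (k + 1) * t = 2 * (2 ^ k * t) := by ring
        omega
      rw [if_pos h0, if_pos h0', hT, ih]
    · have h0' : ¬ (n + 2 ^ (k + 1) * t) % 2 = 0 := by rw [hpar]; exact h0
      have hT : T (n + 2 ^ (k + 1) * t) = T n + 2 ^ k * (3 * t) := by
        have a := two_T_odd h0
        have b := two_T_odd h0'
        have e1 : 2 ^ (k + 1) * t = 2 * (2 ^ k * t) := by ring
        have e2 : 2 ^ k * (3 * t) = 3 * (2 ^ k * t) := by ring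
        omega
      rw [if_neg h0, if_neg h0', hT, ih]

/-- Induction on `k` generalizing `n, m`. If `n` is even then `n + 2 ≤ m * 2 ^ (k+1)` (parity), so
`T n + 1 = n / 2 + 1 ≤ m * 2 ^ k`. If `n` is odd, `T n + 1 = 3 * (n + 1) / 2 ≤ (3 * m) * 2 ^ k`. -/
theorem T_iter_succ_le (k n m : ℕ) (h : n + 1 ≤ m * 2 ^ k) :
    T^[k] n + 1 ≤ m * 3 ^ (enc k n).1 := by
  induction k generalizing n m with
  | zero => simpa [enc] using h
  | succ k ih =>
    rw [Function.iterate_succ_apply]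
    have e : m * 2 ^ (k + 1) = 2 * (m * 2 ^ k) := by ring
    rw [e] at h
    by_cases h0 : n % 2 = 0
    · have a := two_T_even h0
      have h1 : T n + 1 ≤ m * 2 ^ k := by omega
      have h2 := ih (T n) m h1
      have h3 : (enc (k + 1) n).1 = (enc k (T n)).1 := by
        rw [enc, if_pos h0]
      rw [h3]
      exact h2
    · have a := two_T_odd h0
      have h1 : T n + 1 ≤ (3 * m) * 2 ^ k := by
        have : (3 * m) * 2 ^ k = 3 * (m * 2 ^ k) := by ring
        omega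
      have h2 := ih (T n) (3 * m) h1
      have h3 : (enc (k + 1) n).1 = (enc k (T n)).1 + 1 := by
        rw [enc, if_neg h0]
      rw [h3]
      calc T^[k] (T n) + 1 ≤ 3 * m * 3 ^ (enc k (T n)).1 := h2
        _ = m * 3 ^ ((enc k (T n)).1 + 1) := by ring

/-- `i ≤ k`, `n < 2 ^ k`: take `m = 2 ^ (k - i)` in `T_iter_succ_le`. -/
theorem T_iter_lt {i k n : ℕ} (hi : i ≤ k) (h : n < 2 ^ k) :
    T^[i] n < 2 ^ (k - i) * 3 ^ (enc i n).1 := by
  have h1 : n + 1 ≤ 2 ^ (k - i) * 2 ^ i := by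
    rw [← pow_add, Nat.sub_add_cancel hi]
    exact h
  exact T_iter_succ_le i n _ h1

/-- From `enc_spec`. -/
theorem T_iter_ge (k n : ℕ) : (3 : ℝ) ^ (enc k n).1 * n / 2 ^ k ≤ (T^[k] n : ℝ) := by
  have h := enc_spec k n
  have h2 : (2 : ℝ) ^ k * (T^[k] n : ℝ) = 3 ^ (enc k n).1 * n + (enc k n).2 := by
    exact_mod_cast h
  rw [div_le_iff₀ (by positivity)]
  have h3 : (0 : ℝ) ≤ ((enc k n).2 : ℝ) := Nat.cast_nonneg _
  nlinarith

/-- Cocycle property of the number of odd steps. -/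
theorem enc_add (k l n : ℕ) : (enc (k + l) n).1 = (enc k n).1 + (enc l (T^[k] n)).1 := by
  induction k generalizing n with
  | zero => simp [enc]
  | succ k ih =>
    have e : k + 1 + l = (k + l) + 1 := by ring
    rw [e, Function.iterate_succ_apply, enc, enc]
    split_ifs with h0
    · exact ih (T n)
    · have := ih (T n)
      show (enc (k + l) (T n)).1 + 1 = (enc k (T n)).1 + 1 + _
      rw [this]
      ring

end Pool.Agent.Syr66
end
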