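import Mathlib

set_option autoImplicit false

namespace Pool.Agent.Syr66

open Finset

/-- Homogeneous entropy functional of a nonnegative weight `f` on the finite set `s`. -/
noncomputable def hh {ι : Type*} (s : Finset ι) (f : ι → ℝ) : ℝ :=
  ∑ i ∈ s, Real.negMulLog (f i) - Real.negMulLog (∑ i ∈ s, f i)

/-- Homogeneous collision deficit of a nonnegative weight. -/
noncomputable def aa {ι : Type*} (s : Finset ι) (f : ι → ℝ) : ℝ :=
  ∑ i ∈ s, f i - (∑ i ∈ s, (f i) ^ 2) / ∑ i ∈ s, f i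

/-- The pairs `(j, r)` of the words of length `k`: the composite of `k` branches
`x ↦ x / 2`, `x ↦ (3 x + 1) / 2` is `x ↦ (3 ^ j * x + r) / 2 ^ k`. -/
def W : ℕ → Finset (ℕ × ℕ)
  | 0 => {(0, 0)}
  | k + 1 => (W k).image (fun q => (q.1, 2 * q.2)) ∪
      (W k).image (fun q => (q.1 + 1, 2 * q.2 + 3 ^ q.1))

/-- Bernoulli weight of a word of length `k` with `j` odd steps. -/
noncomputable def wt (α : ℝ) (k j : ℕ) : ℝ := α ^ j * (1 - α) ^ (k - j)

/-- Expectation over the words of length `k`. -/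
noncomputable def Ex (α : ℝ) (k : ℕ) (f : ℕ × ℕ → ℝ) : ℝ :=
  ∑ q ∈ W k, wt α k q.1 * f q

/-- The stationary law modulo `3 ^ m` (a function on `ℤ` of period `3 ^ m`). -/
noncomputable def p (α : ℝ) : ℕ → ℤ → ℝ
  | 0, _ => 1
  | m + 1, x => ∑' t : ℕ, (1 - α) ^ t * α *
      (if (3 : ℤ) ∣ 2 ^ (t + 1) * x - 1 then p α m ((2 ^ (t + 1) * x - 1) / 3) else 0)

/-- Entropy of the law modulo `3 ^ m`. -/
noncomputable def Hp (α : ℝ) (m : ℕ) : ℝ :=
  ∑ x ∈ range (3 ^ m), Real.negMulLog (p α m (x : ℤ))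

/-- Entropy of the `m`-th 3-adic digit given the previous ones. -/
noncomputable def hp (α : ℝ) (m : ℕ) : ℝ :=
  ∑ x ∈ range (3 ^ m), hh (range 3) (fun d => p α (m + 1) ((x : ℤ) + 3 ^ m * d))

/-- Binary entropy in nats. -/
noncomputable def bh (α : ℝ) : ℝ := Real.negMulLog α + Real.negMulLog (1 - α)

/-- Kernel of the word identity. -/
noncomputable def Kf (α : ℝ) (m j : ℕ) (z : ℤ) : ℝ :=
  if (3 : ℤ) ^ (min j m) ∣ z then p α (m - j) (z / 3 ^ (min j m)) else 0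

/-- The law of the pair `(j, r mod 3 ^ j)` over the words of length `k`. -/
noncomputable def F (α : ℝ) (k j : ℕ) (z : ℤ) : ℝ :=
  Ex α k (fun q => if q.1 = j ∧ (3 : ℤ) ^ j ∣ z - q.2 then 1 else 0)

/-- The law of `j` over the words of length `k`. -/
noncomputable def M (α : ℝ) (k j : ℕ) : ℝ := Ex α k (fun q => if q.1 = j then 1 else 0)

/-- The entropy of `r mod 3 ^ j` given `j`. -/
noncomputable def Hc (α : ℝ) (k : ℕ) : ℝ :=
  ∑ j ∈ range (k + 1), hh (range (3 ^ j)) (fun c => F α k j (c : ℤ))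

/-- The power sums of the law of `(j, r mod 3 ^ j)`. -/
noncomputable def Zq (α : ℝ) (k : ℕ) (s : ℝ) : ℝ :=
  ∑ j ∈ range (k + 1), (3 : ℝ) ^ ((j : ℝ) * s) * ∑ c ∈ range (3 ^ j), (F α k j (c : ℤ)) ^ (1 + s)

/-- The accelerated 3x+1 map. -/
def T (n : ℕ) : ℕ := if n % 2 = 0 then n / 2 else (3 * n + 1) / 2

/-- The pair `(j, r)` of the first `k` steps of `n`. -/
def enc : ℕ → ℕ → ℕ × ℕ
  | 0, _ => (0, 0)
  | k + 1, n => if n % 2 = 0 then ((enc k (T n)).1, 2 * (enc k (T n)).2)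
      else ((enc k (T n)).1 + 1, 2 * (enc k (T n)).2 + 3 ^ (enc k (T n)).1)

/-- The number of elements of `S` in a residue class. -/
noncomputable def cn (S : Finset ℕ) (i x : ℕ) : ℝ :=
  ((S.filter (fun τ => τ % 3 ^ i = x)).card : ℝ)

/-- The sum of the translates of the law mod `3 ^ i` by the elements of `S`. -/
noncomputable def fS (α : ℝ) (S : Finset ℕ) (i : ℕ) (z : ℤ) : ℝ := ∑ τ ∈ S, p α i (z - (τ : ℤ))

/-- The part of the law mod `3 ^ L` carried by the words with `j` odd steps. -/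
noncomputable def Ph (α : ℝ) (L j : ℕ) (z : ℤ) : ℝ :=
  Ex α L (fun q => if q.1 = j ∧ (3 : ℤ) ^ j ∣ z - q.2 then p α (L - j) ((z - q.2) / 3 ^ j) else 0)

/-- The quotients `τ` of the words `(j, c + 3 ^ j τ)`. -/
def Sjc (L j c : ℕ) : Finset ℕ :=
  ((W L).filter (fun q => q.1 = j ∧ q.2 % 3 ^ j = c)).image (fun q => q.2 / 3 ^ j)

/-- `θ = log 3 / log 4`. -/
noncomputable def th : ℝ := Real.log 3 / (2 * Real.log 2)

/-- `1 + θ + ... + θ ^ (r - 1)`. -/
noncomputable def tt (r : ℕ) : ℝ := ∑ i ∈ range r, th ^ i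

/-- The trajectory of `n < 2 ^ k` follows the expected drift for the first `tt r * k` steps. -/
def Nice (r : ℕ) (ε D : ℝ) (k n : ℕ) : Prop :=
  ∀ i : ℕ, (i : ℝ) ≤ tt r * k →
    |((enc i n).1 : ℝ) - i / 2| ≤ ε * k ∧
    (T^[i] n : ℝ) ≤ D * Real.exp (ε * k) * 2 ^ k * (Real.sqrt 3 / 2) ^ i

end Pool.Agent.Syr66
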