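import Pool.Agent.Lib.MP_529d88_nt.Defs

section

set_option autoImplicit false

namespace Pool.Agent.Syr66

open Finset

private theorem mem_W_succ {k : ℕ} {q : ℕ × ℕ} (h : q ∈ W (k + 1)) :
    ∃ q' ∈ W k, q = (q'.1, 2 * q'.2) ∨ q = (q'.1 + 1, 2 * q'.2 + 3 ^ q'.1) := by
  rw [W, mem_union, mem_image, mem_image] at h
  rcases h with ⟨q', hq', rfl⟩ | ⟨q', hq', rfl⟩
  · exact ⟨q', hq', Or.inl rfl⟩
  · exact ⟨q', hq', Or.inr rfl⟩

theorem W_fst_le {k : ℕ} {q : ℕ × ℕ} (h : q ∈ W k) : q.1 ≤ k := by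
  induction k generalizing q with
  | zero =>
    rw [W, mem_singleton] at h
    rw [h]
  | succ k ih =>
    obtain ⟨q', hq', rfl | rfl⟩ := mem_W_succ h
    · have := ih hq'
      show q'.1 ≤ k + 1
      omega
    · have := ih hq'
      show q'.1 + 1 ≤ k + 1
      omega

private theorem W_snd_aux {k : ℕ} {q : ℕ × ℕ} (h : q ∈ W k) : q.2 + 2 ^ k ≤ 3 ^ k := by
  induction k generalizing q with
  | zero =>
    rw [W, mem_singleton] at h
    rw [h]
    norm_num
  | succ k ih =>
    obtain ⟨q', hq', rfl | rfl⟩ := mem_W_succ h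
    · have := ih hq'
      show 2 * q'.2 + 2 ^ (k + 1) ≤ 3 ^ (k + 1)
      rw [pow_succ, pow_succ]
      omega
    · have h1 := ih hq'
      have h2 := W_fst_le hq'
      have h3 : 3 ^ q'.1 ≤ 3 ^ k := Nat.pow_le_pow_right (by norm_num) h2
      show 2 * q'.2 + 3 ^ q'.1 + 2 ^ (k + 1) ≤ 3 ^ (k + 1)
      rw [pow_succ 2, pow_succ 3 k]
      omega

/-- Induction; the stronger statement is `q.2 + 2 ^ k ≤ 3 ^ k`. -/
theorem W_snd_lt {k : ℕ} {q : ℕ × ℕ} (h : q ∈ W k) : q.2 < 3 ^ k := by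
  have h1 := W_snd_aux h
  have h2 : 0 < 2 ^ k := by positivity
  omega

/-- The two images are disjoint (parity of the second component, `3 ^ j` is odd) and both maps are
injective. -/
theorem sum_W_succ {E : Type*} [AddCommMonoid E] (k : ℕ) (f : ℕ × ℕ → E) :
    ∑ q ∈ W (k + 1), f q =
      ∑ q ∈ W k, (f (q.1, 2 * q.2) + f (q.1 + 1, 2 * q.2 + 3 ^ q.1)) := by
  rw [W, sum_union, sum_image, sum_image, sum_add_distrib]
  · rintro ⟨a, b⟩ _ ⟨c, d⟩ _ h
    simp only [Prod.mk.injEq] at h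
    obtain ⟨h1, h2⟩ := h
    have h3 : a = c := by omega
    subst h3
    have h4 : b = d := by omega
    rw [h4]
  · rintro ⟨a, b⟩ _ ⟨c, d⟩ _ h
    simp only [Prod.mk.injEq] at h
    obtain ⟨h1, h2⟩ := h
    have h4 : b = d := by omega
    rw [h1, h4]
  · rw [disjoint_left]
    intro q h1 h2
    rw [mem_image] at h1 h2
    obtain ⟨a, _, rfl⟩ := h1
    obtain ⟨b, _, hb⟩ := h2
    have h3 : 2 * b.2 + 3 ^ b.1 = 2 * a.2 := congrArg Prod.snd hb
    have h4 : 3 ^ b.1 % 2 = 1 := by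
      rw [Nat.pow_mod]
      norm_num
    omega

theorem card_W (k : ℕ) : (W k).card = 2 ^ k := by
  induction k with
  | zero => rw [W]; simp
  | succ k ih =>
    rw [card_eq_sum_ones, sum_W_succ, ← mul_one (2 ^ (k + 1)), pow_succ, ← ih]
    rw [sum_const, smul_eq_mul]
    ring

end Pool.Agent.Syr66
end

section

set_option autoImplicit false

namespace Pool.Agent.Syr66

open Finset

/-- Affine substitution in a sum over residues. Idea: lift `g` to `ZMod N` (`g x` only depends on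
`(x : ZMod N)`), both sides are sums over `ZMod N`, and `z ↦ u z + a` is a bijection of `ZMod N`
since `u` is a unit; or show directly that `x ↦ ((u x + a) % N).toNat` is injective on `range N`. -/
theorem sum_affine (N : ℕ) (hN : 0 < N) (g : ℤ → ℝ) (hg : ∀ x t : ℤ, g (x + N * t) = g x)
    (u a : ℤ) (hu : IsCoprime u (N : ℤ)) :
    ∑ x ∈ range N, g (u * (x : ℤ) + a) = ∑ x ∈ range N, g (x : ℤ) := by
  have hNz : (0 : ℤ) < N := by exact_mod_cast hN
  set f : ℕ → ℕ := fun x => ((u * (x : ℤ) + a) % N).toNat with hf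
  have hfz : ∀ x, ((f x : ℕ) : ℤ) = (u * (x : ℤ) + a) % N := by
    intro x
    simp only [hf]
    exact Int.toNat_of_nonneg (Int.emod_nonneg _ hNz.ne')
  have hgf : ∀ x : ℕ, g (u * (x : ℤ) + a) = g (f x) := by
    intro x
    rw [hfz x]
    have h := hg ((u * (x : ℤ) + a) % N) ((u * (x : ℤ) + a) / N)
    rw [Int.emod_add_mul_ediv] at h
    exact h
  have hmaps : ∀ x ∈ range N, f x ∈ range N := by
    intro x _
    rw [mem_range]
    have h := Int.emod_lt_of_pos (u * (x : ℤ) + a) hNz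
    rw [← hfz x] at h
    exact_mod_cast h
  have hinj : Set.InjOn f (range N) := by
    intro x hx y hy hxy
    rw [mem_coe, mem_range] at hx hy
    have h1 : (u * (x : ℤ) + a) % N = (u * (y : ℤ) + a) % N := by
      rw [← hfz x, ← hfz y, hxy]
    have h2 : (N : ℤ) ∣ u * ((x : ℤ) - y) := by
      have := (Int.emod_emod_of_dvd (u * (x : ℤ) + a) (dvd_refl (N : ℤ)))
      have h3 : (N : ℤ) ∣ (u * (y : ℤ) + a) - (u * (x : ℤ) + a) :=
        (Int.modEq_iff_dvd).1 h1
      have h4 : u * ((x : ℤ) - y) = -((u * (y : ℤ) + a) - (u * (x : ℤ) + a)) := by ring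
      rw [h4]
      exact (dvd_neg).2 h3
    have h3 : (N : ℤ) ∣ (x : ℤ) - y := hu.symm.dvd_of_dvd_mul_left h2
    have h4 : (x : ℤ) - y = 0 := by
      apply Int.eq_zero_of_abs_lt_dvd h3
      rw [abs_lt]
      constructor <;> omega
    omega
  have himg : (range N).image f = range N := by
    apply Finset.eq_of_subset_of_card_le
    · intro z hz
      obtain ⟨x, hx, rfl⟩ := mem_image.1 hz
      exact hmaps x hx
    · rw [card_image_of_injOn hinj]
  calc ∑ x ∈ range N, g (u * (x : ℤ) + a) = ∑ x ∈ range N, g (f x) :=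
        sum_congr rfl fun x _ => hgf x
    _ = ∑ z ∈ (range N).image f, g (z : ℤ) := by
        rw [sum_image hinj]
    _ = ∑ x ∈ range N, g (x : ℤ) := by rw [himg]

end Pool.Agent.Syr66
end
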