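import Pool.Agent.Lib.MP_529d88_nt.C3
import Pool.Agent.Lib.MP_529d88_nt.A1

section

set_option autoImplicit false

namespace Pool.Agent.Syr66

open Finset

section
variable {α : ℝ} (h0 : 0 < α) (h1 : α < 1)

theorem F_periodic (k j : ℕ) (z t : ℤ) : F α k j (z + 3 ^ j * t) = F α k j z := by
  unfold F
  apply Ex_congr
  intro q _
  have : ((3 : ℤ) ^ j ∣ z + 3 ^ j * t - q.2) ↔ ((3 : ℤ) ^ j ∣ z - q.2) := by
    have e : z + 3 ^ j * t - (q.2 : ℤ) = (z - q.2) + 3 ^ j * t := by ring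
    rw [e]
    exact (Int.dvd_add_left (Dvd.intro t rfl))
  simp only [this]

/-- Exactly one `c < 3 ^ j` satisfies `3 ^ j ∣ c - q.2`; exchange the sums (`Ex_sum`). -/
theorem F_sum (k j : ℕ) : ∑ c ∈ range (3 ^ j), F α k j (c : ℤ) = M α k j := by
  unfold F M
  rw [← Ex_sum]
  apply Ex_congr
  intro q _
  by_cases hq : q.1 = j
  · simp only [hq, true_and, if_true]
    have hpos : 0 < 3 ^ j := by positivity
    have hmem : q.2 % 3 ^ j ∈ range (3 ^ j) := by
      rw [mem_range]; exact Nat.mod_lt _ hpos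
    rw [Finset.sum_eq_single (q.2 % 3 ^ j)]
    · have : (3 : ℤ) ^ j ∣ ((q.2 % 3 ^ j : ℕ) : ℤ) - (q.2 : ℤ) := by
        have h2 := Nat.div_add_mod q.2 (3 ^ j)
        refine ⟨-((q.2 / 3 ^ j : ℕ) : ℤ), ?_⟩
        have h3 : (q.2 : ℤ) = 3 ^ j * ((q.2 / 3 ^ j : ℕ) : ℤ) + ((q.2 % 3 ^ j : ℕ) : ℤ) := by
          exact_mod_cast h2.symm
        linarith
      rw [if_pos this]
    · intro c hc hne
      rw [if_neg]
      intro hd
      apply hne
      rw [mem_range] at hc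
      have h2 : ((c : ℤ)) ≡ (q.2 : ℤ) [ZMOD (3 ^ j : ℤ)] := by
        exact (Int.modEq_iff_dvd.mpr (by
          have : ((q.2 : ℤ) - (c : ℤ)) = -((c : ℤ) - (q.2 : ℤ)) := by ring
          rw [this]; exact (dvd_neg).mpr hd))
      have h3 : c ≡ q.2 [MOD 3 ^ j] := by
        apply (Int.natCast_modEq_iff).mp
        exact_mod_cast h2
      have h4 : c % 3 ^ j = q.2 % 3 ^ j := h3
      rw [Nat.mod_eq_of_lt hc] at h4
      exact h4
    · intro h; exact absurd hmem h
  · simp only [hq, false_and, if_false]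
    simp

theorem F_eq_zero (k j : ℕ) (hj : k < j) (z : ℤ) : F α k j z = 0 := by
  unfold F
  rw [Ex_congr α k _ (fun _ => 0)]
  · exact Ex_const α k 0
  · intro q hq
    have := W_fst_le hq
    rw [if_neg]
    rintro ⟨h, _⟩
    omega

private theorem F1_sum_ite (k : ℕ) (q : ℕ × ℕ) (hq : q ∈ W k) (g : ℕ → ℝ) :
    ∑ j ∈ range (k + 1), g j * (if q.1 = j then (1 : ℝ) else 0) = g q.1 := by
  have h := W_fst_le hq
  rw [Finset.sum_eq_single q.1]
  · simp
  · intro b _ hb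
    rw [if_neg (fun h => hb h.symm), mul_zero]
  · intro h2
    exact absurd (mem_range.mpr (by omega)) h2

/-- General form: `Ex α k (fun q => g q.1) = ∑ j ≤ k, g j * M α k j`. -/
theorem M_expect (k : ℕ) (g : ℕ → ℝ) :
    ∑ j ∈ range (k + 1), g j * M α k j = Ex α k (fun q => g q.1) := by
  unfold M
  have : ∀ j ∈ range (k + 1), g j * Ex α k (fun q => if q.1 = j then (1 : ℝ) else 0) =
      Ex α k (fun q => g j * (if q.1 = j then (1 : ℝ) else 0)) := by
    intro j _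
    rw [Ex_mul]
  rw [Finset.sum_congr rfl this, ← Ex_sum]
  apply Ex_congr
  intro q hq
  exact F1_sum_ite k q hq g

theorem M_sum (k : ℕ) : ∑ j ∈ range (k + 1), M α k j = 1 := by
  have := M_expect (α := α) k (fun _ => 1)
  simp only [one_mul] at this
  rw [this]
  exact Ex_const α k 1

/-- `Ex_fst`. -/
theorem M_mean (k : ℕ) : ∑ j ∈ range (k + 1), (j : ℝ) * M α k j = α * k := by
  rw [M_expect (α := α) k (fun j => (j : ℝ))]
  exact Ex_fst α k

theorem M_eq (k j : ℕ) :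
    M α k j = wt α k j * (((W k).filter (fun q => q.1 = j)).card : ℝ) := by
  unfold M Ex
  have : ∀ q ∈ W k, wt α k q.1 * (if q.1 = j then (1 : ℝ) else 0) =
      if q.1 = j then wt α k j else 0 := by
    intro q _
    by_cases h : q.1 = j
    · simp [h]
    · simp [h]
  rw [Finset.sum_congr rfl this, ← Finset.sum_filter, Finset.sum_const, nsmul_eq_mul]
  ring

include h0 h1

theorem F_nonneg (k j : ℕ) (z : ℤ) : 0 ≤ F α k j z := by
  unfold F
  apply Ex_nonneg h0.le h1.le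
  intro q _
  split_ifs <;> norm_num

theorem M_nonneg (k j : ℕ) : 0 ≤ M α k j := by
  unfold M
  apply Ex_nonneg h0.le h1.le
  intro q _
  split_ifs <;> norm_num

theorem M_le_one (k j : ℕ) : M α k j ≤ 1 := by
  have h := Ex_mono h0.le h1.le k (fun q => if q.1 = j then (1 : ℝ) else 0) (fun _ => 1) (by
    intro q _
    show (if q.1 = j then (1 : ℝ) else 0) ≤ 1
    split_ifs <;> norm_num)
  rw [Ex_const] at h
  exact h

theorem F_le_M (k j : ℕ) (z : ℤ) : F α k j z ≤ M α k j := by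
  unfold F M
  apply Ex_mono h0.le h1.le
  intro q _
  show (if q.1 = j ∧ (3 : ℤ) ^ j ∣ z - q.2 then (1 : ℝ) else 0) ≤ (if q.1 = j then (1 : ℝ) else 0)
  by_cases hq : q.1 = j
  · simp only [hq, true_and, if_true]
    split_ifs <;> norm_num
  · simp [hq]

/-- A positive value of `F α k j z` is at least the weight of one word, which is at least
`(min α (1 - α)) ^ k`. -/
theorem F_pos_lower (k j : ℕ) (z : ℤ) (h : 0 < F α k j z) : (min α (1 - α)) ^ k ≤ F α k j z := by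
  have hwt : ∀ i : ℕ, 0 ≤ wt α k i := fun i => wt_nonneg h0.le h1.le k i
  have hex : ∃ q ∈ W k, q.1 = j ∧ (3 : ℤ) ^ j ∣ z - q.2 := by
    by_contra hcon
    push Not at hcon
    have : F α k j z = 0 := by
      unfold F Ex
      apply Finset.sum_eq_zero
      intro q hq
      show wt α k q.1 * (if q.1 = j ∧ (3 : ℤ) ^ j ∣ z - q.2 then (1 : ℝ) else 0) = 0
      rw [if_neg (fun hh => hcon q hq hh.1 hh.2), mul_zero]
    linarith
  obtain ⟨q, hq, hj, hd⟩ := hex
  have hle : q.1 ≤ k := W_fst_le hq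
  have h1' : wt α k j ≤ F α k j z := by
    unfold F Ex
    have := Finset.single_le_sum (f := fun q : ℕ × ℕ => wt α k q.1 *
      (if q.1 = j ∧ (3 : ℤ) ^ j ∣ z - q.2 then (1 : ℝ) else 0)) (s := W k) (by
        intro i _
        apply mul_nonneg (hwt _)
        split_ifs <;> norm_num) hq
    simp only [hj, hd, and_self, if_true, mul_one] at this
    exact this
  refine le_trans ?_ h1'
  unfold wt
  have hm0 : 0 ≤ min α (1 - α) := le_min h0.le (by linarith)
  have hkj : k = j + (k - j) := by omega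
  have ha : (min α (1 - α)) ^ j ≤ α ^ j := pow_le_pow_left₀ hm0 (min_le_left _ _) j
  have hb : (min α (1 - α)) ^ (k - j) ≤ (1 - α) ^ (k - j) :=
    pow_le_pow_left₀ hm0 (min_le_right _ _) (k - j)
  calc (min α (1 - α)) ^ k = (min α (1 - α)) ^ (j + (k - j)) := by rw [← hkj]
    _ = (min α (1 - α)) ^ j * (min α (1 - α)) ^ (k - j) := pow_add _ _ _
    _ ≤ α ^ j * (1 - α) ^ (k - j) :=
        mul_le_mul ha hb (pow_nonneg hm0 _) (pow_nonneg h0.le _)

end

end Pool.Agent.Syr66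
end

section

set_option autoImplicit false

namespace Pool.Agent.Syr66

open Finset

private theorem wt_half {k j : ℕ} (h : j ≤ k) : wt (1 / 2) k j = (1 / 2) ^ k := by
  unfold wt
  have h1 : (1 - 1 / 2 : ℝ) = 1 / 2 := by norm_num
  rw [h1, ← pow_add]
  congr 1
  omega

/-- `sum_enc` for the indicator function; `wt (1/2) k j = (1/2) ^ k` for `j ≤ k` (`W_fst_le`). -/
theorem count_half (k : ℕ) (P : ℕ × ℕ → Prop) [DecidablePred P] :
    (((range (2 ^ k)).filter (fun n => P (enc k n))).card : ℝ) =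
      2 ^ k * Ex (1 / 2) k (fun q => if P q then 1 else 0) := by
  have h1 : (((range (2 ^ k)).filter (fun n => P (enc k n))).card : ℝ) =
      ∑ n ∈ range (2 ^ k), (if P (enc k n) then (1 : ℝ) else 0) := by
    rw [card_filter]
    push_cast
    rfl
  rw [h1, sum_enc k (fun q => if P q then (1 : ℝ) else 0)]
  unfold Ex
  rw [mul_sum]
  apply sum_congr rfl
  intro q hq
  rw [wt_half (W_fst_le hq), ← mul_assoc, ← mul_pow]
  norm_num

/-- For `i ≤ k`: `enc i n` only depends on `n` mod `2 ^ i` (`enc_mod`), so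
`#{n < 2 ^ k : P (enc i n)} = 2 ^ (k - i) * #{n < 2 ^ i : P (enc i n)}`; then `count_half`. -/
theorem count_half_le (i k : ℕ) (hi : i ≤ k) (P : ℕ × ℕ → Prop) [DecidablePred P] :
    (((range (2 ^ k)).filter (fun n => P (enc i n))).card : ℝ) =
      2 ^ k * Ex (1 / 2) i (fun q => if P q then 1 else 0) := by
  obtain ⟨d, rfl⟩ := Nat.exists_eq_add_of_le hi
  have h1 : ∀ m : ℕ, (((range (2 ^ i * m)).filter (fun n => P (enc i n))).card : ℝ) =
      m * (((range (2 ^ i)).filter (fun n => P (enc i n))).card : ℝ) := by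
    intro m
    induction m with
    | zero => simp
    | succ m ih =>
      have h2 : (((range (2 ^ i * (m + 1))).filter (fun n => P (enc i n))).card : ℝ) =
          (((range (2 ^ i * m)).filter (fun n => P (enc i n))).card : ℝ) +
          (((range (2 ^ i)).filter (fun n => P (enc i n))).card : ℝ) := by
        rw [card_filter, card_filter, card_filter, mul_add, mul_one, sum_range_add]
        push_cast
        congr 1
        apply sum_congr rfl
        intro n _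
        rw [add_comm (2 ^ i * m) n, enc_mod]
      rw [h2, ih]
      push_cast
      ring
  rw [pow_add, h1, count_half]
  push_cast
  ring

end Pool.Agent.Syr66
end

section

set_option autoImplicit false

namespace Pool.Agent.Syr66

open Finset

/-- For `j < m` write `z = 3 ^ j * y` if `3 ^ j ∣ z` and use `p_rec` for `p α (m - j) y`
(`m - j = (m - j - 1) + 1`): `2 z / 3 ^ j = 2 y`, and `3 ^ (j+1) ∣ 2 z - 3 ^ j` iff `3 ∣ 2 y - 1`,
`(2 z - 3 ^ j) / 3 ^ (j+1) = (2 y - 1) / 3`; if `3 ^ j` does not divide `z` all three terms vanish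
(`3 ^ j ∣ 2 z ↔ 3 ^ j ∣ z`; `3 ^ (j+1) ∣ 2 z - 3 ^ j → 3 ^ j ∣ z`). For `j ≥ m` all three conditions are
`3 ^ m ∣ z` and `p α 0 = 1`. -/
theorem Kf_rec {α : ℝ} (h0 : 0 < α) (h1 : α < 1) (m j : ℕ) (z : ℤ) :
    Kf α m j z = (1 - α) * Kf α m j (2 * z) + α * Kf α m (j + 1) (2 * z - 3 ^ j) := by
  have h3 : ∀ n : ℕ, (3 : ℤ) ^ n ≠ 0 := fun n => by positivity
  have hcop : ∀ n : ℕ, IsCoprime ((3 : ℤ) ^ n) 2 := fun n =>
    IsCoprime.pow_left (by norm_num [Int.isCoprime_iff_gcd_eq_one])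
  have hdvd2 : ∀ (n : ℕ) (y : ℤ), (3 : ℤ) ^ n ∣ 2 * y ↔ (3 : ℤ) ^ n ∣ y := by
    intro n y
    exact ⟨fun h => (hcop n).dvd_of_dvd_mul_left h, fun h => Dvd.dvd.mul_left h 2⟩
  unfold Kf
  rcases Nat.lt_or_ge j m with hj | hj
  · have e1 : min j m = j := min_eq_left hj.le
    have e2 : min (j + 1) m = j + 1 := min_eq_left hj
    obtain ⟨n, hn⟩ : ∃ n, m - j = n + 1 := ⟨m - j - 1, by omega⟩
    have hn' : m - (j + 1) = n := by omega
    rw [e1, e2, hn, hn']
    by_cases hz : (3 : ℤ) ^ j ∣ z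
    · obtain ⟨y, rfl⟩ := hz
      have a1 : (3 : ℤ) ^ j ∣ 2 * (3 ^ j * y) := ⟨2 * y, by ring⟩
      have a2 : 2 * (3 ^ j * y) / (3 : ℤ) ^ j = 2 * y := by
        rw [show 2 * ((3 : ℤ) ^ j * y) = 3 ^ j * (2 * y) by ring]
        exact Int.mul_ediv_cancel_left _ (h3 j)
      have a3 : (3 : ℤ) ^ j * y / 3 ^ j = y := Int.mul_ediv_cancel_left _ (h3 j)
      have a4 : 2 * ((3 : ℤ) ^ j * y) - 3 ^ j = 3 ^ j * (2 * y - 1) := by ring
      have a5 : (3 : ℤ) ^ (j + 1) ∣ 3 ^ j * (2 * y - 1) ↔ (3 : ℤ) ∣ 2 * y - 1 := by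
        rw [pow_succ]
        exact mul_dvd_mul_iff_left (h3 j)
      have a6 : (3 : ℤ) ^ j * (2 * y - 1) / 3 ^ (j + 1) = (2 * y - 1) / 3 := by
        rw [pow_succ]
        exact Int.mul_ediv_mul_of_pos _ _ (by positivity)
      rw [if_pos (Dvd.intro _ rfl), if_pos a1, a2, a3, a4, a6, p_rec h0 h1]
      simp only [a5]
    · have a1 : ¬ (3 : ℤ) ^ j ∣ 2 * z := fun h => hz ((hdvd2 j z).1 h)
      have a2 : ¬ (3 : ℤ) ^ (j + 1) ∣ 2 * z - 3 ^ j := by
        intro h
        have h4 : (3 : ℤ) ^ j ∣ 2 * z - 3 ^ j := (pow_dvd_pow 3 (Nat.le_succ j)).trans h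
        exact a1 ((dvd_sub_self_right).1 h4)
      rw [if_neg hz, if_neg a1, if_neg a2]
      ring
  · have e1 : min j m = m := min_eq_right hj
    have e2 : min (j + 1) m = m := min_eq_right (by omega)
    have e3 : m - j = 0 := by omega
    have e4 : m - (j + 1) = 0 := by omega
    rw [e1, e2, e3, e4]
    have a1 : (3 : ℤ) ^ m ∣ 2 * z ↔ (3 : ℤ) ^ m ∣ z := hdvd2 m z
    have a2 : (3 : ℤ) ^ m ∣ 2 * z - 3 ^ j ↔ (3 : ℤ) ^ m ∣ z := by
      rw [← a1]
      exact dvd_sub_left (pow_dvd_pow 3 hj)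
    simp only [p, a1, a2]
    by_cases hz : (3 : ℤ) ^ m ∣ z
    · simp only [if_pos hz]
      ring
    · simp only [if_neg hz]
      ring

/-- Induction on `L` with `Ex_succ` and `Kf_rec` (for `z = 2 ^ L * x - q.2`). -/
theorem p_words {α : ℝ} (h0 : 0 < α) (h1 : α < 1) (m L : ℕ) (x : ℤ) :
    p α m x = Ex α L (fun q => Kf α m q.1 (2 ^ L * x - q.2)) := by
  induction L with
  | zero =>
    rw [Ex_zero]
    simp [Kf]
  | succ L ih =>
    rw [Ex_succ, ih]
    refine Ex_congr α L _ _ fun q _ => ?_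
    rw [Kf_rec h0 h1 m q.1 (2 ^ L * x - q.2)]
    push_cast
    have e1 : 2 * ((2 : ℤ) ^ L * x - q.2) = 2 ^ (L + 1) * x - 2 * q.2 := by ring
    have e2 : 2 * ((2 : ℤ) ^ L * x - q.2) - 3 ^ q.1 = 2 ^ (L + 1) * x - (2 * q.2 + 3 ^ q.1) := by
      ring
    rw [e2, e1]

end Pool.Agent.Syr66
end

section

section

set_option autoImplicit false

namespace Pool.Agent.Syr66

open Finset

private theorem Ex_exp (l : ℝ) (i : ℕ) :
    Ex (1 / 2) i (fun q => Real.exp (l * ((q.1 : ℝ) - i / 2))) = Real.cosh (l / 2) ^ i := by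
  have h1 : ∀ q : ℕ × ℕ, Real.exp (l * ((q.1 : ℝ) - i / 2)) =
      Real.exp (-(l / 2)) ^ i * Real.exp l ^ q.1 := by
    intro q
    rw [← Real.exp_nat_mul, ← Real.exp_nat_mul, ← Real.exp_add]
    congr 1
    ring
  rw [Ex_congr (1 / 2) i _ _ (fun q _ => h1 q), Ex_mul, Ex_pow, ← mul_pow]
  congr 1
  rw [Real.cosh_eq]
  have h2 : Real.exp (l / 2) = Real.exp (-(l / 2)) * Real.exp l := by
    rw [← Real.exp_add]
    congr 1
    ring
  rw [h2]
  ring

private theorem cosh_pow_le (l : ℝ) (i k : ℕ) (hi : i ≤ k) :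
    Real.cosh (l / 2) ^ i ≤ Real.exp (l ^ 2 / 8 * k) := by
  have h1 : Real.cosh (l / 2) ≤ Real.exp (l ^ 2 / 8) := by
    refine (Real.cosh_le_exp_half_sq (l / 2)).trans (le_of_eq ?_)
    congr 1
    ring
  have h2 : Real.cosh (l / 2) ^ i ≤ Real.exp (l ^ 2 / 8) ^ i :=
    pow_le_pow_left₀ (Real.cosh_pos _).le h1 i
  refine h2.trans ?_
  rw [← Real.exp_nat_mul]
  apply Real.exp_le_exp.mpr
  have h3 : (i : ℝ) ≤ k := by exact_mod_cast hi
  have h4 : 0 ≤ l ^ 2 / 8 := by positivity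
  nlinarith

/-- Chernoff for fixed `i ≤ k`: with `l = 4 ε`,
`1[j - i/2 > ε k] ≤ exp (l (j - i/2 - ε k))`, `Ex (1/2) i (exp (l j)) = ((1 + exp l) / 2) ^ i` (`Ex_pow`),
`((1 + exp l) / 2) * exp (- l / 2) = cosh (l / 2) ≤ exp (l ^ 2 / 8)` (`Real.cosh_le_exp_half_sq`), so the
expectation is `≤ exp (l ^ 2 i / 8 - l ε k) ≤ exp (- 2 ε ^ 2 k)` (`i ≤ k`). The same for the lower
deviation with `-l`. -/
theorem dev_one (ε : ℝ) (hε : 0 < ε) (i k : ℕ) (hi : i ≤ k) :
    Ex (1 / 2) i (fun q => if ε * k < |(q.1 : ℝ) - i / 2| then 1 else 0) ≤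
      2 * Real.exp (-(2 * ε ^ 2 * k)) := by
  set E : ℝ := Real.exp (-(4 * ε ^ 2 * k)) with hE
  have hE0 : 0 < E := Real.exp_pos _
  have h1 : Ex (1 / 2) i (fun q => if ε * k < |(q.1 : ℝ) - i / 2| then 1 else 0) ≤
      Ex (1 / 2) i (fun q => E * Real.exp (4 * ε * ((q.1 : ℝ) - i / 2)) +
        E * Real.exp (-(4 * ε) * ((q.1 : ℝ) - i / 2))) := by
    apply Ex_mono (by norm_num) (by norm_num)
    intro q _
    show (if ε * k < |(q.1 : ℝ) - i / 2| then (1 : ℝ) else 0) ≤ _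
    split_ifs with hq
    · have a1 : ∀ y : ℝ, ε * k < y → 1 ≤ E * Real.exp (4 * ε * y) := by
        intro y hy
        rw [hE, ← Real.exp_add]
        apply Real.one_le_exp
        nlinarith
      rcases lt_abs.mp hq with h | h
      · have := a1 _ h
        have h' : 0 ≤ E * Real.exp (-(4 * ε) * ((q.1 : ℝ) - i / 2)) := by positivity
        linarith
      · have := a1 _ h
        have h' : 0 ≤ E * Real.exp (4 * ε * ((q.1 : ℝ) - i / 2)) := by positivity
        have h'' : 4 * ε * -((q.1 : ℝ) - i / 2) = -(4 * ε) * ((q.1 : ℝ) - i / 2) := by ring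
        rw [h''] at this
        linarith
    · positivity
  refine h1.trans ?_
  rw [Ex_add', Ex_mul, Ex_mul, Ex_exp, Ex_exp]
  have h2 := cosh_pow_le (4 * ε) i k hi
  have h3 := cosh_pow_le (-(4 * ε)) i k hi
  have e1 : E * Real.exp ((4 * ε) ^ 2 / 8 * k) = Real.exp (-(2 * ε ^ 2 * k)) := by
    rw [hE, ← Real.exp_add]
    congr 1
    ring
  have e2 : E * Real.exp ((-(4 * ε)) ^ 2 / 8 * k) = Real.exp (-(2 * ε ^ 2 * k)) := by
    rw [hE, ← Real.exp_add]
    congr 1
    ring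
  have h4 := mul_le_mul_of_nonneg_left h2 hE0.le
  have h5 := mul_le_mul_of_nonneg_left h3 hE0.le
  rw [e1] at h4
  rw [e2] at h5
  linarith

open Classical in
/-- Union over `i ≤ k` with `count_half_le` and `dev_one`; absorb `2 (k + 1)` in the exponential:
`(k + 1) * exp (- ε ^ 2 k) ≤ C`. -/
theorem dev_count (ε : ℝ) (hε : 0 < ε) :
    ∃ c : ℝ, 0 < c ∧ ∃ C : ℝ, 0 < C ∧ ∀ k : ℕ,
      (((range (2 ^ k)).filter (fun n => ∃ i ∈ range (k + 1),
        ε * k < |((enc i n).1 : ℝ) - i / 2|)).card : ℝ) ≤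
        C * 2 ^ k * Real.exp (-(c * k)) := by
  have hε2 : 0 < ε ^ 2 := by positivity
  refine ⟨ε ^ 2, hε2, 2 * (1 / ε ^ 2 + 1), by positivity, ?_⟩
  intro k
  have hsub : (range (2 ^ k)).filter (fun n => ∃ i ∈ range (k + 1),
        ε * k < |((enc i n).1 : ℝ) - i / 2|) ⊆
      (range (k + 1)).biUnion (fun i => (range (2 ^ k)).filter
        (fun n => ε * k < |((enc i n).1 : ℝ) - i / 2|)) := by
    intro n hn
    simp only [mem_filter] at hn
    obtain ⟨h1, i, hi, h2⟩ := hn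
    rw [mem_biUnion]
    exact ⟨i, hi, mem_filter.mpr ⟨h1, h2⟩⟩
  have hcard : (((range (2 ^ k)).filter (fun n => ∃ i ∈ range (k + 1),
        ε * k < |((enc i n).1 : ℝ) - i / 2|)).card : ℝ) ≤
      ∑ i ∈ range (k + 1), (((range (2 ^ k)).filter
        (fun n => ε * k < |((enc i n).1 : ℝ) - i / 2|)).card : ℝ) := by
    exact_mod_cast (card_le_card hsub).trans card_biUnion_le
  refine hcard.trans ?_
  have hterm : ∀ i ∈ range (k + 1), (((range (2 ^ k)).filter
        (fun n => ε * k < |((enc i n).1 : ℝ) - i / 2|)).card : ℝ) ≤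
      2 ^ k * (2 * Real.exp (-(2 * ε ^ 2 * k))) := by
    intro i hi
    have hik : i ≤ k := Nat.lt_succ_iff.mp (mem_range.mp hi)
    have e := count_half_le i k hik (fun q => ε * k < |(q.1 : ℝ) - i / 2|)
    have e2 := dev_one ε hε i k hik
    refine (le_of_eq e).trans (mul_le_mul_of_nonneg_left (le_trans (le_of_eq ?_) e2)
      (by positivity))
    apply Ex_congr
    intro q _
    rfl
  refine (sum_le_sum hterm).trans ?_
  rw [sum_const, card_range, nsmul_eq_mul]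
  push_cast
  have hk : (k : ℝ) * Real.exp (-(ε ^ 2 * k)) ≤ 1 / ε ^ 2 := by
    rw [le_div_iff₀ hε2]
    have h1 : ε ^ 2 * k ≤ Real.exp (ε ^ 2 * k) := by
      have := Real.add_one_le_exp (ε ^ 2 * (k : ℝ))
      linarith
    have h2 : Real.exp (-(ε ^ 2 * k)) * Real.exp (ε ^ 2 * k) = 1 := by
      rw [← Real.exp_add]
      simp
    have h3 := Real.exp_pos (-(ε ^ 2 * (k : ℝ)))
    calc (k : ℝ) * Real.exp (-(ε ^ 2 * k)) * ε ^ 2 =
        Real.exp (-(ε ^ 2 * k)) * (ε ^ 2 * k) := by ring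
      _ ≤ Real.exp (-(ε ^ 2 * k)) * Real.exp (ε ^ 2 * k) :=
        mul_le_mul_of_nonneg_left h1 h3.le
      _ = 1 := h2
  have hone : Real.exp (-(ε ^ 2 * k)) ≤ 1 := by
    apply Real.exp_le_one_iff.mpr
    have : 0 ≤ ε ^ 2 * (k : ℝ) := by positivity
    linarith
  have hsplit : Real.exp (-(2 * ε ^ 2 * k)) =
      Real.exp (-(ε ^ 2 * k)) * Real.exp (-(ε ^ 2 * k)) := by
    rw [← Real.exp_add]
    congr 1
    ring
  rw [hsplit]
  have h6 : ((k : ℝ) + 1) * Real.exp (-(ε ^ 2 * k)) ≤ 1 / ε ^ 2 + 1 := by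
    linarith
  have h7 : 0 ≤ 2 * (2 : ℝ) ^ k * Real.exp (-(ε ^ 2 * k)) := by positivity
  calc ((k : ℝ) + 1) * (2 ^ k * (2 * (Real.exp (-(ε ^ 2 * k)) * Real.exp (-(ε ^ 2 * k))))) =
      (2 * (2 : ℝ) ^ k * Real.exp (-(ε ^ 2 * k))) * (((k : ℝ) + 1) * Real.exp (-(ε ^ 2 * k))) := by
        ring
    _ ≤ (2 * (2 : ℝ) ^ k * Real.exp (-(ε ^ 2 * k))) * (1 / ε ^ 2 + 1) :=
        mul_le_mul_of_nonneg_left h6 h7
    _ = 2 * (1 / ε ^ 2 + 1) * 2 ^ k * Real.exp (-(ε ^ 2 * k)) := by ring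

end Pool.Agent.Syr66
end

section

set_option autoImplicit false

namespace Pool.Agent.Syr66

open Finset

/-- Chernoff. For `x = 1 + u`, `u > 0` small: the indicator is `≤ x ^ (q.1 - (α + ε) k)`, so by
`Ex_pow` the expectation is `≤ ((1 + α u) * x ^ (-(α + ε))) ^ k`, and
`log (1 + α u) - (α + ε) log (1 + u) ≤ α u - (α + ε) (u - u ^ 2 / 2) < 0` for `u < 2 ε / (α + ε)`
(use `log (1 + u) ≥ u - u^2/2` or `≥ u / (1 + u)`: then take `α u < (α + ε) u / (1 + u)`). -/
theorem upper_tail {α : ℝ} (h0 : 0 < α) (h1 : α < 1) (ε : ℝ) (hε : 0 < ε) :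
    ∃ c : ℝ, 0 < c ∧ ∀ k : ℕ,
      Ex α k (fun q => if (α + ε) * k ≤ (q.1 : ℝ) then 1 else 0) ≤ Real.exp (-(c * k)) := by
  obtain ⟨u, hu0, hαu⟩ : ∃ u : ℝ, 0 < u ∧ α * u = ε / 2 :=
    ⟨ε / (2 * α), by positivity, by field_simp⟩
  obtain ⟨L, hL⟩ : ∃ L : ℝ, L = Real.log (1 + u) := ⟨_, rfl⟩
  have hL0 : 0 < L := by rw [hL]; exact Real.log_pos (by linarith)
  have hLlow : u / (1 + u) ≤ L := by
    have h := Real.one_sub_inv_le_log_of_pos (show (0 : ℝ) < 1 + u by linarith)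
    have e : 1 - (1 + u)⁻¹ = u / (1 + u) := by field_simp; ring
    rw [e] at h
    rw [hL]; exact h
  have hexpL : Real.exp L = 1 + u := by rw [hL]; exact Real.exp_log (by linarith)
  refine ⟨(α + ε) * L - α * u, ?_, ?_⟩
  · have h2 : (α + ε) * (u / (1 + u)) ≤ (α + ε) * L :=
      mul_le_mul_of_nonneg_left hLlow (by linarith)
    have h3 : α * u < (α + ε) * (u / (1 + u)) := by
      rw [mul_div_assoc', lt_div_iff₀ (by linarith)]
      have h8 : α * u * (1 + u) = ε / 2 * u + α * u := by rw [hαu]; nlinarith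
      nlinarith [mul_pos hu0 hε, mul_pos hu0 hu0]
    linarith
  · intro k
    have h4 : Ex α k (fun q => if (α + ε) * k ≤ (q.1 : ℝ) then 1 else 0) ≤
        Ex α k (fun q => Real.exp (-((α + ε) * k * L)) * (1 + u) ^ q.1) := by
      refine Ex_mono h0.le h1.le k _ _ (fun q _ => ?_)
      have e : Real.exp (-((α + ε) * k * L)) * (1 + u) ^ q.1 =
          Real.exp (((q.1 : ℝ) - (α + ε) * k) * L) := by
        rw [← hexpL, ← Real.exp_nat_mul, ← Real.exp_add]
        congr 1; ring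
      rw [e]
      split_ifs with h
      · rw [Real.one_le_exp_iff]
        exact mul_nonneg (by linarith) hL0.le
      · exact (Real.exp_pos _).le
    refine h4.trans ?_
    rw [Ex_mul, Ex_pow]
    have h5 : (1 - α + α * (1 + u)) ^ k ≤ Real.exp (α * u * k) := by
      have h6 : 1 - α + α * (1 + u) ≤ Real.exp (α * u) := by
        have := Real.add_one_le_exp (α * u)
        linarith
      have h7 : (0 : ℝ) ≤ 1 - α + α * (1 + u) := by nlinarith
      calc (1 - α + α * (1 + u)) ^ k ≤ (Real.exp (α * u)) ^ k := pow_le_pow_left₀ h7 h6 k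
        _ = Real.exp (α * u * k) := by rw [← Real.exp_nat_mul]; congr 1; ring
    calc Real.exp (-((α + ε) * k * L)) * (1 - α + α * (1 + u)) ^ k
        ≤ Real.exp (-((α + ε) * k * L)) * Real.exp (α * u * k) :=
          mul_le_mul_of_nonneg_left h5 (Real.exp_pos _).le
      _ = Real.exp (-(((α + ε) * L - α * u) * k)) := by
          rw [← Real.exp_add]; congr 1; ring

/-- Chernoff with `x = 1 - u`: the indicator is `≤ x ^ (q.1 - (α - ε) k)`, expectation
`≤ ((1 - α u) * x ^ (-(α - ε))) ^ k`; `log (1 - α u) ≤ - α u`, and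
`- (α - ε) * log (1 - u) ≤ (α - ε) * u / (1 - u)` if `α ≥ ε` (`≤ 0` otherwise). -/
theorem lower_tail {α : ℝ} (h0 : 0 < α) (h1 : α < 1) (ε : ℝ) (hε : 0 < ε) :
    ∃ c : ℝ, 0 < c ∧ ∀ k : ℕ,
      Ex α k (fun q => if (q.1 : ℝ) ≤ (α - ε) * k then 1 else 0) ≤ Real.exp (-(c * k)) := by
  obtain ⟨u, hu0, hu1, hαu⟩ : ∃ u : ℝ, 0 < u ∧ u ≤ 1 / 2 ∧ α * u ≤ ε / 2 := by
    refine ⟨min (1 / 2) (ε / (2 * α)), lt_min (by norm_num) (by positivity), min_le_left _ _, ?_⟩
    calc α * min (1 / 2) (ε / (2 * α)) ≤ α * (ε / (2 * α)) :=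
          mul_le_mul_of_nonneg_left (min_le_right _ _) h0.le
      _ = ε / 2 := by field_simp
  obtain ⟨L, hL⟩ : ∃ L : ℝ, L = -Real.log (1 - u) := ⟨_, rfl⟩
  have hL0 : 0 < L := by
    have := Real.log_neg (show (0 : ℝ) < 1 - u by linarith) (by linarith)
    linarith
  have hLup : L ≤ u / (1 - u) := by
    have h := Real.one_sub_inv_le_log_of_pos (show (0 : ℝ) < 1 - u by linarith)
    have e : 1 - (1 - u)⁻¹ = -(u / (1 - u)) := by
      have : (1 - u) ≠ 0 := by linarith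
      field_simp; ring
    rw [e] at h
    linarith
  have hexpL : Real.exp (-L) = 1 - u := by
    rw [hL, neg_neg]; exact Real.exp_log (by linarith)
  refine ⟨α * u - (α - ε) * L, ?_, ?_⟩
  · rcases le_or_gt α ε with h | h
    · have h2 : (α - ε) * L ≤ 0 := mul_nonpos_of_nonpos_of_nonneg (by linarith) hL0.le
      have h3 : 0 < α * u := mul_pos h0 hu0
      linarith
    · have h2 : (α - ε) * L ≤ (α - ε) * (u / (1 - u)) :=
        mul_le_mul_of_nonneg_left hLup (by linarith)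
      have h3 : (α - ε) * (u / (1 - u)) < α * u := by
        rw [mul_div_assoc', div_lt_iff₀ (by linarith)]
        nlinarith [mul_pos hu0 hε, mul_le_mul_of_nonneg_right hαu hu0.le]
      linarith
  · intro k
    have h4 : Ex α k (fun q => if (q.1 : ℝ) ≤ (α - ε) * k then 1 else 0) ≤
        Ex α k (fun q => Real.exp ((α - ε) * k * L) * (1 - u) ^ q.1) := by
      refine Ex_mono h0.le h1.le k _ _ (fun q _ => ?_)
      have e : Real.exp ((α - ε) * k * L) * (1 - u) ^ q.1 =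
          Real.exp (((α - ε) * k - (q.1 : ℝ)) * L) := by
        rw [← hexpL, ← Real.exp_nat_mul, ← Real.exp_add]
        congr 1; ring
      rw [e]
      split_ifs with h
      · rw [Real.one_le_exp_iff]
        exact mul_nonneg (by linarith) hL0.le
      · exact (Real.exp_pos _).le
    refine h4.trans ?_
    rw [Ex_mul, Ex_pow]
    have h5 : (1 - α + α * (1 - u)) ^ k ≤ Real.exp (-(α * u) * k) := by
      have h6 : 1 - α + α * (1 - u) ≤ Real.exp (-(α * u)) := by
        have := Real.add_one_le_exp (-(α * u))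
        linarith
      have h7 : (0 : ℝ) ≤ 1 - α + α * (1 - u) := by nlinarith
      calc (1 - α + α * (1 - u)) ^ k ≤ (Real.exp (-(α * u))) ^ k := pow_le_pow_left₀ h7 h6 k
        _ = Real.exp (-(α * u) * k) := by rw [← Real.exp_nat_mul]; congr 1; ring
    calc Real.exp ((α - ε) * k * L) * (1 - α + α * (1 - u)) ^ k
        ≤ Real.exp ((α - ε) * k * L) * Real.exp (-(α * u) * k) :=
          mul_le_mul_of_nonneg_left h5 (Real.exp_pos _).le
      _ = Real.exp (-((α * u - (α - ε) * L) * k)) := by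
          rw [← Real.exp_add]; congr 1; ring

end Pool.Agent.Syr66
end
end
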