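import Pool.Agent.Lib.MP_529d88_nt.A1
import Pool.Agent.Lib.MP_529d88_nt.A4
import Pool.Agent.Lib.MP_529d88_nt.C3
import Pool.Agent.Lib.MP_529d88_nt.T1
import Pool.Agent.Lib.MP_529d88_nt.P1

section

set_option autoImplicit false

namespace Pool.Agent.Syr66

open Finset

private theorem cn_eq (S : Finset ℕ) (i x : ℕ) :
    cn S i x = ∑ τ ∈ S, (if τ % 3 ^ i = x then (1 : ℝ) else 0) := by
  unfold cn
  rw [Finset.card_filter]
  push_cast
  rfl

private theorem mod_succ_split (τ i : ℕ) :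
    τ % 3 ^ (i + 1) = τ % 3 ^ i + 3 ^ i * (τ / 3 ^ i % 3) := by
  rw [pow_succ, Nat.mod_mul]

private theorem mod_split_unique {τ i x a : ℕ} (hx : x < 3 ^ i)
    (h : τ % 3 ^ (i + 1) = x + 3 ^ i * a) : x = τ % 3 ^ i ∧ a = τ / 3 ^ i % 3 := by
  rw [mod_succ_split] at h
  have hp : 0 < 3 ^ i := by positivity
  have hlt : τ % 3 ^ i < 3 ^ i := Nat.mod_lt _ hp
  have h1 : (τ % 3 ^ i + 3 ^ i * (τ / 3 ^ i % 3)) % 3 ^ i = (x + 3 ^ i * a) % 3 ^ i := by rw [h]
  rw [Nat.add_mul_mod_self_left, Nat.add_mul_mod_self_left, Nat.mod_eq_of_lt hlt,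
    Nat.mod_eq_of_lt hx] at h1
  refine ⟨h1.symm, ?_⟩
  rw [h1] at h
  have h2 : 3 ^ i * (τ / 3 ^ i % 3) = 3 ^ i * a := by omega
  exact (Nat.eq_of_mul_eq_mul_left hp h2).symm

/-- Group the elements `τ` of `S` by the class `x + 3 ^ i * a` of `τ` mod `3 ^ (i + 1)`
(`x < 3 ^ i`, `a < 3`): `Finset.sum_fiberwise`-type argument; for such `τ`,
`z + 3 ^ i * d - τ` is congruent to `z - x + 3 ^ i * ((d + 3 - a) % 3)` mod `3 ^ (i + 1)`, so the values
of `p α (i + 1)` agree (`p_periodic`). -/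
theorem fS_decomp (α : ℝ) (S : Finset ℕ) (i : ℕ) (z : ℤ) (d : ℕ) (hd : d < 3) :
    fS α S (i + 1) (z + 3 ^ i * d) =
      ∑ x ∈ range (3 ^ i), ∑ a ∈ range 3, cn S (i + 1) (x + 3 ^ i * a) *
        p α (i + 1) (z - (x : ℤ) + 3 ^ i * (((d + 3 - a) % 3 : ℕ) : ℤ)) := by
  unfold fS
  simp_rw [cn_eq, Finset.sum_mul]
  have e1 : ∀ x ∈ range (3 ^ i), ∑ a ∈ range 3, ∑ τ ∈ S,
      (if τ % 3 ^ (i + 1) = x + 3 ^ i * a then (1 : ℝ) else 0) *
        p α (i + 1) (z - (x : ℤ) + 3 ^ i * (((d + 3 - a) % 3 : ℕ) : ℤ)) =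
      ∑ τ ∈ S, ∑ a ∈ range 3,
      (if τ % 3 ^ (i + 1) = x + 3 ^ i * a then (1 : ℝ) else 0) *
        p α (i + 1) (z - (x : ℤ) + 3 ^ i * (((d + 3 - a) % 3 : ℕ) : ℤ)) :=
    fun x _ => Finset.sum_comm
  rw [Finset.sum_congr rfl e1, Finset.sum_comm]
  refine Finset.sum_congr rfl fun τ _ => ?_
  have hp : 0 < 3 ^ i := by positivity
  have ha3 : τ / 3 ^ i % 3 < 3 := Nat.mod_lt _ (by norm_num)
  rw [Finset.sum_eq_single (τ % 3 ^ i), Finset.sum_eq_single (τ / 3 ^ i % 3)]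
  · rw [if_pos (mod_succ_split τ i), one_mul]
    set a := τ / 3 ^ i % 3 with ha
    set e := (d + 3 - a) % 3 with he
    set f := (d + 3 - a) / 3 with hf
    have hef : (d : ℤ) + 3 - a = e + 3 * f := by
      have := Nat.mod_add_div (d + 3 - a) 3
      omega
    have hτ : (τ : ℤ) = (τ % 3 ^ i : ℕ) + 3 ^ i * a + 3 ^ (i + 1) * (τ / 3 ^ (i + 1) : ℕ) := by
      have h1 := Nat.mod_add_div τ (3 ^ (i + 1))
      rw [mod_succ_split, ← ha] at h1
      exact_mod_cast h1.symm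
    have h2 : z + 3 ^ i * (d : ℤ) - τ = (z - ((τ % 3 ^ i : ℕ) : ℤ) + 3 ^ i * (e : ℤ)) +
        3 ^ (i + 1) * ((f : ℤ) - 1 - (τ / 3 ^ (i + 1) : ℕ)) := by
      rw [hτ]
      have h3 : ((((τ % 3 ^ i : ℕ) : ℤ) + 3 ^ i * a + 3 ^ (i + 1) * (τ / 3 ^ (i + 1) : ℕ) : ℤ)) = τ :=
        hτ.symm
      have h4 : (d : ℤ) = e + 3 * f - 3 + a := by linarith
      rw [h4]
      ring
    rw [h2, p_periodic]
  · intro a _ hne
    rw [if_neg, zero_mul]
    intro h
    exact hne (mod_split_unique (Nat.mod_lt _ hp) h).2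
  · intro h
    exact absurd (Finset.mem_range.2 ha3) h
  · intro x hx hne
    refine Finset.sum_eq_zero fun a _ => ?_
    rw [if_neg, zero_mul]
    intro h
    exact hne (mod_split_unique (Finset.mem_range.1 hx) h).1
  · intro h
    exact absurd (Finset.mem_range.2 (Nat.mod_lt _ hp)) h

/-- `cn` marginal: a class mod `3 ^ i` is the union of three classes mod `3 ^ (i + 1)`. -/
theorem cn_marg (S : Finset ℕ) (i x : ℕ) (hx : x < 3 ^ i) :
    ∑ a ∈ range 3, cn S (i + 1) (x + 3 ^ i * a) = cn S i x := by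
  simp_rw [cn_eq]
  rw [Finset.sum_comm]
  refine Finset.sum_congr rfl fun τ _ => ?_
  have ha3 : τ / 3 ^ i % 3 < 3 := Nat.mod_lt _ (by norm_num)
  by_cases h : τ % 3 ^ i = x
  · rw [if_pos h, Finset.sum_eq_single (τ / 3 ^ i % 3)]
    · rw [if_pos]
      rw [mod_succ_split, h]
    · intro a _ hne
      rw [if_neg]
      intro h'
      exact hne (mod_split_unique hx h').2
    · intro h'
      exact absurd (Finset.mem_range.2 ha3) h'
  · rw [if_neg h]
    refine Finset.sum_eq_zero fun a _ => ?_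
    rw [if_neg]
    intro h'
    exact h (mod_split_unique hx h').1.symm

theorem cn_sum (S : Finset ℕ) (i : ℕ) :
    ∑ x ∈ range (3 ^ i), cn S i x = S.card := by
  simp_rw [cn_eq]
  rw [Finset.sum_comm]
  have hp : 0 < 3 ^ i := by positivity
  have h : ∀ τ ∈ S, ∑ x ∈ range (3 ^ i), (if τ % 3 ^ i = x then (1 : ℝ) else 0) = 1 := by
    intro τ _
    rw [Finset.sum_ite_eq, if_pos (Finset.mem_range.2 (Nat.mod_lt _ hp))]
  rw [Finset.sum_congr rfl h]
  simp

end Pool.Agent.Syr66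
end

section

section

set_option autoImplicit false

namespace Pool.Agent.Syr66

open Finset

private lemma d4_split (g : ℕ → ℝ) (n : ℕ) :
    ∑ x ∈ range n, ∑ a ∈ range 3, g (x + n * a) = ∑ y ∈ range (n * 3), g y := by
  have h : n * 3 = n + n + n := by ring
  rw [h, Finset.sum_range_add, Finset.sum_range_add]
  simp only [Finset.sum_range_succ, Finset.sum_range_zero, zero_add, Finset.sum_add_distrib]
  congr 1
  · congr 1
    apply Finset.sum_congr rfl
    intro x _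
    rw [mul_one, add_comm]
  · apply Finset.sum_congr rfl
    intro x _
    congr 1
    ring

private lemma d4_step (S : Finset ℕ) (i : ℕ) :
    ∑ x ∈ range (3 ^ i), hh (range 3) (fun a => cn S (i + 1) (x + 3 ^ i * a)) =
      (∑ x ∈ range (3 ^ (i + 1)), Real.negMulLog (cn S (i + 1) x)) -
        ∑ x ∈ range (3 ^ i), Real.negMulLog (cn S i x) := by
  unfold hh
  rw [Finset.sum_sub_distrib]
  congr 1
  · rw [pow_succ]
    exact d4_split (fun y => Real.negMulLog (cn S (i + 1) y)) (3 ^ i)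
  · apply Finset.sum_congr rfl
    intro x hx
    rw [cn_marg S i x (Finset.mem_range.mp hx)]

private lemma d4_top (S : Finset ℕ) (m : ℕ) (hS : ∀ τ ∈ S, τ < 3 ^ m) (x : ℕ) :
    Real.negMulLog (cn S m x) = 0 := by
  have h1 : (S.filter (fun τ => τ % 3 ^ m = x)).card ≤ 1 := by
    rw [Finset.card_le_one]
    intro a ha b hb
    rw [Finset.mem_filter] at ha hb
    rw [Nat.mod_eq_of_lt (hS a ha.1)] at ha
    rw [Nat.mod_eq_of_lt (hS b hb.1)] at hb
    rw [ha.2, hb.2]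
  unfold cn
  interval_cases h : (S.filter (fun τ => τ % 3 ^ m = x)).card
  · simp
  · simp

/-- Chain rule for the counting function of `S`. With `H i = ∑ x < 3 ^ i, negMulLog (cn S i x)`:
`H 0 = negMulLog S.card`, `H m = 0` (all classes mod `3 ^ m` contain at most one element of `S`, and
`negMulLog 0 = negMulLog 1 = 0`), and
`H (i+1) - H i = ∑ x < 3 ^ i, hh (range 3) (fun a => cn S (i+1) (x + 3 ^ i a))` by `cn_marg` and the
splitting of `range (3 ^ (i+1))` as `x + 3 ^ i a`. Telescope. -/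
theorem card_log_card (S : Finset ℕ) (m : ℕ) (hS : ∀ τ ∈ S, τ < 3 ^ m) :
    (S.card : ℝ) * Real.log S.card = ∑ i ∈ range m, ∑ x ∈ range (3 ^ i),
      hh (range 3) (fun a => cn S (i + 1) (x + 3 ^ i * a)) := by
  simp only [d4_step]
  rw [Finset.sum_range_sub (fun i => ∑ x ∈ range (3 ^ i), Real.negMulLog (cn S i x)) m]
  have h0 : ∑ x ∈ range (3 ^ 0), Real.negMulLog (cn S 0 x) =
      -((S.card : ℝ) * Real.log S.card) := by
    have h : (S.filter (fun τ => τ % 3 ^ 0 = 0)) = S := by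
      apply Finset.filter_true_of_mem
      intro τ _
      rw [pow_zero, Nat.mod_one]
    rw [pow_zero, Finset.sum_range_one]
    unfold cn
    rw [h, Real.negMulLog]
    ring
  have hm : ∑ x ∈ range (3 ^ m), Real.negMulLog (cn S m x) = 0 :=
    Finset.sum_eq_zero (fun x _ => d4_top S m hS x)
  rw [hm, h0]
  ring

end Pool.Agent.Syr66
end

section

set_option autoImplicit false

namespace Pool.Agent.Syr66

open Finset

private theorem hh_range3 (f : ℕ → ℝ) : hh (range 3) f =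
    Real.negMulLog (f 0) + Real.negMulLog (f 1) + Real.negMulLog (f 2) -
      Real.negMulLog (f 0 + f 1 + f 2) := by
  unfold hh
  simp only [Finset.sum_range_succ, Finset.sum_range_zero, zero_add]

/-- Homogeneous form of `conv_prob3`. If `∑ u = 0` or `∑ w = 0` everything vanishes (all entries
zero; `aa` is then `0` since `0 - 0 / 0 = 0`). Otherwise divide by the totals `U = ∑ u`, `V = ∑ w`:
`hh (range 3) w = V * (∑ negMulLog (w a / V))` (`hh_mul`), `aa (range 3) u = U * (1 - ∑ (u a / U)^2)`, and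
the convolution is `U * V` times the convolution of the normalised vectors; apply `conv_prob3`. Expand
sums with `Finset.sum_range_succ`. -/
theorem hh_conv3 (u w : ℕ → ℝ) (hu : ∀ a ∈ range 3, 0 ≤ u a) (hw : ∀ a ∈ range 3, 0 ≤ w a) :
    (∑ a ∈ range 3, u a) * hh (range 3) w +
      1 / 4 * aa (range 3) u * ((∑ a ∈ range 3, w a) * Real.log 3 - hh (range 3) w) ≤
    hh (range 3) (fun d => ∑ a ∈ range 3, u a * w ((d + 3 - a) % 3)) := by
  have hu0 : 0 ≤ u 0 := hu 0 (by simp)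
  have hu1 : 0 ≤ u 1 := hu 1 (by simp)
  have hu2 : 0 ≤ u 2 := hu 2 (by simp)
  have hw0 : 0 ≤ w 0 := hw 0 (by simp)
  have hw1 : 0 ≤ w 1 := hw 1 (by simp)
  have hw2 : 0 ≤ w 2 := hw 2 (by simp)
  have hR : hh (range 3) (fun d => ∑ a ∈ range 3, u a * w ((d + 3 - a) % 3)) =
      hh (range 3) (fun d => if d = 0 then u 0 * w 0 + u 1 * w 2 + u 2 * w 1 else
        if d = 1 then u 0 * w 1 + u 1 * w 0 + u 2 * w 2 else u 0 * w 2 + u 1 * w 1 + u 2 * w 0) := by
    rw [hh_range3, hh_range3]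
    simp [Finset.sum_range_succ]
  have hUs : ∑ a ∈ range 3, u a = u 0 + u 1 + u 2 := by
    simp [Finset.sum_range_succ]
  have hVs : ∑ a ∈ range 3, w a = w 0 + w 1 + w 2 := by
    simp [Finset.sum_range_succ]
  have hAs : aa (range 3) u = (u 0 + u 1 + u 2) -
      (u 0 ^ 2 + u 1 ^ 2 + u 2 ^ 2) / (u 0 + u 1 + u 2) := by
    unfold aa
    simp [Finset.sum_range_succ]
  rw [hR, hUs, hVs, hAs]
  rcases eq_or_lt_of_le (show 0 ≤ u 0 + u 1 + u 2 by positivity) with hU | hU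
  · have e0 : u 0 = 0 := by linarith
    have e1 : u 1 = 0 := by linarith
    have e2 : u 2 = 0 := by linarith
    rw [hh_range3 (fun d => if d = 0 then _ else _)]
    simp [e0, e1, e2]
  rcases eq_or_lt_of_le (show 0 ≤ w 0 + w 1 + w 2 by positivity) with hV | hV
  · have e0 : w 0 = 0 := by linarith
    have e1 : w 1 = 0 := by linarith
    have e2 : w 2 = 0 := by linarith
    rw [hh_range3 (fun d => if d = 0 then _ else _), hh_range3 w]
    simp [e0, e1, e2]
  set U := u 0 + u 1 + u 2 with hUdef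
  set V := w 0 + w 1 + w 2 with hVdef
  have hUne := hU.ne'
  have hVne := hV.ne'
  have hmain := conv_prob3 (u 0 / U) (u 1 / U) (u 2 / U) (w 0 / V) (w 1 / V) (w 2 / V)
    (by positivity) (by positivity) (by positivity) (by positivity) (by positivity) (by positivity)
    (by rw [← add_div, ← add_div, ← hUdef, div_self hUne])
    (by rw [← add_div, ← add_div, ← hVdef, div_self hVne])
  have hwV : hh (range 3) w = V * (Real.negMulLog (w 0 / V) + Real.negMulLog (w 1 / V) +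
      Real.negMulLog (w 2 / V)) := by
    have h1 : hh (range 3) w = hh (range 3) (fun i => V * (w i / V)) :=
      hh_congr _ _ _ (fun i _ => by field_simp)
    rw [h1, hh_mul (range 3) (fun i => w i / V) V, hh_range3]
    have h2 : w 0 / V + w 1 / V + w 2 / V = 1 := by
      rw [← add_div, ← add_div, ← hVdef, div_self hVne]
    rw [h2, Real.negMulLog_one, sub_zero]
  have hRV : hh (range 3) (fun d => if d = 0 then u 0 * w 0 + u 1 * w 2 + u 2 * w 1 else
        if d = 1 then u 0 * w 1 + u 1 * w 0 + u 2 * w 2 else u 0 * w 2 + u 1 * w 1 + u 2 * w 0) =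
      (U * V) * (Real.negMulLog (u 0 / U * (w 0 / V) + u 1 / U * (w 2 / V) + u 2 / U * (w 1 / V)) +
        Real.negMulLog (u 0 / U * (w 1 / V) + u 1 / U * (w 0 / V) + u 2 / U * (w 2 / V)) +
        Real.negMulLog (u 0 / U * (w 2 / V) + u 1 / U * (w 1 / V) + u 2 / U * (w 0 / V))) := by
    have h1 : hh (range 3) (fun d => if d = 0 then u 0 * w 0 + u 1 * w 2 + u 2 * w 1 else
        if d = 1 then u 0 * w 1 + u 1 * w 0 + u 2 * w 2 else u 0 * w 2 + u 1 * w 1 + u 2 * w 0) =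
        hh (range 3) (fun d => (U * V) * (if d = 0 then
          u 0 / U * (w 0 / V) + u 1 / U * (w 2 / V) + u 2 / U * (w 1 / V) else
        if d = 1 then u 0 / U * (w 1 / V) + u 1 / U * (w 0 / V) + u 2 / U * (w 2 / V) else
          u 0 / U * (w 2 / V) + u 1 / U * (w 1 / V) + u 2 / U * (w 0 / V))) := by
      refine hh_congr _ _ _ (fun i _ => ?_)
      split_ifs <;> field_simp
    rw [h1, hh_mul (range 3) (fun d => if d = 0 then
          u 0 / U * (w 0 / V) + u 1 / U * (w 2 / V) + u 2 / U * (w 1 / V) else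
        if d = 1 then u 0 / U * (w 1 / V) + u 1 / U * (w 0 / V) + u 2 / U * (w 2 / V) else
          u 0 / U * (w 2 / V) + u 1 / U * (w 1 / V) + u 2 / U * (w 0 / V)) (U * V), hh_range3]
    have h2 : (u 0 / U * (w 0 / V) + u 1 / U * (w 2 / V) + u 2 / U * (w 1 / V)) +
        (u 0 / U * (w 1 / V) + u 1 / U * (w 0 / V) + u 2 / U * (w 2 / V)) +
        (u 0 / U * (w 2 / V) + u 1 / U * (w 1 / V) + u 2 / U * (w 0 / V)) = 1 := by
      have : (u 0 / U * (w 0 / V) + u 1 / U * (w 2 / V) + u 2 / U * (w 1 / V)) +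
        (u 0 / U * (w 1 / V) + u 1 / U * (w 0 / V) + u 2 / U * (w 2 / V)) +
        (u 0 / U * (w 2 / V) + u 1 / U * (w 1 / V) + u 2 / U * (w 0 / V)) =
        (u 0 + u 1 + u 2) / U * ((w 0 + w 1 + w 2) / V) := by ring
      rw [this, ← hUdef, ← hVdef, div_self hUne, div_self hVne, one_mul]
    simp only [if_true, if_neg (show ¬ ((1 : ℕ) = 0) by norm_num),
      if_neg (show ¬ ((2 : ℕ) = 0) by norm_num), if_neg (show ¬ ((2 : ℕ) = 1) by norm_num)]
    rw [h2, Real.negMulLog_one, sub_zero]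
  have hA : U - (u 0 ^ 2 + u 1 ^ 2 + u 2 ^ 2) / U =
      U * (1 - ((u 0 / U) ^ 2 + (u 1 / U) ^ 2 + (u 2 / U) ^ 2)) := by
    field_simp
  rw [hwV, hRV, hA]
  have h3 := mul_le_mul_of_nonneg_left hmain (mul_pos hU hV).le
  refine le_trans (le_of_eq ?_) h3
  ring

/-- `aa` is nonnegative: `∑ (u a) ^ 2 ≤ (∑ u a) ^ 2`. -/
theorem aa_nonneg (u : ℕ → ℝ) (hu : ∀ a ∈ range 3, 0 ≤ u a) : 0 ≤ aa (range 3) u := by
  have hu0 : 0 ≤ u 0 := hu 0 (by simp)
  have hu1 : 0 ≤ u 1 := hu 1 (by simp)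
  have hu2 : 0 ≤ u 2 := hu 2 (by simp)
  have hAs : aa (range 3) u = (u 0 + u 1 + u 2) -
      (u 0 ^ 2 + u 1 ^ 2 + u 2 ^ 2) / (u 0 + u 1 + u 2) := by
    unfold aa
    simp [Finset.sum_range_succ]
  rw [hAs]
  rcases eq_or_lt_of_le (show 0 ≤ u 0 + u 1 + u 2 by positivity) with hU | hU
  · rw [← hU]
    simp
  · rw [sub_nonneg, div_le_iff₀ hU]
    nlinarith [mul_nonneg hu0 hu1, mul_nonneg hu0 hu2, mul_nonneg hu1 hu2]

end Pool.Agent.Syr66
end
end

section

section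

set_option autoImplicit false

namespace Pool.Agent.Syr66

open Finset

/-- Tangent line of `negMulLog` at `exp (-κ)`. -/
private lemma a6_tangent (κ t : ℝ) (ht : 0 ≤ t) :
    Real.negMulLog t ≤ Real.exp (-κ) + (κ - 1) * t := by
  rcases ht.eq_or_lt with h | h
  · rw [← h]
    simp [Real.negMulLog, (Real.exp_pos (-κ)).le]
  · have h1 := Real.log_le_sub_one_of_pos (div_pos (Real.exp_pos (-κ)) h)
    rw [Real.log_div (Real.exp_pos _).ne' h.ne', Real.log_exp] at h1
    have h2 := mul_le_mul_of_nonneg_left h1 h.le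
    have h3 : t * (Real.exp (-κ) / t - 1) = Real.exp (-κ) - t := by
      field_simp
    rw [h3] at h2
    unfold Real.negMulLog
    linarith

private lemma a6_large (q : ℝ) (hq : 0 < q) : Real.negMulLog q ≤ 1 - q := by
  have h1 := Real.one_sub_inv_le_log_of_pos hq
  have h2 := mul_le_mul_of_nonneg_left h1 hq.le
  have h3 : q * (1 - q⁻¹) = q - 1 := by
    field_simp
  rw [h3] at h2
  unfold Real.negMulLog
  linarith

private lemma a6_core (a b q κ : ℝ) (ha : 0 ≤ a) (hb : 0 ≤ b) (haq : a ≤ q) (hbq : b ≤ q)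
    (hs : a + b + q = 1) (hκ : 1 ≤ κ) :
    Real.negMulLog a + Real.negMulLog b + Real.negMulLog q ≤
      2 * Real.exp (-κ) + 3 * κ / 2 * (1 - (a ^ 2 + b ^ 2 + q ^ 2)) := by
  have hq : 1 / 3 ≤ q := by linarith
  have h1 := a6_tangent κ a ha
  have h2 := a6_tangent κ b hb
  have h3 := a6_large q (by linarith)
  have h4 : 2 * (a + b) / 3 ≤ 1 - (a ^ 2 + b ^ 2 + q ^ 2) := by
    have hq' : q = 1 - (a + b) := by linarith
    have hab : 0 ≤ a * b := mul_nonneg ha hb
    have h5 : (a + b) * (1 / 3) ≤ (a + b) * q :=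
      mul_le_mul_of_nonneg_left hq (by linarith)
    rw [hq'] at h5 ⊢
    nlinarith
  have h5 : 3 * κ / 2 * (2 * (a + b) / 3) ≤ 3 * κ / 2 * (1 - (a ^ 2 + b ^ 2 + q ^ 2)) :=
    mul_le_mul_of_nonneg_left h4 (by linarith)
  have h6 : 3 * κ / 2 * (2 * (a + b) / 3) = κ * (a + b) := by ring
  rw [h6] at h5
  have h7 : 1 - q = a + b := by linarith
  nlinarith

private lemma a6_three (a b q κ : ℝ) (ha : 0 ≤ a) (hb : 0 ≤ b) (hq : 0 ≤ q)
    (hs : a + b + q = 1) (hκ : 1 ≤ κ) :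
    Real.negMulLog a + Real.negMulLog b + Real.negMulLog q ≤
      2 * Real.exp (-κ) + 3 * κ / 2 * (1 - (a ^ 2 + b ^ 2 + q ^ 2)) := by
  rcases le_total a q with h1 | h1
  · rcases le_total b q with h2 | h2
    · exact a6_core a b q κ ha hb h1 h2 hs hκ
    · have := a6_core a q b κ ha hq (h1.trans h2) h2 (by linarith) hκ
      linarith
  · rcases le_total b a with h2 | h2
    · have := a6_core b q a κ hb hq h2 h1 (by linarith) hκ
      linarith
    · have := a6_core a q b κ ha hq h2 (h1.trans h2) (by linarith) hκ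
      linarith

/-- Entropy of three weights against the collision deficit. By homogeneity (`hh_mul`; the case
`∑ u = 0` is trivial) assume `∑ u = 1`; let `q` be the largest weight, `s = 1 - q ≤ 2/3` the sum of the
other two. Tangent line: for all `t ≥ 0`, `negMulLog t ≤ exp (-κ) + (κ - 1) * t` (equality of value and
slope at `t = exp (-κ)`; from `Real.add_one_le_exp` or `log x ≤ x - 1` with `x = exp (-κ) / t`), used
for the two small weights: total `≤ 2 exp (-κ) + (κ - 1) s`. For the largest `negMulLog q ≤ 1 - q = s`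
(`log q ≥ 1 - 1 / q`). Hence the entropy is `≤ 2 exp (-κ) + κ s`. And
`1 - ∑ u ^ 2 ≥ 1 - (1 - s) ^ 2 - s ^ 2 = 2 s (1 - s) ≥ 2 s / 3`, so `κ s ≤ (3 κ / 2) * (1 - ∑ u^2)`. -/
theorem hh_le_aa (u : ℕ → ℝ) (hu : ∀ a ∈ range 3, 0 ≤ u a) (κ : ℝ) (hκ : 1 ≤ κ) :
    hh (range 3) u ≤ 2 * Real.exp (-κ) * (∑ a ∈ range 3, u a) +
      3 * κ / 2 * aa (range 3) u := by
  have h0 : 0 ≤ u 0 := hu 0 (by simp)
  have h1 : 0 ≤ u 1 := hu 1 (by simp)
  have h2 : 0 ≤ u 2 := hu 2 (by simp)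
  rcases (add_nonneg (add_nonneg h0 h1) h2).eq_or_lt with hF | hF
  · have e0 : u 0 = 0 := by linarith
    have e1 : u 1 = 0 := by linarith
    have e2 : u 2 = 0 := by linarith
    simp [hh, aa, Finset.sum_range_succ, e0, e1, e2]
  · set F := u 0 + u 1 + u 2 with hFdef
    have hsum : ∑ a ∈ range 3, u a = F := by
      simp [Finset.sum_range_succ, hFdef]
    have hfun : u = fun i => F * (u i / F) := by
      funext i
      field_simp
    have hhu : hh (range 3) u = F * hh (range 3) (fun i => u i / F) := by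
      conv_lhs => rw [hfun]
      exact hh_mul (range 3) (fun i => u i / F) F
    have hone : u 0 / F + u 1 / F + u 2 / F = 1 := by
      rw [← add_div, ← add_div, ← hFdef]
      exact div_self hF.ne'
    have hhq : hh (range 3) (fun i => u i / F) =
        Real.negMulLog (u 0 / F) + Real.negMulLog (u 1 / F) + Real.negMulLog (u 2 / F) := by
      unfold hh
      simp only [Finset.sum_range_succ, Finset.sum_range_zero, zero_add]
      rw [hone]
      simp
    have haa : aa (range 3) u = F * (1 - ((u 0 / F) ^ 2 + (u 1 / F) ^ 2 + (u 2 / F) ^ 2)) := by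
      unfold aa
      rw [hsum]
      simp only [Finset.sum_range_succ, Finset.sum_range_zero, zero_add]
      field_simp
    have hcore := a6_three (u 0 / F) (u 1 / F) (u 2 / F) κ (div_nonneg h0 hF.le)
      (div_nonneg h1 hF.le) (div_nonneg h2 hF.le) hone hκ
    rw [hhu, hhq, haa, hsum]
    have := mul_le_mul_of_nonneg_left hcore hF.le
    linarith

end Pool.Agent.Syr66
end

section

set_option autoImplicit false

namespace Pool.Agent.Syr66

open Finset

section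
variable {α : ℝ} (h0 : 0 < α) (h1 : α < 1)
include h0 h1

theorem fS_nonneg (S : Finset ℕ) (i : ℕ) (z : ℤ) : 0 ≤ fS α S i z := by
  unfold fS
  exact Finset.sum_nonneg fun τ _ => p_nonneg h0 h1 i _

/-- From `p_marg`. -/
theorem fS_marg (S : Finset ℕ) (i : ℕ) (z : ℤ) :
    ∑ d ∈ range 3, fS α S (i + 1) (z + 3 ^ i * d) = fS α S i z := by
  unfold fS
  rw [Finset.sum_comm]
  refine Finset.sum_congr rfl fun τ _ => ?_
  rw [← p_marg h0 h1 i (z - (τ : ℤ))]
  refine Finset.sum_congr rfl fun d _ => ?_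
  congr 1
  ring

/-- From `p_sum` and `sum_affine` (shift), or from `fS_marg` by induction. -/
theorem fS_sum (S : Finset ℕ) (m : ℕ) :
    ∑ x ∈ range (3 ^ m), fS α S m (x : ℤ) = S.card := by
  induction m with
  | zero => simp [fS, p]
  | succ m ih =>
    rw [← ih, pow_succ, sum_split (3 ^ m) 3 (fun z => fS α S (m + 1) z)]
    refine Finset.sum_congr rfl fun c _ => ?_
    rw [← fS_marg h0 h1 S m (c : ℤ)]
    refine Finset.sum_congr rfl fun d _ => ?_
    push_cast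
    rfl

/-- Chain rule, by induction on `m` with `hh_split (3 ^ m) 3` and `fS_marg`. -/
theorem fS_chain (S : Finset ℕ) (m : ℕ) :
    hh (range (3 ^ m)) (fun y => fS α S m (y : ℤ)) =
      ∑ i ∈ range m, ∑ z ∈ range (3 ^ i),
        hh (range 3) (fun d => fS α S (i + 1) ((z : ℤ) + 3 ^ i * d)) := by
  induction m with
  | zero => simp [hh]
  | succ m ih =>
    rw [Finset.sum_range_succ, ← ih, pow_succ, hh_split (3 ^ m) 3 (fun z => fS α S (m + 1) z)]
    have e1 : hh (range (3 ^ m)) (fun c => ∑ y ∈ range 3,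
        fS α S (m + 1) ((c : ℤ) + ((3 ^ m : ℕ) : ℤ) * y)) =
        hh (range (3 ^ m)) (fun y => fS α S m (y : ℤ)) := by
      refine hh_congr _ _ _ fun c _ => ?_
      rw [← fS_marg h0 h1 S m (c : ℤ)]
      refine Finset.sum_congr rfl fun d _ => ?_
      push_cast
      rfl
    have e2 : ∑ c ∈ range (3 ^ m), hh (range 3)
        (fun y => fS α S (m + 1) ((c : ℤ) + ((3 ^ m : ℕ) : ℤ) * y)) =
        ∑ z ∈ range (3 ^ m), hh (range 3) (fun d => fS α S (m + 1) ((z : ℤ) + 3 ^ m * d)) := by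
      refine Finset.sum_congr rfl fun c _ => ?_
      refine hh_congr _ _ _ fun d _ => ?_
      push_cast
      rfl
    rw [e1, e2]

end

end Pool.Agent.Syr66
end

section

set_option autoImplicit false

namespace Pool.Agent.Syr66

open Finset

section
variable {α : ℝ} (h0 : 0 < α) (h1 : α < 1)

private theorem F3_cond (j c : ℕ) (hc : c < 3 ^ j) (q : ℕ × ℕ) :
    ((3 : ℤ) ^ j ∣ (c : ℤ) - (q.2 : ℤ)) ↔ q.2 % 3 ^ j = c := by
  constructor
  · intro hd
    have h2 : ((c : ℤ)) ≡ (q.2 : ℤ) [ZMOD (3 ^ j : ℤ)] := by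
      exact (Int.modEq_iff_dvd.mpr (by
        have : ((q.2 : ℤ) - (c : ℤ)) = -((c : ℤ) - (q.2 : ℤ)) := by ring
        rw [this]; exact (dvd_neg).mpr hd))
    have h3 : c ≡ q.2 [MOD 3 ^ j] := by
      apply (Int.natCast_modEq_iff).mp
      exact_mod_cast h2
    have h4 : c % 3 ^ j = q.2 % 3 ^ j := h3
    rw [Nat.mod_eq_of_lt hc] at h4
    exact h4.symm
  · intro h
    have h2 := Nat.div_add_mod q.2 (3 ^ j)
    rw [h] at h2
    refine ⟨-((q.2 / 3 ^ j : ℕ) : ℤ), ?_⟩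
    have h3 : (q.2 : ℤ) = 3 ^ j * ((q.2 / 3 ^ j : ℕ) : ℤ) + (c : ℤ) := by
      exact_mod_cast h2.symm
    linarith

private theorem F3_inj (L j c : ℕ) :
    Set.InjOn (fun q : ℕ × ℕ => q.2 / 3 ^ j)
      ((W L).filter (fun q => q.1 = j ∧ q.2 % 3 ^ j = c) : Finset (ℕ × ℕ)) := by
  intro a ha b hb hab
  have ha' := (mem_filter.mp (mem_coe.mp ha)).2
  have hb' := (mem_filter.mp (mem_coe.mp hb)).2
  have e1 := Nat.div_add_mod a.2 (3 ^ j)
  have e2 := Nat.div_add_mod b.2 (3 ^ j)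
  have hab' : a.2 / 3 ^ j = b.2 / 3 ^ j := hab
  rw [ha'.2, hab'] at e1
  rw [hb'.2] at e2
  apply Prod.ext
  · rw [ha'.1, hb'.1]
  · exact e1.symm.trans e2

private theorem F3_card (L j c : ℕ) :
    (Sjc L j c).card = ((W L).filter (fun q => q.1 = j ∧ q.2 % 3 ^ j = c)).card := by
  unfold Sjc
  exact card_image_of_injOn (F3_inj L j c)

/-- For `c < 3 ^ j`: the words with `q.1 = j` and `3 ^ j ∣ c - q.2` are those with `q.2 % 3 ^ j = c`;
they are in bijection with `Sjc L j c` by `q ↦ q.2 / 3 ^ j`. -/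
theorem F_eq_card (L j c : ℕ) (hc : c < 3 ^ j) :
    F α L j (c : ℤ) = wt α L j * ((Sjc L j c).card : ℝ) := by
  rw [F3_card]
  unfold F Ex
  have : ∀ q ∈ W L, wt α L q.1 * (if q.1 = j ∧ (3 : ℤ) ^ j ∣ (c : ℤ) - q.2 then (1 : ℝ) else 0) =
      if (q.1 = j ∧ q.2 % 3 ^ j = c) then wt α L j else 0 := by
    intro q _
    by_cases h : q.1 = j ∧ q.2 % 3 ^ j = c
    · have h' : q.1 = j ∧ (3 : ℤ) ^ j ∣ (c : ℤ) - q.2 := ⟨h.1, (F3_cond j c hc q).2 h.2⟩
      rw [if_pos h, if_pos h', h.1, mul_one]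
    · have h' : ¬ (q.1 = j ∧ (3 : ℤ) ^ j ∣ (c : ℤ) - q.2) := fun hh =>
        h ⟨hh.1, (F3_cond j c hc q).1 hh.2⟩
      rw [if_neg h, if_neg h', mul_zero]
  rw [Finset.sum_congr rfl this, ← Finset.sum_filter, Finset.sum_const, nsmul_eq_mul]
  ring

/-- `q.2 < 3 ^ L` (`W_snd_lt`). -/
theorem Sjc_lt (L j c : ℕ) (hj : j ≤ L) : ∀ τ ∈ Sjc L j c, τ < 3 ^ (L - j) := by
  intro τ hτ
  unfold Sjc at hτ
  rw [mem_image] at hτ
  obtain ⟨q, hq, rfl⟩ := hτ
  have hqW := (mem_filter.mp hq).1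
  have h := W_snd_lt hqW
  rw [Nat.div_lt_iff_lt_mul (by positivity), ← pow_add]
  have : L - j + j = L := by omega
  rw [this]
  exact h

/-- For `z = c + 3 ^ j y` and `q.2 = c + 3 ^ j τ`: `(z - q.2) / 3 ^ j = y - τ`. -/
theorem Ph_eq_fS (L j c : ℕ) (hj : j ≤ L) (hc : c < 3 ^ j) (y : ℤ) :
    Ph α L j ((c : ℤ) + 3 ^ j * y) = wt α L j * fS α (Sjc L j c) (L - j) y := by
  unfold Ph Ex fS Sjc
  rw [Finset.sum_image (F3_inj L j c), Finset.mul_sum, Finset.sum_filter]
  apply Finset.sum_congr rfl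
  intro q _
  beta_reduce
  have h3 : (3 : ℤ) ^ j ≠ 0 := by positivity
  have hd : ((3 : ℤ) ^ j ∣ (c : ℤ) + 3 ^ j * y - q.2) ↔ q.2 % 3 ^ j = c := by
    rw [← F3_cond j c hc q]
    have e : (c : ℤ) + 3 ^ j * y - (q.2 : ℤ) = ((c : ℤ) - q.2) + 3 ^ j * y := by ring
    rw [e]
    exact (Int.dvd_add_left (Dvd.intro y rfl))
  by_cases h : q.1 = j ∧ q.2 % 3 ^ j = c
  · have h' : q.1 = j ∧ (3 : ℤ) ^ j ∣ (c : ℤ) + 3 ^ j * y - q.2 := ⟨h.1, hd.2 h.2⟩
    rw [if_pos h', if_pos h, h.1]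
    congr 2
    have h2 := Nat.div_add_mod q.2 (3 ^ j)
    rw [h.2] at h2
    have h4 : (q.2 : ℤ) = 3 ^ j * ((q.2 / 3 ^ j : ℕ) : ℤ) + (c : ℤ) := by
      exact_mod_cast h2.symm
    have e : (c : ℤ) + 3 ^ j * y - (q.2 : ℤ) = 3 ^ j * (y - ((q.2 / 3 ^ j : ℕ) : ℤ)) := by
      rw [h4]; ring
    rw [e, Int.mul_ediv_cancel_left _ h3]
  · have h' : ¬ (q.1 = j ∧ (3 : ℤ) ^ j ∣ (c : ℤ) + 3 ^ j * y - q.2) := fun hh =>
      h ⟨hh.1, hd.1 hh.2⟩
    rw [if_neg h', if_neg h, mul_zero]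

/-- The classes `c < 3 ^ j` partition the words with `q.1 = j`. -/
theorem sum_card_Sjc (L j : ℕ) :
    ∑ c ∈ range (3 ^ j), ((Sjc L j c).card : ℝ) =
      (((W L).filter (fun q => q.1 = j)).card : ℝ) := by
  have hmaps : ∀ q ∈ (W L).filter (fun q => q.1 = j), q.2 % 3 ^ j ∈ range (3 ^ j) := by
    intro q _
    rw [mem_range]
    exact Nat.mod_lt _ (by positivity)
  rw [Finset.card_eq_sum_card_fiberwise hmaps]
  push_cast
  apply Finset.sum_congr rfl
  intro c _
  rw [F3_card, Finset.filter_filter]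

include h0 h1

/-- Chain rule along `z = c + 3 ^ j y` (`hh_split (3 ^ j) (3 ^ (L - j))`); the marginal is
`∑ y, Ph α L j (c + 3 ^ j y) = wt * (Sjc).card = F α L j c` (`Ph_eq_fS`, `fS_sum`, `F_eq_card`). -/
theorem hh_Ph (L j : ℕ) (hj : j ≤ L) :
    hh (range (3 ^ L)) (fun z => Ph α L j (z : ℤ)) =
      hh (range (3 ^ j)) (fun c => F α L j (c : ℤ)) +
      ∑ c ∈ range (3 ^ j), wt α L j *
        hh (range (3 ^ (L - j))) (fun y => fS α (Sjc L j c) (L - j) (y : ℤ)) := by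
  have hL : (3 : ℕ) ^ L = 3 ^ j * 3 ^ (L - j) := by rw [← pow_add]; congr 1; omega
  rw [hL, hh_split (3 ^ j) (3 ^ (L - j)) (fun z => Ph α L j z)]
  have hcast : ((3 ^ j : ℕ) : ℤ) = 3 ^ j := by push_cast; rfl
  congr 1
  · apply hh_congr
    intro c hc
    rw [mem_range] at hc
    rw [F_eq_card L j c hc, ← fS_sum h0 h1 (Sjc L j c) (L - j), Finset.mul_sum]
    apply Finset.sum_congr rfl
    intro y _
    rw [hcast, Ph_eq_fS L j c hj hc]
  · apply Finset.sum_congr rfl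
    intro c hc
    rw [mem_range] at hc
    rw [← hh_mul]
    apply hh_congr
    intro y _
    rw [hcast, Ph_eq_fS L j c hj hc]

end

end Pool.Agent.Syr66
end

section

set_option autoImplicit false

namespace Pool.Agent.Syr66

open Finset

private theorem D3_shift (G : ℤ → ℝ) (hG : ∀ x t : ℤ, G (x + 3 * t) = G x) (t : ℤ) :
    ∑ b ∈ range 3, G (t + (b : ℤ)) = ∑ b ∈ range 3, G (b : ℤ) := by
  have h := sum_affine 3 (by norm_num) G (fun x s => by
    have := hG x s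
    push_cast
    exact this) 1 t isCoprime_one_left
  rw [← h]
  refine Finset.sum_congr rfl fun b _ => ?_
  congr 1
  ring

private theorem D3_hh_shift (G : ℤ → ℝ) (hG : ∀ x t : ℤ, G (x + 3 * t) = G x) (t : ℤ) :
    hh (range 3) (fun b => G (t + (b : ℤ))) = hh (range 3) (fun b => G (b : ℤ)) := by
  unfold hh
  rw [D3_shift G hG t]
  rw [D3_shift (fun y => Real.negMulLog (G y)) (fun x s => by rw [hG]) t]

private theorem D3_c1 (α : ℝ) (i : ℕ) (x : ℕ) :
    ∑ z ∈ range (3 ^ i), hh (range 3) (fun b => p α (i + 1) ((z : ℤ) - (x : ℤ) + 3 ^ i * (b : ℤ))) =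
      hp α i := by
  have h := sum_affine (3 ^ i) (by positivity)
    (fun y => hh (range 3) (fun b => p α (i + 1) (y + 3 ^ i * (b : ℤ)))) (fun y t => by
      have h1 := D3_hh_shift (fun c => p α (i + 1) (y + 3 ^ i * c)) (fun c s => by
        have e : y + 3 ^ i * (c + 3 * s) = (y + 3 ^ i * c) + 3 ^ (i + 1) * s := by ring
        change p α (i + 1) (y + 3 ^ i * (c + 3 * s)) = _
        rw [e, p_periodic]) t
      have h2 : (fun b : ℕ => p α (i + 1) (y + ((3 ^ i : ℕ) : ℤ) * t + 3 ^ i * (b : ℤ))) =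
          (fun b : ℕ => p α (i + 1) (y + 3 ^ i * (t + (b : ℤ)))) := by
        funext b
        congr 1
        push_cast
        ring
      change hh (range 3) (fun b : ℕ =>
        p α (i + 1) (y + ((3 ^ i : ℕ) : ℤ) * t + 3 ^ i * (b : ℤ))) = _
      rw [h2]
      exact h1) 1 (-(x : ℤ)) isCoprime_one_left
  have h3 : hp α i = ∑ z ∈ range (3 ^ i),
      hh (range 3) (fun b => p α (i + 1) ((z : ℤ) + 3 ^ i * (b : ℤ))) := rfl
  rw [h3, ← h]
  refine Finset.sum_congr rfl fun z _ => ?_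
  have h4 : (z : ℤ) - (x : ℤ) = 1 * (z : ℤ) + -(x : ℤ) := by ring
  rw [h4]

private theorem D3_c2 {α : ℝ} (h0 : 0 < α) (h1 : α < 1) (i : ℕ) (x : ℕ) :
    ∑ z ∈ range (3 ^ i), ∑ b ∈ range 3, p α (i + 1) ((z : ℤ) - (x : ℤ) + 3 ^ i * (b : ℤ)) = 1 := by
  have h2 : ∀ z ∈ range (3 ^ i),
      ∑ b ∈ range 3, p α (i + 1) ((z : ℤ) - (x : ℤ) + 3 ^ i * (b : ℤ)) =
        p α i (1 * (z : ℤ) + -(x : ℤ)) := by
    intro z _
    rw [p_marg h0 h1]
    congr 1
    ring
  rw [Finset.sum_congr rfl h2, sum_affine (3 ^ i) (by positivity) (p α i) (fun y t => by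
    push_cast
    exact p_periodic α i y t) 1 (-(x : ℤ)) isCoprime_one_left]
  exact p_sum h0 h1 i

/-- The one-digit gain. For each `z < 3 ^ i` rewrite the vector with `fS_decomp` (`hh_congr`) and use
`sum_hh_le` with `t = range (3 ^ i)`, then `hh_conv3` for each `x`, with
`u a = cn S (i + 1) (x + 3 ^ i * a)` and `w b = p α (i + 1) (z - x + 3 ^ i * b)`:
`hh(..) ≥ ∑ x, ((∑ u) * hh (range 3) w + 1/4 * aa (range 3) u * ((∑ w) * log 3 - hh (range 3) w))`.
Sum over `z < 3 ^ i` (exchange sums): `∑ z, hh (range 3) (b ↦ p α (i+1) (z - x + 3 ^ i b)) = hp α i` by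
`sum_affine` (`u = 1`, `a = -x`; the function has period `3 ^ i` since shifting by `3 ^ i` permutes the
three values cyclically, by `p_periodic`), `∑ z, ∑ b, w b = ∑ z, p α i (z - x) = 1` (`p_marg`,
`sum_affine`, `p_sum`), and `∑ x, ∑ a, u a = S.card` (`cn_marg`, `cn_sum`). -/
theorem gain_step {α : ℝ} (h0 : 0 < α) (h1 : α < 1) (S : Finset ℕ) (i : ℕ) :
    (S.card : ℝ) * hp α i + 1 / 4 *
      (∑ x ∈ range (3 ^ i), aa (range 3) (fun a => cn S (i + 1) (x + 3 ^ i * a))) *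
        (Real.log 3 - hp α i) ≤
    ∑ z ∈ range (3 ^ i), hh (range 3) (fun d => fS α S (i + 1) ((z : ℤ) + 3 ^ i * d)) := by
  set u : ℕ → ℕ → ℝ := fun x a => cn S (i + 1) (x + 3 ^ i * a) with hu
  set w : ℕ → ℕ → ℕ → ℝ := fun z x b => p α (i + 1) ((z : ℤ) - (x : ℤ) + 3 ^ i * (b : ℤ)) with hw
  have hu0 : ∀ x a, 0 ≤ u x a := fun x a => Nat.cast_nonneg _
  have hw0 : ∀ z x b, 0 ≤ w z x b := fun z x b => p_nonneg h0 h1 _ _
  have hz : ∀ z ∈ range (3 ^ i),
      ∑ x ∈ range (3 ^ i), ((∑ a ∈ range 3, u x a) * hh (range 3) (w z x) +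
        1 / 4 * aa (range 3) (u x) *
          ((∑ a ∈ range 3, w z x a) * Real.log 3 - hh (range 3) (w z x))) ≤
      hh (range 3) (fun d => fS α S (i + 1) ((z : ℤ) + 3 ^ i * d)) := by
    intro z _
    have e1 : hh (range 3) (fun d => fS α S (i + 1) ((z : ℤ) + 3 ^ i * d)) =
        hh (range 3) (fun d => ∑ x ∈ range (3 ^ i),
          ∑ a ∈ range 3, u x a * w z x ((d + 3 - a) % 3)) := by
      apply hh_congr
      intro d hd
      exact fS_decomp α S i z d (Finset.mem_range.1 hd)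
    rw [e1]
    refine le_trans (Finset.sum_le_sum fun x _ => ?_)
      (sum_hh_le (range 3) (range (3 ^ i))
        (fun x d => ∑ a ∈ range 3, u x a * w z x ((d + 3 - a) % 3)) ?_)
    · exact hh_conv3 (u x) (w z x) (fun a _ => hu0 x a) (fun a _ => hw0 z x a)
    · intro x _ d _
      exact Finset.sum_nonneg fun a _ => mul_nonneg (hu0 x a) (hw0 z x _)
  refine le_trans (le_of_eq ?_) (Finset.sum_le_sum hz)
  rw [Finset.sum_comm]
  have hx : ∀ x ∈ range (3 ^ i),
      ∑ z ∈ range (3 ^ i), ((∑ a ∈ range 3, u x a) * hh (range 3) (w z x) +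
        1 / 4 * aa (range 3) (u x) *
          ((∑ a ∈ range 3, w z x a) * Real.log 3 - hh (range 3) (w z x))) =
      (∑ a ∈ range 3, u x a) * hp α i + 1 / 4 * aa (range 3) (u x) * (Real.log 3 - hp α i) := by
    intro x _
    have c1 : ∑ z ∈ range (3 ^ i), hh (range 3) (w z x) = hp α i := D3_c1 α i x
    have c2 : ∑ z ∈ range (3 ^ i), ∑ a ∈ range 3, w z x a = 1 := D3_c2 h0 h1 i x
    rw [Finset.sum_add_distrib, ← Finset.mul_sum, ← Finset.mul_sum, Finset.sum_sub_distrib,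
      ← Finset.sum_mul, c1, c2, one_mul]
  rw [Finset.sum_congr rfl hx, Finset.sum_add_distrib, ← Finset.sum_mul, ← Finset.sum_mul]
  have c3 : ∑ x ∈ range (3 ^ i), ∑ a ∈ range 3, u x a = S.card := by
    rw [← cn_sum S i]
    refine Finset.sum_congr rfl fun x hx => ?_
    exact cn_marg S i x (Finset.mem_range.1 hx)
  rw [c3]
  congr 1
  rw [Finset.mul_sum]

end Pool.Agent.Syr66
end

section

set_option autoImplicit false

namespace Pool.Agent.Syr66

open Finset

private theorem d5_Hp {α : ℝ} (h0 : 0 < α) (h1 : α < 1) (m : ℕ) :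
    ∑ i ∈ range m, hp α i = Hp α m := by
  induction m with
  | zero => rw [Finset.sum_range_zero, Hp_zero h0 h1]
  | succ m ih => rw [Finset.sum_range_succ, ih, Hp_succ h0 h1]

private theorem d5_card (S : Finset ℕ) (i : ℕ) :
    ∑ x ∈ range (3 ^ i), ∑ a ∈ range 3, cn S (i + 1) (x + 3 ^ i * a) = S.card := by
  rw [← cn_sum S i]
  refine Finset.sum_congr rfl fun x hx => ?_
  exact cn_marg S i x (Finset.mem_range.1 hx)

/-- Entropy gain of an average of translates. Put `A i = ∑ x < 3 ^ i, aa (range 3) (u_x)` with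
`u_x a = cn S (i+1) (x + 3 ^ i a)`. By `fS_chain`, `gain_step` and `hp α i ≤ log 3 - δ`, `A i ≥ 0`, the
right side is `≥ ∑ i < m, (S.card * hp α i + δ / 4 * A i)`, and `∑ i < m, hp α i = Hp α m`
(`Hp_succ`, `Hp_zero`). By `card_log_card` and `hh_le_aa`,
`S.card * log S.card ≤ ∑ i < m, (2 exp (-κ) * S.card + 3 κ / 2 * A i)` (`∑ x, ∑ a, u_x a = S.card`). So
`∑ A i ≥ (2 / (3 κ)) * (S.card log S.card - 2 exp (-κ) m S.card)`. -/
theorem gain {α : ℝ} (h0 : 0 < α) (h1 : α < 1) (m : ℕ) (S : Finset ℕ) (hS : ∀ τ ∈ S, τ < 3 ^ m)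
    (κ δ : ℝ) (hκ : 1 ≤ κ) (hδ : 0 ≤ δ) (hi : ∀ i < m, hp α i ≤ Real.log 3 - δ) :
    (S.card : ℝ) * Hp α m + δ / (6 * κ) *
      ((S.card : ℝ) * Real.log S.card - 2 * Real.exp (-κ) * m * S.card) ≤
    hh (range (3 ^ m)) (fun y => fS α S m (y : ℤ)) := by
  set A : ℕ → ℝ := fun i => ∑ x ∈ range (3 ^ i),
    aa (range 3) (fun a => cn S (i + 1) (x + 3 ^ i * a)) with hA
  have hcn : ∀ i x, 0 ≤ cn S i x := fun i x => Nat.cast_nonneg _
  have hA0 : ∀ i, 0 ≤ A i := fun i =>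
    Finset.sum_nonneg fun x _ => aa_nonneg _ fun a _ => hcn _ _
  have e1 : ∑ i ∈ range m, ((S.card : ℝ) * hp α i + δ / 4 * A i) ≤
      hh (range (3 ^ m)) (fun y => fS α S m (y : ℤ)) := by
    rw [fS_chain h0 h1 S m]
    refine Finset.sum_le_sum fun i hm => ?_
    refine le_trans ?_ (gain_step h0 h1 S i)
    have h2 := hi i (Finset.mem_range.1 hm)
    have h3 : A i * δ ≤ A i * (Real.log 3 - hp α i) :=
      mul_le_mul_of_nonneg_left (by linarith) (hA0 i)
    change (S.card : ℝ) * hp α i + δ / 4 * A i ≤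
      (S.card : ℝ) * hp α i + 1 / 4 * A i * (Real.log 3 - hp α i)
    nlinarith
  have e2 : (S.card : ℝ) * Real.log S.card ≤
      ∑ i ∈ range m, (2 * Real.exp (-κ) * S.card + 3 * κ / 2 * A i) := by
    rw [card_log_card S m hS]
    refine Finset.sum_le_sum fun i _ => ?_
    have h4 : ∑ x ∈ range (3 ^ i), hh (range 3) (fun a => cn S (i + 1) (x + 3 ^ i * a)) ≤
        ∑ x ∈ range (3 ^ i), (2 * Real.exp (-κ) * (∑ a ∈ range 3, cn S (i + 1) (x + 3 ^ i * a)) +
          3 * κ / 2 * aa (range 3) (fun a => cn S (i + 1) (x + 3 ^ i * a))) :=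
      Finset.sum_le_sum fun x _ => hh_le_aa _ (fun a _ => hcn _ _) κ hκ
    rw [Finset.sum_add_distrib, ← Finset.mul_sum, ← Finset.mul_sum, d5_card] at h4
    exact h4
  rw [Finset.sum_add_distrib, ← Finset.mul_sum, ← Finset.mul_sum, d5_Hp h0 h1] at e1
  rw [Finset.sum_add_distrib, Finset.sum_const, card_range, nsmul_eq_mul, ← Finset.mul_sum] at e2
  refine le_trans ?_ e1
  have hκ0 : 0 < κ := by linarith
  have h5 : (S.card : ℝ) * Real.log S.card - 2 * Real.exp (-κ) * m * S.card ≤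
      3 * κ / 2 * ∑ i ∈ range m, A i := by
    linarith
  have h6 : δ / (6 * κ) * ((S.card : ℝ) * Real.log S.card - 2 * Real.exp (-κ) * m * S.card) ≤
      δ / (6 * κ) * (3 * κ / 2 * ∑ i ∈ range m, A i) :=
    mul_le_mul_of_nonneg_left h5 (by positivity)
  have h7 : δ / (6 * κ) * (3 * κ / 2 * ∑ i ∈ range m, A i) = δ / 4 * ∑ i ∈ range m, A i := by
    field_simp
    ring
  rw [h7] at h6
  linarith

end Pool.Agent.Syr66
end

section

set_option autoImplicit false

namespace Pool.Agent.Syr66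

open Finset

/-- The contribution of the words with `j` odd steps. Let `w = wt α L j`, `n c = (Sjc L j c).card`,
`N = ∑ c, n c`, so `M α L j = w * N` (`M_eq`, `sum_card_Sjc`). From `hh_Ph` and `gain` (applied to
`S = Sjc L j c`, `m = L - j`):
`hh (Ph j) ≥ hh (F j) + w ∑ c, (n c * Hp α (L-j) + δ/(6κ) (n c log (n c) - 2 exp(-κ) (L-j) n c))`.
And `∑ c, n c * log (n c) ≥ N * log N - N * (j * log 3)`: this is `hh_le` for the weight `n` on
`range (3 ^ j)` (`hh = N log N - ∑ n c log n c`). Finally `w * (N * log N) = M * log (M / w)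
= M * log M - M * log w`. (If `N = 0` everything vanishes.) -/
theorem hh_Ph_ge {α : ℝ} (h0 : 0 < α) (h1 : α < 1) (L j : ℕ) (hj : j ≤ L)
    (κ δ : ℝ) (hκ : 1 ≤ κ) (hδ : 0 ≤ δ) (hi : ∀ i < L, hp α i ≤ Real.log 3 - δ) :
    hh (range (3 ^ j)) (fun c => F α L j (c : ℤ)) + M α L j * Hp α (L - j) +
      δ / (6 * κ) * (-Real.negMulLog (M α L j) - M α L j * Real.log (wt α L j) -
        M α L j * (j * Real.log 3) - 2 * Real.exp (-κ) * ((L - j : ℕ) : ℝ) * M α L j) ≤
    hh (range (3 ^ L)) (fun z => Ph α L j (z : ℤ)) := by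
  rw [hh_Ph h0 h1 L j hj]
  have hκ0 : 0 < κ := by linarith
  have hw : 0 ≤ wt α L j := wt_nonneg h0.le h1.le L j
  set w : ℝ := wt α L j with hwdef
  set n : ℕ → ℝ := fun c => ((Sjc L j c).card : ℝ) with hn
  set N : ℝ := ∑ c ∈ range (3 ^ j), n c with hN
  have hn0 : ∀ c, 0 ≤ n c := fun c => Nat.cast_nonneg _
  have hM : M α L j = w * N := by
    rw [M_eq, hN, hn, hwdef]
    simp only []
    rw [sum_card_Sjc]
  have hgain : ∀ c ∈ range (3 ^ j),
      w * (n c * Hp α (L - j) + δ / (6 * κ) *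
        (n c * Real.log (n c) - 2 * Real.exp (-κ) * ((L - j : ℕ) : ℝ) * n c)) ≤
      w * hh (range (3 ^ (L - j))) (fun y => fS α (Sjc L j c) (L - j) (y : ℤ)) := by
    intro c _
    apply mul_le_mul_of_nonneg_left _ hw
    exact gain h0 h1 (L - j) (Sjc L j c) (Sjc_lt L j c hj) κ δ hκ hδ
      (fun i hi' => hi i (by omega))
  have hsum := Finset.sum_le_sum hgain
  have e1 : ∑ c ∈ range (3 ^ j), w * (n c * Hp α (L - j) + δ / (6 * κ) *
        (n c * Real.log (n c) - 2 * Real.exp (-κ) * ((L - j : ℕ) : ℝ) * n c)) =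
      w * (N * Hp α (L - j) + δ / (6 * κ) * ((∑ c ∈ range (3 ^ j), n c * Real.log (n c)) -
        2 * Real.exp (-κ) * ((L - j : ℕ) : ℝ) * N)) := by
    rw [← Finset.mul_sum, Finset.sum_add_distrib, ← Finset.sum_mul, ← Finset.mul_sum,
      Finset.sum_sub_distrib, ← Finset.mul_sum]
  rw [e1] at hsum
  have hle := hh_le (range (3 ^ j)) n (fun c _ => hn0 c)
  rw [card_range] at hle
  have e2 : Real.log ((3 ^ j : ℕ) : ℝ) = j * Real.log 3 := by
    push_cast
    rw [Real.log_pow]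
  rw [e2, ← hN] at hle
  unfold hh at hle
  rw [← hN] at hle
  have e3 : ∑ c ∈ range (3 ^ j), Real.negMulLog (n c) =
      - ∑ c ∈ range (3 ^ j), n c * Real.log (n c) := by
    rw [← Finset.sum_neg_distrib]
    refine Finset.sum_congr rfl fun c _ => ?_
    unfold Real.negMulLog
    ring
  rw [e3] at hle
  have e4 : -Real.negMulLog (M α L j) - M α L j * Real.log w = w * -Real.negMulLog N := by
    rw [hM, Real.negMulLog_mul]
    unfold Real.negMulLog
    ring
  rw [e4, hM]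
  have hd : 0 ≤ δ / (6 * κ) := by positivity
  have h5 : w * (-Real.negMulLog N - N * (j * Real.log 3)) ≤
      w * ∑ c ∈ range (3 ^ j), n c * Real.log (n c) :=
    mul_le_mul_of_nonneg_left (by linarith) hw
  have h6 : δ / (6 * κ) * (w * -Real.negMulLog N - w * N * (j * Real.log 3) -
      2 * Real.exp (-κ) * ((L - j : ℕ) : ℝ) * (w * N)) ≤
      δ / (6 * κ) * (w * (∑ c ∈ range (3 ^ j), n c * Real.log (n c)) -
      2 * Real.exp (-κ) * ((L - j : ℕ) : ℝ) * (w * N)) :=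
    mul_le_mul_of_nonneg_left (by linarith) hd
  have e5 : w * (N * Hp α (L - j) + δ / (6 * κ) * ((∑ c ∈ range (3 ^ j), n c * Real.log (n c)) -
        2 * Real.exp (-κ) * ((L - j : ℕ) : ℝ) * N)) =
      w * N * Hp α (L - j) + δ / (6 * κ) * (w * (∑ c ∈ range (3 ^ j), n c * Real.log (n c)) -
      2 * Real.exp (-κ) * ((L - j : ℕ) : ℝ) * (w * N)) := by ring
  rw [e5] at hsum
  linarith

end Pool.Agent.Syr66
end
end
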