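import Pool.Agent.Lib.MP_529d88_nt.P1
import Pool.Agent.Lib.MP_529d88_nt.A1

set_option autoImplicit false

namespace Pool.Agent.Syr66

open Finset

/-- The substitution `y = (z - r) / 3 ^ j`. By `sum_affine` (with `u = 1`, `N = 3 ^ m`; the summand is
periodic mod `3 ^ m` because `g` is periodic mod `3 ^ (m - j)`) replace `z` by `z + r`; then split
`z = c + 3 ^ j * y` (`sum_split`, `3 ^ m = 3 ^ j * 3 ^ (m - j)`): only `c = 0` contributes. -/
theorem sum_branch (m j : ℕ) (hj : j ≤ m) (g : ℤ → ℝ)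
    (hg : ∀ x t : ℤ, g (x + 3 ^ (m - j) * t) = g x) (r : ℤ) :
    ∑ z ∈ range (3 ^ m), (if (3 : ℤ) ^ j ∣ (z : ℤ) - r then g (((z : ℤ) - r) / 3 ^ j) else 0) =
      ∑ y ∈ range (3 ^ (m - j)), g (y : ℤ) := by
  set f : ℤ → ℝ := fun z => if (3 : ℤ) ^ j ∣ z - r then g ((z - r) / 3 ^ j) else 0 with hf
  have h3 : (3 : ℤ) ^ j ≠ 0 := by positivity
  have hmj : (3 : ℤ) ^ m = 3 ^ j * 3 ^ (m - j) := by rw [← pow_add]; congr 1; omega
  have hmjn : (3 : ℕ) ^ m = 3 ^ j * 3 ^ (m - j) := by rw [← pow_add]; congr 1; omega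
  have hper : ∀ x t : ℤ, f (x + ((3 ^ m : ℕ) : ℤ) * t) = f x := by
    intro x t
    simp only [hf]
    push_cast
    have e : x + 3 ^ m * t - r = (x - r) + 3 ^ j * (3 ^ (m - j) * t) := by rw [hmj]; ring
    rw [e]
    have hd : (3 : ℤ) ^ j ∣ (x - r) + 3 ^ j * (3 ^ (m - j) * t) ↔ (3 : ℤ) ^ j ∣ x - r :=
      (Int.dvd_add_left (Dvd.intro _ rfl))
    by_cases h : (3 : ℤ) ^ j ∣ x - r
    · rw [if_pos (hd.2 h), if_pos h, Int.add_mul_ediv_left _ _ h3, hg]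
    · rw [if_neg (fun h' => h (hd.1 h')), if_neg h]
  have h1 := sum_affine (3 ^ m) (by positivity) f hper 1 r isCoprime_one_left
  have h2 : ∑ z ∈ range (3 ^ m), (if (3 : ℤ) ^ j ∣ (z : ℤ) - r then g (((z : ℤ) - r) / 3 ^ j) else 0)
      = ∑ z ∈ range (3 ^ m), f (z : ℤ) := rfl
  rw [h2, ← h1]
  have h3' : ∀ z : ℤ, f (1 * z + r) = if (3 : ℤ) ^ j ∣ z then g (z / 3 ^ j) else 0 := by
    intro z
    simp only [hf, one_mul, add_sub_cancel_right]
  simp_rw [h3']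
  have h4 := sum_split (3 ^ j) (3 ^ (m - j))
    (fun z : ℤ => if (3 : ℤ) ^ j ∣ z then g (z / 3 ^ j) else 0)
  rw [hmjn, h4, sum_eq_single 0]
  · refine sum_congr rfl fun y _ => ?_
    push_cast
    rw [zero_add, if_pos (Dvd.intro _ rfl), Int.mul_ediv_cancel_left _ h3]
  · intro c hc hc0
    refine sum_eq_zero fun y _ => ?_
    rw [if_neg]
    intro h
    push_cast at h
    have h5 : (3 : ℤ) ^ j ∣ (c : ℤ) := (Int.dvd_add_left (Dvd.intro _ rfl)).1 h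
    have h6 : (3 : ℕ) ^ j ∣ c := by exact_mod_cast h5
    exact absurd (Nat.le_of_dvd (Nat.pos_of_ne_zero hc0) h6) (not_le.2 (mem_range.1 hc))
  · intro h
    exact absurd (mem_range.2 (by positivity)) h

end Pool.Agent.Syr66
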