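import Pool.Agent.Lib.MP_529d88_nt.C3
import Pool.Agent.Lib.MP_529d88_nt.P3
import Pool.Agent.Lib.MP_529d88_nt.A4
import Pool.Agent.Lib.MP_529d88_nt.A1
import Pool.Agent.Lib.MP_529d88_nt.T1
import Pool.Agent.Lib.MP_529d88_nt.P1

section

set_option autoImplicit false

namespace Pool.Agent.Syr66

open Finset

/-- Affine substitution in `hh` over the residues mod 3. -/
private theorem hh_affine3 (f : ℤ → ℝ) (hf : ∀ x t : ℤ, f (x + 3 * t) = f x) (u a : ℤ)
    (hu : IsCoprime u 3) :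
    hh (range 3) (fun d => f (u * (d : ℤ) + a)) = hh (range 3) (fun d => f (d : ℤ)) := by
  have h1 := sum_affine 3 (by norm_num) f (by simpa using hf) u a (by simpa using hu)
  have h2 := sum_affine 3 (by norm_num) (fun z => Real.negMulLog (f z))
    (by intro x t; simp only [Nat.cast_ofNat, hf]) u a (by simpa using hu)
  unfold hh
  rw [h2, h1]

private noncomputable def V4 (α : ℝ) (m : ℕ) (y : ℤ) : ℝ :=
  hh (range 3) (fun d => p α (m + 1) (y + 3 ^ m * d))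

private theorem per3 (α : ℝ) (m : ℕ) (y x t : ℤ) :
    p α (m + 1) (y + 3 ^ m * (x + 3 * t)) = p α (m + 1) (y + 3 ^ m * x) := by
  have e : y + 3 ^ m * (x + 3 * t) = (y + 3 ^ m * x) + 3 ^ (m + 1) * t := by ring
  rw [e, p_periodic]

private theorem V4_periodic (α : ℝ) (m : ℕ) (y t : ℤ) : V4 α m (y + 3 ^ m * t) = V4 α m y := by
  have h := hh_affine3 (fun z => p α (m + 1) (y + 3 ^ m * z)) (per3 α m y) 1 t isCoprime_one_left
  unfold V4
  rw [← h]
  congr 1
  funext d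
  congr 1
  ring

private theorem V4_two (α : ℝ) (m : ℕ) (y : ℤ) :
    hh (range 3) (fun d : ℕ => p α (m + 1) (y + 3 ^ m * (2 * (d : ℤ)))) = V4 α m y := by
  have h := hh_affine3 (fun z => p α (m + 1) (y + 3 ^ m * z)) (per3 α m y) 2 0
    (by norm_num)
  simp only [add_zero] at h
  exact h

private theorem V4_rec {α : ℝ} (h0 : 0 < α) (h1 : α < 1) (m : ℕ) (x : ℤ) :
    (1 - α) * V4 α (m + 1) (2 * x) +
      α * (if (3 : ℤ) ∣ 2 * x - 1 then V4 α m ((2 * x - 1) / 3) else 0) ≤ V4 α (m + 1) x := by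
  classical
  set f : Bool → ℕ → ℝ := fun b d => if b then (1 - α) * p α (m + 2) (2 * x + 3 ^ (m + 1) * (2 * (d : ℤ)))
    else α * (if (3 : ℤ) ∣ 2 * x - 1 then p α (m + 1) ((2 * x - 1) / 3 + 3 ^ m * (2 * (d : ℤ))) else 0)
    with hf
  have hs := sum_hh_le (range 3) (univ : Finset Bool) f (by
    intro b _ d _
    cases b
    · simp only [hf, Bool.false_eq_true, if_false]
      refine mul_nonneg h0.le ?_
      split_ifs
      · exact p_nonneg h0 h1 _ _
      · exact le_rfl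
    · simp only [hf, if_true]
      exact mul_nonneg (by linarith) (p_nonneg h0 h1 _ _))
  rw [Fintype.sum_bool] at hs
  have e1 : hh (range 3) (f true) = (1 - α) * V4 α (m + 1) (2 * x) := by
    rw [← V4_two, ← hh_mul]
    congr 1
  have e2 : hh (range 3) (f false) =
      α * (if (3 : ℤ) ∣ 2 * x - 1 then V4 α m ((2 * x - 1) / 3) else 0) := by
    by_cases h : (3 : ℤ) ∣ 2 * x - 1
    · rw [if_pos h, ← V4_two, ← hh_mul]
      congr 1
      funext d
      simp only [hf, Bool.false_eq_true, if_false, if_pos h]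
    · rw [if_neg h, mul_zero]
      have : f false = fun _ => 0 := by
        funext d
        simp only [hf, Bool.false_eq_true, if_false, if_neg h, mul_zero]
      rw [this]
      simp [hh]
  have e3 : hh (range 3) (fun d => ∑ b : Bool, f b d) = V4 α (m + 1) x := by
    unfold V4
    congr 1
    funext d
    rw [Fintype.sum_bool, p_rec h0 h1 (m + 1) (x + 3 ^ (m + 1) * (d : ℤ))]
    simp only [hf, Bool.false_eq_true, if_false, if_true]
    have a1 : 2 * (x + 3 ^ (m + 1) * (d : ℤ)) = 2 * x + 3 ^ (m + 1) * (2 * (d : ℤ)) := by ring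
    have a2 : 2 * x + 3 ^ (m + 1) * (2 * (d : ℤ)) - 1 = (2 * x - 1) + 3 * (3 ^ m * (2 * (d : ℤ))) := by
      ring
    rw [a1, a2]
    have hd : ((3 : ℤ) ∣ 2 * x - 1 + 3 * (3 ^ m * (2 * (d : ℤ)))) ↔ (3 : ℤ) ∣ 2 * x - 1 :=
      Int.dvd_add_left (Dvd.intro _ rfl)
    congr 2
    by_cases h : (3 : ℤ) ∣ 2 * x - 1
    · rw [if_pos h, if_pos (hd.2 h), Int.add_mul_ediv_left _ _ (by norm_num : (3 : ℤ) ≠ 0)]
    · rw [if_neg h, if_neg (fun h' => h (hd.1 h'))]
  rw [e1, e2, e3] at hs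
  exact hs

/-- The digit entropies are nondecreasing. Let `V m x d = p α (m+1) (x + 3 ^ m * d)`, so
`hp α m = ∑ x < 3 ^ m, hh (range 3) (V m x)`. We show
`(1 - α) * hp α (m+1) + α * hp α m ≤ hp α (m+1)`.
By `p_rec`, `V (m+1) x d = (1 - α) * p α (m+2) (2 x + 3 ^ (m+1) * (2 d)) + α * (if 3 ∣ 2 x - 1 then
p α (m+1) ((2 x - 1) / 3 + 3 ^ m * (2 d)) else 0)` (divisibility does not depend on `d`, because
`2 * 3 ^ (m+1) * d` is divisible by `3`). By `sum_hh_le` (two summands) and `hh_mul`,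
`hh (range 3) (V (m+1) x) ≥ (1 - α) * hh (range 3) (V (m+1) (2 x)) + α * (if 3 ∣ 2 x - 1 then
hh (range 3) (V m ((2 x - 1) / 3)) else 0)`, since replacing `d` by `2 d` only permutes the three
values (periodicity mod `3 ^ (m+2)`, resp. `3 ^ (m+1)`). Sum over `x < 3 ^ (m+1)`: the first sum is
`hp α (m+1)` by `sum_affine` (`u = 2`; the function `y ↦ hh (range 3) (V (m+1) y)` has period
`3 ^ (m+1)`: shifting `y` by `3 ^ (m+1)` shifts `d` by one cyclically); the second is `hp α m`: first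
write `3 ∣ 2 x - 1` as a condition on `z = 2 x`, use `sum_affine` to replace `2 x` by `z`, then
`sum_branch (m+1) 1` with `r = 1` and `g y = hh (range 3) (V m y)` of period `3 ^ m`. -/
theorem hp_mono {α : ℝ} (h0 : 0 < α) (h1 : α < 1) (m : ℕ) : hp α m ≤ hp α (m + 1) := by
  have hm : hp α m = ∑ y ∈ range (3 ^ m), V4 α m (y : ℤ) := rfl
  have hm1 : hp α (m + 1) = ∑ y ∈ range (3 ^ (m + 1)), V4 α (m + 1) (y : ℤ) := rfl
  have hcop : IsCoprime (2 : ℤ) ((3 ^ (m + 1) : ℕ) : ℤ) := by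
    push_cast
    exact IsCoprime.pow_right (by norm_num)
  have hsum : ∑ x ∈ range (3 ^ (m + 1)), ((1 - α) * V4 α (m + 1) (2 * (x : ℤ)) +
      α * (if (3 : ℤ) ∣ 2 * (x : ℤ) - 1 then V4 α m ((2 * (x : ℤ) - 1) / 3) else 0)) ≤
      hp α (m + 1) := by
    rw [hm1]
    exact Finset.sum_le_sum fun x _ => V4_rec h0 h1 m x
  rw [Finset.sum_add_distrib, ← Finset.mul_sum, ← Finset.mul_sum] at hsum
  have s1 : ∑ x ∈ range (3 ^ (m + 1)), V4 α (m + 1) (2 * (x : ℤ)) = hp α (m + 1) := by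
    rw [hm1]
    have h := sum_affine (3 ^ (m + 1)) (by positivity) (V4 α (m + 1))
      (by intro x t; push_cast; exact V4_periodic α (m + 1) x t) 2 0 hcop
    rw [← h]
    simp
  have s2 : ∑ x ∈ range (3 ^ (m + 1)),
      (if (3 : ℤ) ∣ 2 * (x : ℤ) - 1 then V4 α m ((2 * (x : ℤ) - 1) / 3) else 0) = hp α m := by
    have hb := sum_branch (m + 1) 1 (by omega) (V4 α m)
      (by intro x t; simpa using V4_periodic α m x t) 1
    have hb' : ∑ z ∈ range (3 ^ (m + 1)),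
        (if (3 : ℤ) ∣ (z : ℤ) - 1 then V4 α m (((z : ℤ) - 1) / 3) else 0) = hp α m := by
      rw [hm]
      simpa using hb
    rw [← hb']
    have h := sum_affine (3 ^ (m + 1)) (by positivity)
      (fun z : ℤ => if (3 : ℤ) ∣ z - 1 then V4 α m ((z - 1) / 3) else 0)
      (by
        intro x t
        push_cast
        have e : x + 3 ^ (m + 1) * t - 1 = (x - 1) + 3 * (3 ^ m * t) := by ring
        have hd : ((3 : ℤ) ∣ x - 1 + 3 * (3 ^ m * t)) ↔ (3 : ℤ) ∣ x - 1 :=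
          Int.dvd_add_left (Dvd.intro _ rfl)
        rw [e]
        by_cases h : (3 : ℤ) ∣ x - 1
        · rw [if_pos h, if_pos (hd.2 h), Int.add_mul_ediv_left _ _ (by norm_num : (3 : ℤ) ≠ 0),
            V4_periodic]
        · rw [if_neg h, if_neg (fun h' => h (hd.1 h'))]) 2 0 hcop
    simpa using h
  rw [s1, s2] at hsum
  nlinarith

end Pool.Agent.Syr66
end

section

section

set_option autoImplicit false

namespace Pool.Agent.Syr66

open Finset

/-- Entropy of a mixture is at most the mean entropy plus the entropy of the masses.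
Proof: for each `i`, `hh_nonneg t (fun j => f j i)` gives
`negMulLog (∑ j, f j i) ≤ ∑ j, negMulLog (f j i)`; sum over `i ∈ s`, exchange the sums and unfold
`hh` (the grand totals `∑ i, ∑ j` and `∑ j, ∑ i` agree by `Finset.sum_comm`). -/
theorem hh_mix_le {ι κ : Type*} (s : Finset ι) (t : Finset κ) (f : κ → ι → ℝ)
    (hf : ∀ j ∈ t, ∀ i ∈ s, 0 ≤ f j i) :
    hh s (fun i => ∑ j ∈ t, f j i) ≤
      ∑ j ∈ t, hh s (f j) + hh t (fun j => ∑ i ∈ s, f j i) := by
  have h1 : ∀ i ∈ s, Real.negMulLog (∑ j ∈ t, f j i) ≤ ∑ j ∈ t, Real.negMulLog (f j i) := by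
    intro i hi
    have h := hh_nonneg t (fun j => f j i) (fun j hj => hf j hj i hi)
    unfold hh at h
    linarith
  have h2 : ∑ i ∈ s, Real.negMulLog (∑ j ∈ t, f j i) ≤
      ∑ j ∈ t, ∑ i ∈ s, Real.negMulLog (f j i) := by
    rw [Finset.sum_comm]
    exact Finset.sum_le_sum h1
  unfold hh
  rw [Finset.sum_sub_distrib, Finset.sum_comm (s := s) (t := t) (f := fun i j => f j i)]
  linarith

end Pool.Agent.Syr66
end

section

set_option autoImplicit false

namespace Pool.Agent.Syr66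

open Finset

section
variable {α : ℝ} (h0 : 0 < α) (h1 : α < 1)
include h0 h1

theorem Ph_nonneg (L j : ℕ) (z : ℤ) : 0 ≤ Ph α L j z := by
  unfold Ph
  apply Ex_nonneg h0.le h1.le
  intro q _
  show 0 ≤ (if q.1 = j ∧ (3 : ℤ) ^ j ∣ z - q.2 then p α (L - j) ((z - q.2) / 3 ^ j) else 0)
  split_ifs
  · exact p_nonneg h0 h1 _ _
  · exact le_rfl

theorem Ph_periodic (L j : ℕ) (hj : j ≤ L) (z t : ℤ) : Ph α L j (z + 3 ^ L * t) = Ph α L j z := by
  unfold Ph
  apply Ex_congr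
  intro q _
  have h3 : (3 : ℤ) ^ j ≠ 0 := by positivity
  have hL : (3 : ℤ) ^ L = 3 ^ j * 3 ^ (L - j) := by
    rw [← pow_add]
    congr 1
    omega
  have e : z + 3 ^ L * t - (q.2 : ℤ) = (z - q.2) + 3 ^ j * (3 ^ (L - j) * t) := by
    rw [hL]
    ring
  have hd : ((3 : ℤ) ^ j ∣ z + 3 ^ L * t - q.2) ↔ ((3 : ℤ) ^ j ∣ z - q.2) := by
    rw [e]
    exact (Int.dvd_add_left (Dvd.intro _ rfl))
  by_cases h : q.1 = j ∧ (3 : ℤ) ^ j ∣ z - q.2
  · rw [if_pos h, if_pos ⟨h.1, hd.2 h.2⟩, e, Int.add_mul_ediv_left _ _ h3, p_periodic]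
  · rw [if_neg h, if_neg (fun hh => h ⟨hh.1, hd.1 hh.2⟩)]

/-- `p_words` with `m = L`: all words have `q.1 ≤ L` (`W_fst_le`), so `min q.1 L = q.1`; sort by
`j = q.1` (`Ex_sum`). -/
theorem p_eq_sum_Ph (L : ℕ) (x : ℤ) :
    p α L x = ∑ j ∈ range (L + 1), Ph α L j (2 ^ L * x) := by
  rw [p_words h0 h1 L L x]
  unfold Ph
  rw [← Ex_sum]
  apply Ex_congr
  intro q hq
  have hle := W_fst_le hq
  show Kf α L q.1 (2 ^ L * x - q.2) = ∑ j ∈ range (L + 1),
    (if q.1 = j ∧ (3 : ℤ) ^ j ∣ 2 ^ L * x - q.2 then p α (L - j) ((2 ^ L * x - q.2) / 3 ^ j) else 0)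
  rw [Finset.sum_eq_single q.1]
  · unfold Kf
    rw [min_eq_left hle]
    simp only [true_and]
  · intro b _ hb
    rw [if_neg (fun h => hb h.1.symm)]
  · intro h
    exact absurd (Finset.mem_range.2 (Nat.lt_succ_of_le hle)) h

/-- `Hp_eq_hh`, the substitution `z = 2 ^ L * x` (`sum_affine` with `u = 2 ^ L`, for
`negMulLog (∑ j, Ph α L j z)` and for the total), then `sum_hh_le`. -/
theorem sum_hh_Ph_le (L : ℕ) :
    ∑ j ∈ range (L + 1), hh (range (3 ^ L)) (fun z => Ph α L j (z : ℤ)) ≤ Hp α L := by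
  set G : ℤ → ℝ := fun z => ∑ j ∈ range (L + 1), Ph α L j z with hG
  have hGper : ∀ x t : ℤ, G (x + ((3 ^ L : ℕ) : ℤ) * t) = G x := by
    intro x t
    simp only [hG]
    refine Finset.sum_congr rfl fun j hj => ?_
    have hj' : j ≤ L := Nat.lt_succ_iff.1 (Finset.mem_range.1 hj)
    have := Ph_periodic h0 h1 L j hj' x t
    push_cast
    exact this
  have hcop : IsCoprime ((2 : ℤ) ^ L) ((3 ^ L : ℕ) : ℤ) := by
    push_cast
    exact (IsCoprime.pow (by norm_num))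
  have hpos : 0 < 3 ^ L := by positivity
  have hH : Hp α L = hh (range (3 ^ L)) (fun z => G (z : ℤ)) := by
    rw [Hp_eq_hh h0 h1]
    unfold hh
    have e1 := sum_affine (3 ^ L) hpos G hGper (2 ^ L) 0 hcop
    have e2 := sum_affine (3 ^ L) hpos (fun z => Real.negMulLog (G z))
      (fun x t => by simp only [hGper]) (2 ^ L) 0 hcop
    simp only [add_zero] at e1 e2
    have e3 : ∀ x : ℕ, p α L (x : ℤ) = G (2 ^ L * (x : ℤ)) := fun x => p_eq_sum_Ph h0 h1 L x
    simp only [e3]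
    rw [e1, e2]
  rw [hH]
  exact sum_hh_le (range (3 ^ L)) (range (L + 1)) (fun j z => Ph α L j (z : ℤ))
    (fun j _ i _ => Ph_nonneg h0 h1 L j i)

end

end Pool.Agent.Syr66
end

section

set_option autoImplicit false

namespace Pool.Agent.Syr66

open Finset

/-- The part of the law mod `3 ^ j₀` carried by the words with `j` odd steps. -/
noncomputable def Pt (α : ℝ) (L j₀ j : ℕ) (z : ℤ) : ℝ :=
  Ex α L (fun q => if q.1 = j then Kf α j₀ j (z - q.2) else 0)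

private theorem F6_Kf_periodic (α : ℝ) (m j : ℕ) (z t : ℤ) :
    Kf α m j (z + 3 ^ m * t) = Kf α m j z := by
  unfold Kf
  have h3 : (3 : ℤ) ^ (min j m) ≠ 0 := by positivity
  have hmm : (3 : ℤ) ^ m = 3 ^ (min j m) * 3 ^ (m - min j m) := by
    rw [← pow_add]; congr 1; omega
  have e : z + 3 ^ m * t = z + 3 ^ (min j m) * (3 ^ (m - min j m) * t) := by
    rw [← mul_assoc, ← hmm]
  have hd : (3 : ℤ) ^ (min j m) ∣ z + 3 ^ m * t ↔ (3 : ℤ) ^ (min j m) ∣ z := by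
    rw [e]
    exact (Int.dvd_add_left (Dvd.intro _ rfl))
  by_cases h : (3 : ℤ) ^ (min j m) ∣ z
  · rw [if_pos h, if_pos (hd.2 h), e, Int.add_mul_ediv_left _ _ h3]
    by_cases hj : j ≤ m
    · rw [min_eq_left hj]
      exact p_periodic α (m - j) _ _
    · have h0 : m - j = 0 := by omega
      rw [h0]
      simp [p]
  · rw [if_neg h, if_neg (fun h' => h (hd.1 h'))]

private theorem F6_count (m : ℕ) (r : ℤ) :
    ∑ z ∈ range (3 ^ m), (if (3 : ℤ) ^ m ∣ (z : ℤ) - r then (1 : ℝ) else 0) = 1 := by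
  have h := sum_branch m m le_rfl (fun _ => (1 : ℝ)) (fun _ _ => rfl) r
  rw [h]
  simp

section
variable {α : ℝ} (h0 : 0 < α) (h1 : α < 1)
include h0 h1

private theorem F6_Kf_nonneg (m j : ℕ) (z : ℤ) : 0 ≤ Kf α m j z := by
  unfold Kf
  split_ifs
  · exact p_nonneg h0 h1 _ _
  · exact le_rfl

theorem Pt_nonneg (L j₀ j : ℕ) (z : ℤ) : 0 ≤ Pt α L j₀ j z := by
  unfold Pt
  apply Ex_nonneg h0.le h1.le
  intro q _
  split_ifs
  · exact F6_Kf_nonneg h0 h1 _ _ _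
  · exact le_rfl

private theorem F6_Kf_sum (j₀ j : ℕ) (r : ℤ) :
    ∑ z ∈ range (3 ^ j₀), Kf α j₀ j ((z : ℤ) - r) = 1 := by
  unfold Kf
  by_cases hj : j ≤ j₀
  · rw [min_eq_left hj]
    rw [sum_branch j₀ j hj (p α (j₀ - j)) (fun x t => p_periodic α (j₀ - j) x t) r]
    exact p_sum h0 h1 (j₀ - j)
  · have h : j₀ - j = 0 := by omega
    rw [min_eq_right (by omega), h]
    simp only [p]
    exact F6_count j₀ r

/-- Total mass: `∑ z < 3 ^ j₀, Kf α j₀ j (z - r) = 1`: for `j ≤ j₀` by `sum_branch` and `p_sum`; for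
`j > j₀` exactly one `z` satisfies `3 ^ j₀ ∣ z - r`. -/
theorem Pt_sum (L j₀ j : ℕ) : ∑ z ∈ range (3 ^ j₀), Pt α L j₀ j (z : ℤ) = M α L j := by
  unfold Pt M
  rw [← Ex_sum]
  apply Ex_congr
  intro q _
  by_cases hq : q.1 = j
  · simp only [hq, if_true]
    exact F6_Kf_sum h0 h1 j₀ j q.2
  · simp only [hq, if_false]
    simp

omit h0 h1 in
private theorem F6_G_eq (L j₀ : ℕ) (z : ℤ) :
    Ex α L (fun q => Kf α j₀ q.1 (z - q.2)) = ∑ j ∈ range (L + 1), Pt α L j₀ j z := by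
  unfold Pt
  rw [← Ex_sum]
  apply Ex_congr
  intro q hq
  have hle := W_fst_le hq
  rw [Finset.sum_eq_single q.1]
  · simp
  · intro b _ hb
    rw [if_neg (fun h => hb h.symm)]
  · intro h2
    exact absurd (mem_range.mpr (by omega)) h2

/-- `Hp_eq_hh`, `p_words`, the substitution `z = 2 ^ L * x` (`sum_affine`), then `hh_mix_le`, and
`hh_le` for the masses `M α L j` (total 1). -/
theorem Hp_le_sum_Pt (L j₀ : ℕ) :
    Hp α j₀ ≤ ∑ j ∈ range (L + 1), hh (range (3 ^ j₀)) (fun z => Pt α L j₀ j (z : ℤ)) +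
      Real.log (L + 1) := by
  set G : ℤ → ℝ := fun z => ∑ j ∈ range (L + 1), Pt α L j₀ j z with hG
  have hGper : ∀ x t : ℤ, G (x + ((3 ^ j₀ : ℕ) : ℤ) * t) = G x := by
    intro x t
    simp only [hG]
    rw [← F6_G_eq, ← F6_G_eq]
    apply Ex_congr
    intro q _
    push_cast
    have e : x + 3 ^ j₀ * t - (q.2 : ℤ) = (x - q.2) + 3 ^ j₀ * t := by ring
    rw [e, F6_Kf_periodic]
  have hp : ∀ x : ℕ, p α j₀ (x : ℤ) = G (2 ^ L * (x : ℤ) + 0) := by
    intro x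
    simp only [hG]
    rw [← F6_G_eq, p_words h0 h1 j₀ L (x : ℤ), add_zero]
  have hcop : IsCoprime ((2 : ℤ) ^ L) ((3 ^ j₀ : ℕ) : ℤ) := by
    push_cast
    exact IsCoprime.pow (by norm_num [Int.isCoprime_iff_gcd_eq_one])
  have hHp : Hp α j₀ = hh (range (3 ^ j₀)) (fun z => G (z : ℤ)) := by
    rw [Hp_eq_hh h0 h1]
    have e1 : hh (range (3 ^ j₀)) (fun x => p α j₀ (x : ℤ)) =
        hh (range (3 ^ j₀)) (fun x : ℕ => G (2 ^ L * (x : ℤ) + 0)) :=
      hh_congr _ _ _ (fun x _ => hp x)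
    rw [e1]
    have e2 : ∑ x ∈ range (3 ^ j₀), Real.negMulLog (G (2 ^ L * (x : ℤ) + 0)) =
        ∑ x ∈ range (3 ^ j₀), Real.negMulLog (G (x : ℤ)) :=
      sum_affine (3 ^ j₀) (by positivity) (fun z => Real.negMulLog (G z))
        (fun x t => by simp only [hGper]) (2 ^ L) 0 hcop
    have e3 : ∑ x ∈ range (3 ^ j₀), G (2 ^ L * (x : ℤ) + 0) =
        ∑ x ∈ range (3 ^ j₀), G (x : ℤ) :=
      sum_affine (3 ^ j₀) (by positivity) G hGper (2 ^ L) 0 hcop
    unfold hh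
    rw [e2, e3]
  rw [hHp]
  have hmix := hh_mix_le (range (3 ^ j₀)) (range (L + 1))
    (fun j (i : ℕ) => Pt α L j₀ j (i : ℤ)) (fun j _ i _ => Pt_nonneg h0 h1 L j₀ j i)
  have hM : hh (range (L + 1)) (fun j => ∑ i ∈ range (3 ^ j₀), Pt α L j₀ j (i : ℤ)) ≤
      Real.log (L + 1) := by
    have e : hh (range (L + 1)) (fun j => ∑ i ∈ range (3 ^ j₀), Pt α L j₀ j (i : ℤ)) =
        hh (range (L + 1)) (fun j => M α L j) :=
      hh_congr _ _ _ (fun j _ => Pt_sum h0 h1 L j₀ j)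
    rw [e]
    have h2 := hh_le (range (L + 1)) (fun j => M α L j) (fun j _ => M_nonneg h0 h1 L j)
    rw [M_sum, card_range, one_mul] at h2
    push_cast at h2
    exact h2
  have hmix' : hh (range (3 ^ j₀)) (fun z => G (z : ℤ)) ≤
      ∑ j ∈ range (L + 1), hh (range (3 ^ j₀)) (fun i : ℕ => Pt α L j₀ j (i : ℤ)) +
        hh (range (L + 1)) (fun j => ∑ i ∈ range (3 ^ j₀), Pt α L j₀ j (i : ℤ)) := hmix
  linarith

omit h0 h1 in
private theorem F6_marg (L j₀ j : ℕ) (hj : j₀ ≤ j) (c : ℤ) :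
    Pt α L j₀ j c = ∑ y ∈ range (3 ^ (j - j₀)), F α L j (c + ((3 ^ j₀ : ℕ) : ℤ) * y) := by
  unfold Pt F
  rw [← Ex_sum]
  apply Ex_congr
  intro q _
  by_cases hq : q.1 = j
  · simp only [hq, if_true, true_and]
    have hpow : (3 : ℤ) ^ j = 3 ^ j₀ * 3 ^ (j - j₀) := by
      rw [← pow_add]; congr 1; omega
    unfold Kf
    rw [min_eq_right hj]
    have hz : j₀ - j = 0 := by omega
    rw [hz]
    simp only [p]
    by_cases hd : (3 : ℤ) ^ j₀ ∣ c - q.2
    · rw [if_pos hd]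
      obtain ⟨s, hs⟩ := hd
      have hcongr : ∑ y ∈ range (3 ^ (j - j₀)),
          (if (3 : ℤ) ^ j ∣ c + ((3 ^ j₀ : ℕ) : ℤ) * y - q.2 then (1 : ℝ) else 0) =
          ∑ z ∈ range (3 ^ (j - j₀)),
            (if (3 : ℤ) ^ (j - j₀) ∣ (z : ℤ) - (-s) then (1 : ℝ) else 0) := by
        refine Finset.sum_congr rfl (fun y _ => ?_)
        have e : c + ((3 ^ j₀ : ℕ) : ℤ) * y - q.2 = 3 ^ j₀ * ((y : ℤ) - (-s)) := by
          push_cast
          have : c = 3 ^ j₀ * s + q.2 := by linarith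
          rw [this]; ring
        rw [e, hpow]
        have hiff : (3 : ℤ) ^ j₀ * 3 ^ (j - j₀) ∣ 3 ^ j₀ * ((y : ℤ) - (-s)) ↔
            (3 : ℤ) ^ (j - j₀) ∣ (y : ℤ) - (-s) :=
          mul_dvd_mul_iff_left (by positivity)
        by_cases h : (3 : ℤ) ^ (j - j₀) ∣ (y : ℤ) - (-s)
        · rw [if_pos h, if_pos (hiff.2 h)]
        · rw [if_neg h, if_neg (fun h' => h (hiff.1 h'))]
      rw [hcongr, F6_count]
    · rw [if_neg hd]
      symm
      apply Finset.sum_eq_zero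
      intro y _
      rw [if_neg]
      intro h
      apply hd
      have h2 : (3 : ℤ) ^ j₀ ∣ c + ((3 ^ j₀ : ℕ) : ℤ) * y - q.2 :=
        dvd_trans (by rw [hpow]; exact Dvd.intro _ rfl) h
      have e : c + ((3 ^ j₀ : ℕ) : ℤ) * y - q.2 = (c - q.2) + 3 ^ j₀ * y := by
        push_cast; ring
      rw [e] at h2
      exact (Int.dvd_add_left (Dvd.intro _ rfl)).1 h2
  · simp only [hq, if_false, false_and]
    simp

/-- For `j ≥ j₀`, `Pt α L j₀ j z = ∑ y < 3 ^ (j - j₀), F α L j (z + 3 ^ j₀ y)` (a class mod `3 ^ j₀`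
is a union of classes mod `3 ^ j`), so it is the marginal in the chain rule
`hh_split (3 ^ j₀) (3 ^ (j - j₀))` for `F α L j`, and the other terms are nonnegative. -/
theorem hh_Pt_le_of_ge (L j₀ j : ℕ) (hj : j₀ ≤ j) :
    hh (range (3 ^ j₀)) (fun z => Pt α L j₀ j (z : ℤ)) ≤
      hh (range (3 ^ j)) (fun c => F α L j (c : ℤ)) := by
  have hpow : (3 : ℕ) ^ j = 3 ^ j₀ * 3 ^ (j - j₀) := by
    rw [← pow_add]; congr 1; omega
  have hs := hh_split (3 ^ j₀) (3 ^ (j - j₀)) (F α L j)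
  rw [hpow, hs]
  have e : hh (range (3 ^ j₀)) (fun z => Pt α L j₀ j (z : ℤ)) =
      hh (range (3 ^ j₀)) (fun c => ∑ y ∈ range (3 ^ (j - j₀)),
        F α L j ((c : ℤ) + ((3 ^ j₀ : ℕ) : ℤ) * y)) :=
    hh_congr _ _ _ (fun c _ => F6_marg L j₀ j hj c)
  rw [e]
  have hnn : 0 ≤ ∑ c ∈ range (3 ^ j₀), hh (range (3 ^ (j - j₀)))
      (fun y => F α L j ((c : ℤ) + ((3 ^ j₀ : ℕ) : ℤ) * y)) := by
    apply Finset.sum_nonneg
    intro c _
    apply hh_nonneg
    intro y _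
    exact F_nonneg h0 h1 L j _
  linarith

/-- For `j < j₀`: `hh_le` and `Pt_sum`. -/
theorem hh_Pt_le (L j₀ j : ℕ) :
    hh (range (3 ^ j₀)) (fun z => Pt α L j₀ j (z : ℤ)) ≤ M α L j * (j₀ * Real.log 3) := by
  have h := hh_le (range (3 ^ j₀)) (fun z : ℕ => Pt α L j₀ j (z : ℤ))
    (fun z _ => Pt_nonneg h0 h1 L j₀ j z)
  rw [Pt_sum h0 h1, card_range] at h
  push_cast at h
  rw [Real.log_pow] at h
  exact h

/-- Combine the previous three lemmas; `hh (range (3 ^ j)) (F α L j) ≥ 0` for `j < j₀`. -/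
theorem Hc_ge (L j₀ : ℕ) (hj : j₀ ≤ L) :
    Hp α j₀ - (∑ j ∈ range j₀, M α L j) * (j₀ * Real.log 3) - Real.log (L + 1) ≤ Hc α L := by
  have h := Hp_le_sum_Pt h0 h1 L j₀
  have hle : ∀ j ∈ range (L + 1), hh (range (3 ^ j₀)) (fun z => Pt α L j₀ j (z : ℤ)) ≤
      hh (range (3 ^ j)) (fun c => F α L j (c : ℤ)) +
        (if j < j₀ then M α L j * (j₀ * Real.log 3) else 0) := by
    intro j _
    by_cases hlt : j < j₀
    · rw [if_pos hlt]
      have h2 := hh_Pt_le h0 h1 L j₀ j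
      have h3 : 0 ≤ hh (range (3 ^ j)) (fun c => F α L j (c : ℤ)) :=
        hh_nonneg _ _ (fun c _ => F_nonneg h0 h1 L j _)
      linarith
    · rw [if_neg hlt, add_zero]
      exact hh_Pt_le_of_ge h0 h1 L j₀ j (by omega)
  have hsum := Finset.sum_le_sum hle
  rw [Finset.sum_add_distrib] at hsum
  have hfil : ∑ j ∈ range (L + 1), (if j < j₀ then M α L j * (j₀ * Real.log 3) else 0) =
      (∑ j ∈ range j₀, M α L j) * (j₀ * Real.log 3) := by
    rw [← Finset.sum_filter, Finset.sum_mul]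
    apply Finset.sum_congr _ (fun _ _ => rfl)
    ext j
    simp only [mem_filter, mem_range]
    constructor
    · rintro ⟨_, h⟩; exact h
    · intro h; exact ⟨by omega, h⟩
  rw [hfil] at hsum
  unfold Hc
  linarith

end

end Pool.Agent.Syr66
end
end
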