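import Pool.Agent.Lib.MP_529d88_nt.T1
import Pool.Agent.Lib.MP_529d88_nt.P1
import Pool.Agent.Lib.MP_529d88_nt.A1

section

set_option autoImplicit false

namespace Pool.Agent.Syr66

open Finset

/-- Composition of words. `Ex_add`: for `q ∈ W k` with `j = q.1`, the pair of the composite word is
`(j + q'.1, 2 ^ l q.2 + 3 ^ j q'.2)`; the condition `j + q'.1 = J`, `3 ^ J ∣ z - 2 ^ l q.2 - 3 ^ j q'.2`
means `j ≤ J`, `q'.1 = J - j`, `3 ^ j ∣ z - 2 ^ l q.2` and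
`3 ^ (J - j) ∣ (z - 2 ^ l q.2) / 3 ^ j - q'.2`. -/
theorem F_add (α : ℝ) (k l J : ℕ) (z : ℤ) :
    F α (k + l) J z = Ex α k (fun q =>
      if q.1 ≤ J ∧ (3 : ℤ) ^ q.1 ∣ z - 2 ^ l * q.2 then
        F α l (J - q.1) ((z - 2 ^ l * q.2) / 3 ^ q.1) else 0) := by
  unfold F
  rw [Ex_add]
  refine Ex_congr α k _ _ fun q _ => ?_
  by_cases hc : q.1 ≤ J ∧ (3 : ℤ) ^ q.1 ∣ z - 2 ^ l * q.2
  · rw [if_pos hc]
    refine Ex_congr α l _ _ fun q' _ => ?_
    obtain ⟨hJ, w, hw⟩ := hc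
    have hdiv : (z - 2 ^ l * q.2) / 3 ^ q.1 = w := by
      rw [hw]
      exact Int.mul_ediv_cancel_left _ (by positivity)
    have hiff : ((q.1 + q'.1, 2 ^ l * q.2 + 3 ^ q.1 * q'.2) : ℕ × ℕ).1 = J ∧
        (3 : ℤ) ^ J ∣ z - (((q.1 + q'.1, 2 ^ l * q.2 + 3 ^ q.1 * q'.2) : ℕ × ℕ).2 : ℤ) ↔
        (q'.1 = J - q.1 ∧ (3 : ℤ) ^ (J - q.1) ∣ (z - 2 ^ l * q.2) / 3 ^ q.1 - q'.2) := by
      rw [hdiv]
      have e1 : z - (((q.1 + q'.1, 2 ^ l * q.2 + 3 ^ q.1 * q'.2) : ℕ × ℕ).2 : ℤ) =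
          3 ^ q.1 * (w - q'.2) := by
        push_cast
        linear_combination hw
      have e2 : (3 : ℤ) ^ J = 3 ^ q.1 * 3 ^ (J - q.1) := by
        rw [← pow_add]
        congr 1
        omega
      rw [e1, e2, mul_dvd_mul_iff_left (by positivity)]
      constructor
      · rintro ⟨h, h'⟩
        exact ⟨by simp only at h; omega, h'⟩
      · rintro ⟨h, h'⟩
        exact ⟨by simp only; omega, h'⟩
    simp only [hiff]
  · rw [if_neg hc]
    refine (Ex_congr α l _ (fun _ => 0) fun q' _ => ?_).trans (Ex_const α l 0)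
    rw [if_neg]
    rintro ⟨h, h'⟩
    refine hc ⟨by simp only at h; omega, ?_⟩
    simp only at h
    have e1 : (3 : ℤ) ^ q.1 ∣ 3 ^ J := pow_dvd_pow _ (by omega)
    have e2 : (3 : ℤ) ^ q.1 ∣ 3 ^ q.1 * q'.2 := dvd_mul_right _ _
    have e3 := dvd_add (e1.trans h') e2
    have e4 : z - (((q.1 + q'.1, 2 ^ l * q.2 + 3 ^ q.1 * q'.2) : ℕ × ℕ).2 : ℤ) + 3 ^ q.1 * q'.2 =
        z - 2 ^ l * q.2 := by
      push_cast
      ring
    rwa [e4] at e3

/-- The part of the composite with `j` odd steps in the outer word. -/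
noncomputable def Gj (α : ℝ) (k l J j : ℕ) (z : ℤ) : ℝ :=
  Ex α k (fun q => if q.1 = j ∧ (3 : ℤ) ^ j ∣ z - 2 ^ l * q.2 then
    F α l (J - j) ((z - 2 ^ l * q.2) / 3 ^ j) else 0)

/-- Sort `F_add` by `j = q.1` (`j ≤ k` by `W_fst_le`). -/
theorem F_eq_sum_Gj (α : ℝ) (k l J : ℕ) (z : ℤ) :
    F α (k + l) J z = ∑ j ∈ range (k + 1), if j ≤ J then Gj α k l J j z else 0 := by
  rw [F_add]
  have e : ∀ q ∈ W k, (if q.1 ≤ J ∧ (3 : ℤ) ^ q.1 ∣ z - 2 ^ l * q.2 then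
        F α l (J - q.1) ((z - 2 ^ l * q.2) / 3 ^ q.1) else 0) =
      ∑ j ∈ range (k + 1), (if j ≤ J then
        (if q.1 = j ∧ (3 : ℤ) ^ j ∣ z - 2 ^ l * q.2 then
          F α l (J - j) ((z - 2 ^ l * q.2) / 3 ^ j) else 0) else 0) := by
    intro q hq
    rw [Finset.sum_eq_single q.1]
    · by_cases h1 : q.1 ≤ J
      · by_cases h2 : (3 : ℤ) ^ q.1 ∣ z - 2 ^ l * q.2
        · simp [h1, h2]
        · simp [h2]
      · simp [h1]
    · intro j _ hj
      split_ifs with h1 h2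
      · exact absurd h2.1.symm hj
      · rfl
      · rfl
    · intro h
      exact absurd (mem_range.2 (Nat.lt_succ_of_le (W_fst_le hq))) h
  rw [Ex_congr α k _ _ e, Ex_sum]
  refine Finset.sum_congr rfl fun j _ => ?_
  by_cases h1 : j ≤ J
  · simp only [h1, if_true, Gj]
  · simp only [h1, if_false]
    exact Ex_const α k 0

end Pool.Agent.Syr66
end

section

section

set_option autoImplicit false

namespace Pool.Agent.Syr66

open Finset

private theorem g2_jensen {ι : Type*} (t : Finset ι) (w x : ι → ℝ) (hw : ∀ i ∈ t, 0 ≤ w i)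
    (hx : ∀ i ∈ t, 0 ≤ x i) (s : ℝ) (hs : 0 ≤ s) :
    (∑ i ∈ t, w i * x i) ^ (1 + s) ≤ (∑ i ∈ t, w i) ^ s * ∑ i ∈ t, w i * x i ^ (1 + s) := by
  have hW0 : 0 ≤ ∑ i ∈ t, w i := Finset.sum_nonneg hw
  rcases hW0.eq_or_lt with h | h
  · have hz : ∀ i ∈ t, w i = 0 := (Finset.sum_eq_zero_iff_of_nonneg hw).1 h.symm
    have e1 : ∑ i ∈ t, w i * x i = 0 :=
      Finset.sum_eq_zero (fun i hi => by rw [hz i hi, zero_mul])
    have e2 : ∑ i ∈ t, w i * x i ^ (1 + s) = 0 :=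
      Finset.sum_eq_zero (fun i hi => by rw [hz i hi, zero_mul])
    rw [e1, e2, Real.zero_rpow (by linarith), mul_zero]
  · set W := ∑ i ∈ t, w i with hWdef
    have hJ := Real.rpow_arith_mean_le_arith_mean_rpow t (fun i => w i / W) x
      (fun i hi => div_nonneg (hw i hi) h.le)
      (by rw [← Finset.sum_div, ← hWdef, div_self h.ne']) hx (p := 1 + s) (by linarith)
    have e1 : ∑ i ∈ t, w i / W * x i = (∑ i ∈ t, w i * x i) / W := by
      rw [Finset.sum_div]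
      exact Finset.sum_congr rfl (fun i _ => by ring)
    have e2 : ∑ i ∈ t, w i / W * x i ^ (1 + s) = (∑ i ∈ t, w i * x i ^ (1 + s)) / W := by
      rw [Finset.sum_div]
      exact Finset.sum_congr rfl (fun i _ => by ring)
    rw [e1, e2] at hJ
    have hS0 : 0 ≤ ∑ i ∈ t, w i * x i := Finset.sum_nonneg (fun i hi => mul_nonneg (hw i hi) (hx i hi))
    rw [Real.div_rpow hS0 h.le, div_le_iff₀ (Real.rpow_pos_of_pos h _)] at hJ
    refine hJ.trans (le_of_eq ?_)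
    rw [Real.rpow_add h, Real.rpow_one]
    field_simp

private theorem g2_wt_nonneg {α : ℝ} (h0 : 0 < α) (h1 : α < 1) (k j : ℕ) : 0 ≤ wt α k j := by
  unfold wt
  exact mul_nonneg (pow_nonneg h0.le _) (pow_nonneg (by linarith) _)

private noncomputable def g2Fp (α : ℝ) (k l j : ℕ) (z : ℤ) : ℝ :=
  Ex α k (fun q => if q.1 = j ∧ (3 : ℤ) ^ j ∣ z - 2 ^ l * q.2 then 1 else 0)

private theorem g2Fp_periodic (α : ℝ) (k l j : ℕ) (z t : ℤ) :
    g2Fp α k l j (z + 3 ^ j * t) = g2Fp α k l j z := by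
  unfold g2Fp
  congr 1
  funext q
  have : (3 : ℤ) ^ j ∣ z + 3 ^ j * t - 2 ^ l * q.2 ↔ (3 : ℤ) ^ j ∣ z - 2 ^ l * q.2 := by
    have e : z + 3 ^ j * t - 2 ^ l * (q.2 : ℤ) = (z - 2 ^ l * q.2) + 3 ^ j * t := by ring
    rw [e]
    exact Int.dvd_add_left (Dvd.intro _ rfl)
  simp only [this]

private theorem g2_coprime (l j : ℕ) : IsCoprime ((2 : ℤ) ^ l) ((3 : ℤ) ^ j) := by
  apply IsCoprime.pow
  rw [Int.isCoprime_iff_gcd_eq_one]
  rfl

private theorem g2Fp_mul (α : ℝ) (k l j : ℕ) (z : ℤ) :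
    g2Fp α k l j (2 ^ l * z) = F α k j z := by
  unfold g2Fp F
  congr 1
  funext q
  have : (3 : ℤ) ^ j ∣ 2 ^ l * z - 2 ^ l * (q.2 : ℤ) ↔ (3 : ℤ) ^ j ∣ z - q.2 := by
    rw [← mul_sub]
    constructor
    · intro h
      exact (g2_coprime l j).symm.dvd_of_dvd_mul_left h
    · intro h
      exact h.mul_left _
  simp only [this]

/-- `∑ z < 3 ^ J` of the power of `Gj`. Write `z = c + 3 ^ j y` (`sum_split (3 ^ j) (3 ^ (J - j))`). For
fixed `c < 3 ^ j` let `Q` be the set of words with `q.1 = j` and `3 ^ j ∣ c - 2 ^ l q.2`, and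
`τ q = (2 ^ l q.2 - c) / 3 ^ j`; then `Gj (z) = ∑ q ∈ Q, wt * g (y - τ q)` with `g = F α l (J - j)`.
Jensen (`inner_le` / `Real.rpow_arith_mean_le_arith_mean_rpow` after normalising, convexity of
`x ^ (1 + s)`): `(∑ q, w g(y - τ q)) ^ (1+s) ≤ (∑ q, w) ^ s * ∑ q, w * g (y - τ q) ^ (1+s)`. Sum over
`y < 3 ^ (J - j)` with `sum_affine` (shift, `g` periodic): `≤ (∑ q ∈ Q, w) ^ (1 + s) * ∑ y, g y ^ (1+s)`.
With `F' c = ∑ q ∈ Q, w = Ex α k (if q.1 = j ∧ 3 ^ j ∣ c - 2 ^ l q.2)`, one has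
`F' (2 ^ l c') = F α k j c'`, so `∑ c < 3 ^ j, F' c ^ (1+s) = ∑ c, F α k j c ^ (1+s)` by `sum_affine`
(`u = 2 ^ l`). -/
theorem sum_Gj_le {α : ℝ} (h0 : 0 < α) (h1 : α < 1) (k l J j : ℕ) (hj : j ≤ J) (s : ℝ)
    (hs : 0 ≤ s) :
    ∑ z ∈ range (3 ^ J), (Gj α k l J j (z : ℤ)) ^ (1 + s) ≤
      (∑ c ∈ range (3 ^ j), (F α k j (c : ℤ)) ^ (1 + s)) *
      ∑ y ∈ range (3 ^ (J - j)), (F α l (J - j) (y : ℤ)) ^ (1 + s) := by
  classical
  have hpow : 3 ^ J = 3 ^ j * 3 ^ (J - j) := by rw [← pow_add]; congr 1; omega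
  have h3j : (0 : ℤ) < 3 ^ j := by positivity
  set S : ℝ := ∑ y ∈ range (3 ^ (J - j)), (F α l (J - j) (y : ℤ)) ^ (1 + s) with hS
  rw [hpow, sum_split (3 ^ j) (3 ^ (J - j)) (fun z => (Gj α k l J j z) ^ (1 + s))]
  -- for each c
  have key : ∀ c ∈ range (3 ^ j), ∑ y ∈ range (3 ^ (J - j)),
      (Gj α k l J j ((c : ℤ) + ((3 ^ j : ℕ) : ℤ) * y)) ^ (1 + s) ≤
      (g2Fp α k l j (c : ℤ)) ^ (1 + s) * S := by
    intro c _
    set Q := (W k).filter (fun q => q.1 = j ∧ (3 : ℤ) ^ j ∣ (c : ℤ) - 2 ^ l * q.2) with hQ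
    have hG : ∀ y : ℕ, Gj α k l J j ((c : ℤ) + ((3 ^ j : ℕ) : ℤ) * y) =
        ∑ q ∈ Q, wt α k q.1 * F α l (J - j) (1 * (y : ℤ) + ((c : ℤ) - 2 ^ l * q.2) / 3 ^ j) := by
      intro y
      unfold Gj Ex
      rw [hQ, Finset.sum_filter]
      refine Finset.sum_congr rfl (fun q _ => ?_)
      have e : (c : ℤ) + ((3 ^ j : ℕ) : ℤ) * y - 2 ^ l * (q.2 : ℤ) =
          ((c : ℤ) - 2 ^ l * q.2) + 3 ^ j * (y : ℤ) := by push_cast; ring
      have hd : (3 : ℤ) ^ j ∣ (c : ℤ) + ((3 ^ j : ℕ) : ℤ) * y - 2 ^ l * (q.2 : ℤ) ↔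
          (3 : ℤ) ^ j ∣ (c : ℤ) - 2 ^ l * q.2 := by
        rw [e]
        exact Int.dvd_add_left (Dvd.intro _ rfl)
      have hq : ((c : ℤ) + ((3 ^ j : ℕ) : ℤ) * y - 2 ^ l * (q.2 : ℤ)) / 3 ^ j =
          1 * (y : ℤ) + ((c : ℤ) - 2 ^ l * q.2) / 3 ^ j := by
        rw [e, Int.add_mul_ediv_left _ _ h3j.ne']
        ring
      beta_reduce
      rw [hq]
      by_cases hc : q.1 = j ∧ (3 : ℤ) ^ j ∣ (c : ℤ) - 2 ^ l * q.2
      · rw [if_pos hc, if_pos ⟨hc.1, hd.2 hc.2⟩]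
      · rw [if_neg hc, if_neg (fun h => hc ⟨h.1, hd.1 h.2⟩), mul_zero]
    have hF' : g2Fp α k l j (c : ℤ) = ∑ q ∈ Q, wt α k q.1 := by
      unfold g2Fp Ex
      rw [hQ, Finset.sum_filter]
      refine Finset.sum_congr rfl (fun q _ => ?_)
      by_cases hc : q.1 = j ∧ (3 : ℤ) ^ j ∣ (c : ℤ) - 2 ^ l * q.2
      · beta_reduce
        rw [if_pos hc, if_pos hc, mul_one]
      · beta_reduce
        rw [if_neg hc, if_neg hc, mul_zero]
    have hW0 : 0 ≤ ∑ q ∈ Q, wt α k q.1 :=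
      Finset.sum_nonneg (fun q _ => g2_wt_nonneg h0 h1 k q.1)
    calc ∑ y ∈ range (3 ^ (J - j)), (Gj α k l J j ((c : ℤ) + ((3 ^ j : ℕ) : ℤ) * y)) ^ (1 + s)
        ≤ ∑ y ∈ range (3 ^ (J - j)), (∑ q ∈ Q, wt α k q.1) ^ s *
          ∑ q ∈ Q, wt α k q.1 *
            (F α l (J - j) (1 * (y : ℤ) + ((c : ℤ) - 2 ^ l * q.2) / 3 ^ j)) ^ (1 + s) := by
          refine Finset.sum_le_sum (fun y _ => ?_)
          rw [hG y]
          exact g2_jensen Q _ _ (fun q _ => g2_wt_nonneg h0 h1 k q.1)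
            (fun q _ => F_nonneg h0 h1 _ _ _) s hs
      _ = (∑ q ∈ Q, wt α k q.1) ^ s * ∑ q ∈ Q, wt α k q.1 * S := by
          rw [← Finset.mul_sum, Finset.sum_comm]
          congr 1
          refine Finset.sum_congr rfl (fun q _ => ?_)
          rw [← Finset.mul_sum]
          congr 1
          have := sum_affine (3 ^ (J - j)) (by positivity)
            (fun z => (F α l (J - j) z) ^ (1 + s))
            (fun x t => by
              push_cast
              rw [F_periodic]) 1 (((c : ℤ) - 2 ^ l * q.2) / 3 ^ j) isCoprime_one_left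
          rw [hS]
          exact this
      _ = (g2Fp α k l j (c : ℤ)) ^ (1 + s) * S := by
          rw [← Finset.sum_mul, hF', ← mul_assoc]
          congr 1
          rcases hW0.eq_or_lt with h | h
          · rw [← h, mul_zero, Real.zero_rpow (by linarith)]
          · rw [add_comm 1 s, Real.rpow_add h, Real.rpow_one]
  refine (Finset.sum_le_sum key).trans (le_of_eq ?_)
  rw [← Finset.sum_mul]
  congr 1
  have := sum_affine (3 ^ j) (by positivity) (fun z => (g2Fp α k l j z) ^ (1 + s))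
    (fun x t => by
      push_cast
      rw [g2Fp_periodic]) (2 ^ l) 0 (by push_cast; exact g2_coprime l j)
  beta_reduce at this
  rw [← this]
  refine Finset.sum_congr rfl (fun c _ => ?_)
  rw [add_zero, g2Fp_mul]

end Pool.Agent.Syr66
end

section

set_option autoImplicit false

namespace Pool.Agent.Syr66

open Finset

private theorem Gj_nonneg {α : ℝ} (h0 : 0 < α) (h1 : α < 1) (k l J j : ℕ) (z : ℤ) :
    0 ≤ Gj α k l J j z := by
  unfold Gj
  apply Ex_nonneg h0.le h1.le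
  intro q _
  show 0 ≤ (if q.1 = j ∧ (3 : ℤ) ^ j ∣ z - 2 ^ l * q.2 then
    F α l (J - j) ((z - 2 ^ l * q.2) / 3 ^ j) else 0)
  split_ifs
  · exact F_nonneg h0 h1 _ _ _
  · exact le_rfl

/-- the sum of the powers, for fixed number of odd steps -/
private noncomputable def Aj (α : ℝ) (k j : ℕ) (s : ℝ) : ℝ :=
  ∑ c ∈ range (3 ^ j), (F α k j (c : ℤ)) ^ (1 + s)

private theorem Aj_nonneg {α : ℝ} (h0 : 0 < α) (h1 : α < 1) (k j : ℕ) (s : ℝ) :
    0 ≤ Aj α k j s :=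
  sum_nonneg fun _ _ => Real.rpow_nonneg (F_nonneg h0 h1 _ _ _) _

private theorem Aj_zero {α : ℝ} (k j : ℕ) (hj : k < j) (s : ℝ) (hs : 0 ≤ s) :
    Aj α k j s = 0 := by
  unfold Aj
  apply sum_eq_zero
  intro c _
  rw [F_eq_zero k j hj]
  exact Real.zero_rpow (by linarith)

private theorem sum_shift (h : ℕ → ℝ) (j k l : ℕ) (hj : j ≤ k) (hz : ∀ i, l < i → h i = 0) :
    ∑ J ∈ range (k + l + 1), (if j ≤ J then h (J - j) else 0) = ∑ i ∈ range (l + 1), h i := by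
  obtain ⟨d, rfl⟩ := Nat.exists_eq_add_of_le hj
  have e : j + d + l + 1 = j + (l + 1 + d) := by ring
  rw [e, sum_range_add]
  have e1 : ∑ x ∈ range j, (if j ≤ x then h (x - j) else 0) = 0 := by
    apply sum_eq_zero
    intro x hx
    rw [if_neg (not_le.mpr (mem_range.mp hx))]
  have e2 : ∑ x ∈ range (l + 1 + d), (if j ≤ j + x then h (j + x - j) else 0) =
      ∑ x ∈ range (l + 1 + d), h x := by
    apply sum_congr rfl
    intro x _
    rw [if_pos (Nat.le_add_right j x), Nat.add_sub_cancel_left]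
  rw [e1, e2, zero_add, sum_range_add]
  have e3 : ∑ x ∈ range d, h (l + 1 + x) = 0 := by
    apply sum_eq_zero
    intro x _
    exact hz _ (by omega)
  rw [e3, add_zero]

/-- Submultiplicativity. By `F_eq_sum_Gj` and the power mean inequality
(`Real.rpow_sum_le_const_mul_sum_rpow`, `k + 1` nonnegative terms):
`F α (k+l) J z ^ (1+s) ≤ (k+1) ^ s * ∑ j ≤ k, (if j ≤ J then Gj .. ) ^ (1+s)`. Sum over `z < 3 ^ J` with
`sum_Gj_le`, multiply by `3 ^ (J s) = 3 ^ (j s) * 3 ^ ((J - j) s)` and sum over `J ≤ k + l`; the terms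
with `J - j > l` vanish (`F_eq_zero`, `0 ^ (1+s) = 0`), the others are terms of the product of the two
sums `Zq α k s * Zq α l s`. -/
theorem Zq_mul {α : ℝ} (h0 : 0 < α) (h1 : α < 1) (k l : ℕ) (s : ℝ) (hs : 0 ≤ s) :
    Zq α (k + l) s ≤ (k + 1 : ℝ) ^ s * Zq α k s * Zq α l s := by
  have hpt : ∀ (J : ℕ) (z : ℤ), (F α (k + l) J z) ^ (1 + s) ≤
      (k + 1 : ℝ) ^ s * ∑ j ∈ range (k + 1),
        (if j ≤ J then (Gj α k l J j z) ^ (1 + s) else 0) := by
    intro J z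
    rw [F_eq_sum_Gj]
    have hnn : ∀ j ∈ range (k + 1), 0 ≤ (if j ≤ J then Gj α k l J j z else 0) := by
      intro j _
      split_ifs
      · exact Gj_nonneg h0 h1 _ _ _ _ _
      · exact le_rfl
    have := Real.rpow_sum_le_const_mul_sum_rpow_of_nonneg (s := range (k + 1))
      (f := fun j => if j ≤ J then Gj α k l J j z else 0) (p := 1 + s) (by linarith) hnn
    refine this.trans (le_of_eq ?_)
    rw [card_range]
    push_cast
    congr 1
    · congr 1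
      ring
    · apply sum_congr rfl
      intro j _
      split_ifs
      · rfl
      · exact Real.zero_rpow (by linarith)
  have hJ : ∀ J : ℕ, ∑ z ∈ range (3 ^ J), (F α (k + l) J (z : ℤ)) ^ (1 + s) ≤
      (k + 1 : ℝ) ^ s * ∑ j ∈ range (k + 1),
        (if j ≤ J then Aj α k j s * Aj α l (J - j) s else 0) := by
    intro J
    calc ∑ z ∈ range (3 ^ J), (F α (k + l) J (z : ℤ)) ^ (1 + s)
        ≤ ∑ z ∈ range (3 ^ J), (k + 1 : ℝ) ^ s * ∑ j ∈ range (k + 1),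
          (if j ≤ J then (Gj α k l J j (z : ℤ)) ^ (1 + s) else 0) :=
          sum_le_sum fun z _ => hpt J z
      _ = (k + 1 : ℝ) ^ s * ∑ j ∈ range (k + 1), ∑ z ∈ range (3 ^ J),
          (if j ≤ J then (Gj α k l J j (z : ℤ)) ^ (1 + s) else 0) := by
          rw [← mul_sum, sum_comm]
      _ ≤ _ := by
          apply mul_le_mul_of_nonneg_left _ (by positivity)
          apply sum_le_sum
          intro j _
          split_ifs with hj
          · exact sum_Gj_le h0 h1 k l J j hj s hs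
          · simp
  have h3 : (0 : ℝ) < 3 := by norm_num
  have hterm : ∀ J : ℕ, (3 : ℝ) ^ ((J : ℝ) * s) * ∑ z ∈ range (3 ^ J),
        (F α (k + l) J (z : ℤ)) ^ (1 + s) ≤
      (k + 1 : ℝ) ^ s * ∑ j ∈ range (k + 1), ((3 : ℝ) ^ ((j : ℝ) * s) * Aj α k j s) *
        (if j ≤ J then (3 : ℝ) ^ (((J - j : ℕ) : ℝ) * s) * Aj α l (J - j) s else 0) := by
    intro J
    refine (mul_le_mul_of_nonneg_left (hJ J) (by positivity)).trans (le_of_eq ?_)
    rw [mul_left_comm, mul_sum]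
    congr 1
    apply sum_congr rfl
    intro j _
    split_ifs with hj
    · have e : (3 : ℝ) ^ ((J : ℝ) * s) =
          (3 : ℝ) ^ ((j : ℝ) * s) * (3 : ℝ) ^ (((J - j : ℕ) : ℝ) * s) := by
        rw [← Real.rpow_add h3]
        congr 1
        rw [Nat.cast_sub hj]
        ring
      rw [e]
      ring
    · simp
  have hshift : ∀ j ∈ range (k + 1), ∑ J ∈ range (k + l + 1),
      (if j ≤ J then (3 : ℝ) ^ (((J - j : ℕ) : ℝ) * s) * Aj α l (J - j) s else 0) =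
      Zq α l s := by
    intro j hj
    have hjk : j ≤ k := Nat.lt_succ_iff.mp (mem_range.mp hj)
    rw [sum_shift (fun i => (3 : ℝ) ^ ((i : ℝ) * s) * Aj α l i s) j k l hjk]
    · rfl
    · intro i hi
      show (3 : ℝ) ^ ((i : ℝ) * s) * Aj α l i s = 0
      rw [Aj_zero l i hi s hs, mul_zero]
  calc Zq α (k + l) s = ∑ J ∈ range (k + l + 1), (3 : ℝ) ^ ((J : ℝ) * s) *
        ∑ z ∈ range (3 ^ J), (F α (k + l) J (z : ℤ)) ^ (1 + s) := rfl
    _ ≤ ∑ J ∈ range (k + l + 1), (k + 1 : ℝ) ^ s * ∑ j ∈ range (k + 1),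
        ((3 : ℝ) ^ ((j : ℝ) * s) * Aj α k j s) *
        (if j ≤ J then (3 : ℝ) ^ (((J - j : ℕ) : ℝ) * s) * Aj α l (J - j) s else 0) :=
        sum_le_sum fun J _ => hterm J
    _ = (k + 1 : ℝ) ^ s * ∑ j ∈ range (k + 1), ((3 : ℝ) ^ ((j : ℝ) * s) * Aj α k j s) *
        ∑ J ∈ range (k + l + 1),
        (if j ≤ J then (3 : ℝ) ^ (((J - j : ℕ) : ℝ) * s) * Aj α l (J - j) s else 0) := by
        rw [← mul_sum, sum_comm]
        congr 1
        apply sum_congr rfl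
        intro j _
        rw [mul_sum]
    _ = (k + 1 : ℝ) ^ s * ∑ j ∈ range (k + 1), ((3 : ℝ) ^ ((j : ℝ) * s) * Aj α k j s) *
        Zq α l s := by
        congr 1
        apply sum_congr rfl
        intro j hj
        rw [hshift j hj]
    _ = (k + 1 : ℝ) ^ s * Zq α k s * Zq α l s := by
        rw [← sum_mul, mul_assoc]
        rfl

theorem Zq_nonneg {α : ℝ} (h0 : 0 < α) (h1 : α < 1) (k : ℕ) (s : ℝ) : 0 ≤ Zq α k s := by
  unfold Zq
  apply sum_nonneg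
  intro j _
  apply mul_nonneg (by positivity)
  exact sum_nonneg fun _ _ => Real.rpow_nonneg (F_nonneg h0 h1 _ _ _) _

/-- Crude bound: `F ≤ 1`, so `(3 ^ j F) ^ s ≤ 3 ^ (k s)` and `∑ j, ∑ c, F = 1`. -/
theorem Zq_le {α : ℝ} (h0 : 0 < α) (h1 : α < 1) (k : ℕ) (s : ℝ) (hs : 0 ≤ s) :
    Zq α k s ≤ (3 : ℝ) ^ ((k : ℝ) * s) := by
  have hF : ∀ (j : ℕ) (c : ℤ), (F α k j c) ^ (1 + s) ≤ F α k j c := by
    intro j c
    have a0 := F_nonneg h0 h1 k j c
    have a1 : F α k j c ≤ 1 := (F_le_M h0 h1 k j c).trans (M_le_one h0 h1 k j)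
    rcases eq_or_lt_of_le a0 with h | h
    · rw [← h, Real.zero_rpow (by linarith)]
    · calc (F α k j c) ^ (1 + s) ≤ (F α k j c) ^ (1 : ℝ) :=
          Real.rpow_le_rpow_of_exponent_ge h a1 (by linarith)
        _ = F α k j c := Real.rpow_one _
  calc Zq α k s = ∑ j ∈ range (k + 1), (3 : ℝ) ^ ((j : ℝ) * s) *
        ∑ c ∈ range (3 ^ j), (F α k j (c : ℤ)) ^ (1 + s) := rfl
    _ ≤ ∑ j ∈ range (k + 1), (3 : ℝ) ^ ((k : ℝ) * s) * M α k j := by
        apply sum_le_sum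
        intro j hj
        have hjk : (j : ℝ) ≤ k := by exact_mod_cast Nat.lt_succ_iff.mp (mem_range.mp hj)
        apply mul_le_mul
        · exact Real.rpow_le_rpow_of_exponent_le (by norm_num)
            (mul_le_mul_of_nonneg_right hjk hs)
        · rw [← F_sum]
          exact sum_le_sum fun c _ => hF j _
        · exact sum_nonneg fun _ _ => Real.rpow_nonneg (F_nonneg h0 h1 _ _ _) _
        · positivity
    _ = (3 : ℝ) ^ ((k : ℝ) * s) := by
        rw [← mul_sum, M_sum, mul_one]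

end Pool.Agent.Syr66
end
end
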