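import Pool.Agent.Lib.MP_529d88_nt.C3

set_option autoImplicit false

namespace Pool.Agent.Syr66

open Finset

private lemma j4_log2 : 0 < Real.log 2 := Real.log_pos (by norm_num)
private lemma j4_log3 : 0 < Real.log 3 := Real.log_pos (by norm_num)

private lemma j4_log3_le : Real.log 3 ≤ 2 := by
  have := Real.log_le_sub_one_of_pos (show (0 : ℝ) < 3 by norm_num)
  linarith

private lemma j4_th_log : th * Real.log 2 = Real.log 3 / 2 := by
  unfold th
  have := j4_log2.ne'
  field_simp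

theorem th_pos : 0 < th := by
  unfold th
  exact div_pos j4_log3 (mul_pos two_pos j4_log2)

theorem th_lt : th < 4 / 5 := by
  unfold th
  rw [div_lt_div_iff₀ (mul_pos two_pos j4_log2) (by norm_num)]
  have h : Real.log ((3 : ℝ) ^ 5) < Real.log ((2 : ℝ) ^ 8) :=
    Real.log_lt_log (by norm_num) (by norm_num)
  rw [Real.log_pow, Real.log_pow] at h
  push_cast at h
  linarith

theorem tt_zero : tt 0 = 0 := by
  simp [tt]

theorem tt_succ (r : ℕ) : tt (r + 1) = 1 + th * tt r := by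
  unfold tt
  rw [Finset.sum_range_succ', Finset.mul_sum, pow_zero, add_comm]
  congr 1
  apply Finset.sum_congr rfl
  intro i _
  ring

theorem tt_nonneg (r : ℕ) : 0 ≤ tt r := by
  unfold tt
  exact Finset.sum_nonneg (fun i _ => pow_nonneg th_pos.le i)

theorem tt_eq (r : ℕ) : tt r = (1 - th ^ r) / (1 - th) := by
  unfold tt
  have h : th ≠ 1 := by
    have := th_lt
    intro h'
    rw [h'] at this
    norm_num at this
  rw [geom_sum_eq h]
  rw [← neg_div_neg_eq]
  congr 1 <;> ring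

private lemma j4_sqrt3 (k : ℕ) : Real.exp (k * (Real.log 3 / 2)) = Real.sqrt 3 ^ k := by
  rw [Real.exp_nat_mul]
  congr 1
  rw [Real.sqrt_eq_rpow, Real.rpow_def_of_pos (by norm_num)]
  congr 1
  ring

/-- `2 ^ θ = √3`, so `2 ^ (θ k) = 2 ^ k * (√3 / 2) ^ k`. -/
theorem two_rpow_th (k : ℕ) : (2 : ℝ) ^ (th * k) = 2 ^ k * (Real.sqrt 3 / 2) ^ k := by
  rw [← mul_pow, mul_div_cancel₀ _ (two_ne_zero), ← j4_sqrt3,
    Real.rpow_def_of_pos (by norm_num)]
  congr 1
  rw [← j4_th_log]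
  ring

private lemma j4_three_pow (j : ℕ) : (3 : ℝ) ^ j = Real.exp (j * Real.log 3) := by
  rw [Real.exp_nat_mul, Real.exp_log (by norm_num)]

/-- `T^[i] n < 2 ^ (k - i) * 3 ^ j` (`T_iter_lt`) and `3 ^ j ≤ 3 ^ (i / 2 + ε k)`. -/
theorem T_le_of_dev {ε : ℝ} (i k n : ℕ) (hi : i ≤ k) (hn : n < 2 ^ k)
    (h : |((enc i n).1 : ℝ) - i / 2| ≤ ε * k) :
    (T^[i] n : ℝ) ≤ Real.exp (ε * k * Real.log 3) * 2 ^ k * (Real.sqrt 3 / 2) ^ i := by
  have h1 : ((T^[i] n : ℕ) : ℝ) ≤ 2 ^ (k - i) * 3 ^ (enc i n).1 := by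
    exact_mod_cast (T_iter_lt hi hn).le
  have h2 : (2 : ℝ) ^ k = 2 ^ (k - i) * 2 ^ i := by
    rw [← pow_add]
    congr 1
    omega
  have h3 : (3 : ℝ) ^ (enc i n).1 ≤ Real.exp (ε * k * Real.log 3) * Real.sqrt 3 ^ i := by
    rw [j4_three_pow, ← j4_sqrt3, ← Real.exp_add]
    apply Real.exp_le_exp.mpr
    have h4 := (abs_le.mp h).2
    have h5 := mul_le_mul_of_nonneg_right h4 j4_log3.le
    nlinarith
  have h6 : Real.exp (ε * k * Real.log 3) * 2 ^ k * (Real.sqrt 3 / 2) ^ i =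
      2 ^ (k - i) * (Real.exp (ε * k * Real.log 3) * Real.sqrt 3 ^ i) := by
    rw [h2, div_pow]
    have : (2 : ℝ) ^ i ≠ 0 := pow_ne_zero _ two_ne_zero
    field_simp
  rw [h6]
  exact h1.trans (mul_le_mul_of_nonneg_left h3 (by positivity))

/-- `T^[k] n < 3 ^ j` and `j ≤ k / 2 + u / 2 * k`, so `T^[k] n < 3 ^ ((1 + u) k / 2) = 2 ^ (θ (1 + u) k)`,
which is `≤ 2 ^ ⌈θ (1 + u) k⌉`. -/
theorem T_lt_next {u : ℝ} (hu : 0 ≤ u) (k n : ℕ) (hn : n < 2 ^ k)
    (h : |((enc k n).1 : ℝ) - k / 2| ≤ u / 2 * k) :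
    T^[k] n < 2 ^ ⌈th * (1 + u) * k⌉₊ := by
  have h1 : ((T^[k] n : ℕ) : ℝ) < 3 ^ (enc k n).1 := by
    have := T_iter_lt (le_refl k) hn
    rw [Nat.sub_self, pow_zero, one_mul] at this
    exact_mod_cast this
  have h3 : (3 : ℝ) ^ (enc k n).1 ≤ (2 : ℝ) ^ ⌈th * (1 + u) * k⌉₊ := by
    rw [← Real.rpow_natCast 2, Real.rpow_def_of_pos (by norm_num : (0 : ℝ) < 2), j4_three_pow]
    apply Real.exp_le_exp.mpr
    have h4 := (abs_le.mp h).2
    have h5 := mul_le_mul_of_nonneg_right h4 j4_log3.le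
    have h6 := Nat.le_ceil (th * (1 + u) * k)
    have h7 := mul_le_mul_of_nonneg_left h6 j4_log2.le
    have h8 : Real.log 2 * (th * (1 + u) * k) = (1 + u) * k * (Real.log 3 / 2) := by
      rw [← j4_th_log]
      ring
    rw [h8] at h7
    nlinarith
  have h4 := h1.trans_le h3
  exact_mod_cast h4

/-- The inductive step for a single `n`. For `i ≤ k` use `T_le_of_dev`; for `i > k`, `i - k ≤ tt r * k'`
because `tt (r+1) = 1 + θ tt r` and `k' ≥ θ k`; the numbers of odd steps add (`enc_add`);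
`T^[i] n = T^[i - k] (T^[k] n)`, `2 ^ k' ≤ 2 * 2 ^ (θ (1 + u) k)`, `two_rpow_th`, and `k' ≤ k`. -/
theorem Nice_succ (r : ℕ) {ε u e D : ℝ} (hε : 0 < ε) (hu : 0 ≤ u) (hu1 : u ≤ 1 / 4)
    (hu2 : u ≤ ε / 2) (he : 0 ≤ e) (he1 : e ≤ ε / 4) (hD : 1 ≤ D) (k n : ℕ) (hn : n < 2 ^ k)
    (h1 : ∀ i ∈ range (k + 1), |((enc i n).1 : ℝ) - i / 2| ≤ e * k)
    (h2 : Nice r (ε / 4) D ⌈th * (1 + u) * k⌉₊ (T^[k] n)) :
    Nice (r + 1) ε (2 * D) k n := by
  intro i hi
  have hk0 : (0 : ℝ) ≤ k := Nat.cast_nonneg k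
  have hthp := th_pos
  have hthl := th_lt
  have hl3 := j4_log3_le
  have hl3p := j4_log3
  have hek : e * k ≤ ε / 4 * k := mul_le_mul_of_nonneg_right he1 hk0
  have hεk : 0 ≤ ε * k := mul_nonneg hε.le hk0
  rcases le_or_gt i k with hik | hik
  · have hd := h1 i (by simp; omega)
    refine ⟨hd.trans (by nlinarith), ?_⟩
    refine (T_le_of_dev i k n hik hn hd).trans ?_
    have h3 : Real.exp (e * k * Real.log 3) ≤ Real.exp (ε * k) := by
      apply Real.exp_le_exp.mpr
      have h4 : e * k * Real.log 3 ≤ ε / 4 * k * 2 :=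
        mul_le_mul hek hl3 hl3p.le (by nlinarith)
      nlinarith
    have h5 : Real.exp (e * k * Real.log 3) ≤ 2 * D * Real.exp (ε * k) := by
      have h6 := Real.exp_pos (ε * k)
      nlinarith
    have h7 : (0 : ℝ) ≤ 2 ^ k * (Real.sqrt 3 / 2) ^ i := by positivity
    have h8 := mul_le_mul_of_nonneg_right h5 h7
    calc Real.exp (e * k * Real.log 3) * 2 ^ k * (Real.sqrt 3 / 2) ^ i
        = Real.exp (e * k * Real.log 3) * (2 ^ k * (Real.sqrt 3 / 2) ^ i) := by ring
      _ ≤ 2 * D * Real.exp (ε * k) * (2 ^ k * (Real.sqrt 3 / 2) ^ i) := h8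
      _ = 2 * D * Real.exp (ε * k) * 2 ^ k * (Real.sqrt 3 / 2) ^ i := by ring
  · obtain ⟨l, rfl⟩ := Nat.exists_eq_add_of_lt hik
    -- i = k + l + 1
    set l' := l + 1 with hl'
    have hil : k + l + 1 = k + l' := by omega
    rw [hil] at hi ⊢
    set k' := ⌈th * (1 + u) * k⌉₊ with hk'
    have hk'ge : th * (1 + u) * k ≤ k' := Nat.le_ceil _
    have hnn : 0 ≤ th * (1 + u) * k := by positivity
    have hk'lt : (k' : ℝ) < th * (1 + u) * k + 1 := Nat.ceil_lt_add_one hnn
    have hthu : th * (1 + u) ≤ 1 := by nlinarith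
    have hk'le : k' ≤ k := by
      rw [hk']
      apply Nat.ceil_le.mpr
      nlinarith
    have hk'leR : (k' : ℝ) ≤ k := by exact_mod_cast hk'le
    have hli : (l' : ℝ) ≤ tt r * k' := by
      rw [tt_succ] at hi
      push_cast at hi
      have h3 : th * k ≤ k' := by
        refine le_trans ?_ hk'ge
        have : th * (1 + u) * k = th * k + th * u * k := by ring
        rw [this]
        have : 0 ≤ th * u * k := by positivity
        linarith
      have h4 := mul_le_mul_of_nonneg_left h3 (tt_nonneg r)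
      nlinarith
    obtain ⟨h3, h4⟩ := h2 l' hli
    have hdk := h1 k (by simp)
    constructor
    · rw [enc_add]
      push_cast
      have h5 : ((enc k n).1 : ℝ) + ((enc l' (T^[k] n)).1 : ℝ) - ((k : ℝ) + l') / 2 =
          (((enc k n).1 : ℝ) - k / 2) + (((enc l' (T^[k] n)).1 : ℝ) - l' / 2) := by ring
      rw [h5]
      refine (abs_add_le _ _).trans ?_
      have h6 : ε / 4 * k' ≤ ε / 4 * k := mul_le_mul_of_nonneg_left hk'leR (by linarith)
      linarith
    · have h5 : T^[k + l'] n = T^[l'] (T^[k] n) := by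
        rw [add_comm, Function.iterate_add_apply]
      rw [h5]
      refine h4.trans ?_
      -- bound of 2 ^ k'
      have h6 : (2 : ℝ) ^ k' ≤ 2 * (2 ^ k * (Real.sqrt 3 / 2) ^ k) * Real.exp (ε * k / 2) := by
        have h7 : (2 : ℝ) ^ k' ≤ (2 : ℝ) ^ (th * (1 + u) * k + 1) := by
          rw [← Real.rpow_natCast 2 k']
          exact Real.rpow_le_rpow_of_exponent_le (by norm_num) hk'lt.le
        have h8 : (2 : ℝ) ^ (th * (1 + u) * k + 1) =
            2 * (2 ^ k * (Real.sqrt 3 / 2) ^ k) * Real.exp (u * k * (Real.log 3 / 2)) := by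
          have h9 : th * (1 + u) * k + 1 = th * k + th * (u * k) + 1 := by ring
          rw [h9, Real.rpow_add (by norm_num), Real.rpow_add (by norm_num), two_rpow_th,
            Real.rpow_one, Real.rpow_def_of_pos (by norm_num : (0 : ℝ) < 2) (th * (u * k))]
          have h10 : Real.log 2 * (th * (u * k)) = u * k * (Real.log 3 / 2) := by
            rw [← j4_th_log]
            ring
          rw [h10]
          ring
        rw [h8] at h7
        refine h7.trans ?_
        apply mul_le_mul_of_nonneg_left _ (by positivity)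
        apply Real.exp_le_exp.mpr
        have h11 : u * k ≤ ε / 2 * k := mul_le_mul_of_nonneg_right hu2 hk0
        have h12 : u * k * (Real.log 3 / 2) ≤ ε / 2 * k * 1 :=
          mul_le_mul h11 (by linarith) (by linarith) (by nlinarith)
        linarith
      have h13 : Real.exp (ε / 4 * k') ≤ Real.exp (ε * k / 4) := by
        apply Real.exp_le_exp.mpr
        have h6 : ε / 4 * k' ≤ ε / 4 * k := mul_le_mul_of_nonneg_left hk'leR (by linarith)
        linarith
      have h14 : Real.exp (ε * k / 4) * Real.exp (ε * k / 2) ≤ Real.exp (ε * k) := by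
        rw [← Real.exp_add]
        apply Real.exp_le_exp.mpr
        linarith
      have hD0 : 0 ≤ D := by linarith
      have hs0 : (0 : ℝ) ≤ (Real.sqrt 3 / 2) ^ l' := by positivity
      have hm0 : (0 : ℝ) ≤ 2 * (2 ^ k * (Real.sqrt 3 / 2) ^ k) := by positivity
      calc D * Real.exp (ε / 4 * k') * 2 ^ k' * (Real.sqrt 3 / 2) ^ l'
          ≤ D * Real.exp (ε * k / 4) *
              (2 * (2 ^ k * (Real.sqrt 3 / 2) ^ k) * Real.exp (ε * k / 2)) *
              (Real.sqrt 3 / 2) ^ l' := by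
            apply mul_le_mul_of_nonneg_right _ hs0
            apply mul_le_mul _ h6 (by positivity) (by positivity)
            exact mul_le_mul_of_nonneg_left h13 hD0
        _ = D * (2 * (2 ^ k * (Real.sqrt 3 / 2) ^ k)) *
              (Real.exp (ε * k / 4) * Real.exp (ε * k / 2)) * (Real.sqrt 3 / 2) ^ l' := by ring
        _ ≤ D * (2 * (2 ^ k * (Real.sqrt 3 / 2) ^ k)) * Real.exp (ε * k) *
              (Real.sqrt 3 / 2) ^ l' := by
            apply mul_le_mul_of_nonneg_right _ hs0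
            exact mul_le_mul_of_nonneg_left h14 (mul_nonneg hD0 hm0)
        _ = 2 * D * Real.exp (ε * k) * 2 ^ k * (Real.sqrt 3 / 2) ^ (k + l') := by
            rw [pow_add]
            ring

end Pool.Agent.Syr66
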