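import Pool.Agent.Lib.MP_529d88_nt.T1
import Pool.Agent.Lib.MP_529d88_nt.P1
import Pool.Agent.Lib.MP_529d88_nt.A1
import Pool.Agent.Lib.MP_529d88_nt.F4
import Pool.Agent.Lib.MP_529d88_nt.F6
import Pool.Agent.Lib.MP_529d88_nt.G3
import Pool.Agent.Lib.MP_529d88_nt.J4

section

section

set_option autoImplicit false

namespace Pool.Agent.Syr66

open Finset

/-- For fixed `j` let `A' = A.image (fun a => 2 ^ k * a % 3 ^ j)`, a subset of `range (3 ^ j)` with at most
`A.card` elements. A word with `q.1 = j` and `3 ^ j ∣ 2 ^ k a - q.2` is counted in `F α k j c` for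
`c = 2 ^ k a % 3 ^ j`, so the left side (before the power) is `≤ ∑ c ∈ A', F α k j c`; by the power mean
inequality (`Real.rpow_sum_le_const_mul_sum_rpow`) its `(1+s)`-th power is
`≤ A'.card ^ s * ∑ c ∈ A', F ^ (1+s)`, and `3 ^ (j s) * ∑ c < 3 ^ j, F α k j c ^ (1+s) ≤ Zq α k s`. -/
theorem level_bound {α : ℝ} (h0 : 0 < α) (h1 : α < 1) (k j : ℕ) (hj : j ≤ k) (A : Finset ℕ)
    (s : ℝ) (hs : 0 ≤ s) :
    (Ex α k (fun q => if q.1 = j ∧ ∃ a ∈ A, (3 : ℤ) ^ q.1 ∣ ((2 : ℤ) ^ k * a - q.2) then 1 else 0))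
        ^ (1 + s) ≤
      (A.card : ℝ) ^ s * (3 : ℝ) ^ (-((j : ℝ) * s)) * Zq α k s := by
  classical
  set A' : Finset ℕ := A.image (fun a => 2 ^ k * a % 3 ^ j) with hA'
  have hsub : A' ⊆ range (3 ^ j) := by
    intro c hc
    rw [hA', mem_image] at hc
    obtain ⟨a, _, rfl⟩ := hc
    exact mem_range.2 (Nat.mod_lt _ (by positivity))
  have hcard : (A'.card : ℝ) ≤ A.card := by exact_mod_cast card_image_le
  have hwt : ∀ q : ℕ, 0 ≤ wt α k q := fun q => by
    unfold wt
    have : 0 ≤ 1 - α := by linarith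
    positivity
  have hF : ∀ c : ℕ, 0 ≤ F α k j (c : ℤ) := fun c => F_nonneg h0 h1 k j c
  -- the level sum is bounded by the sum over `A'`
  have hle : Ex α k (fun q => if q.1 = j ∧ ∃ a ∈ A, (3 : ℤ) ^ q.1 ∣ ((2 : ℤ) ^ k * a - q.2)
      then 1 else 0) ≤ ∑ c ∈ A', F α k j (c : ℤ) := by
    unfold F Ex
    rw [sum_comm]
    refine sum_le_sum fun q _ => ?_
    rw [← mul_sum]
    refine mul_le_mul_of_nonneg_left ?_ (hwt _)
    dsimp only
    split_ifs with h
    · obtain ⟨hq, a, ha, hd⟩ := h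
      have hmem : 2 ^ k * a % 3 ^ j ∈ A' := by
        rw [hA']
        exact mem_image.2 ⟨a, ha, rfl⟩
      have hnn : ∀ c ∈ A', (0 : ℝ) ≤ if q.1 = j ∧ (3 : ℤ) ^ j ∣ (c : ℤ) - q.2 then 1 else 0 := by
        intro c _
        split_ifs <;> norm_num
      refine le_trans ?_ (single_le_sum hnn hmem)
      rw [if_pos]
      refine ⟨hq, ?_⟩
      rw [hq] at hd
      have e : (((2 ^ k * a % 3 ^ j : ℕ) : ℤ)) - q.2 =
          ((2 : ℤ) ^ k * a - q.2) - 3 ^ j * ((2 : ℤ) ^ k * a / 3 ^ j) := by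
        push_cast
        rw [Int.emod_def]
        ring
      rw [e]
      exact dvd_sub hd (Dvd.intro _ rfl)
    · exact sum_nonneg fun c _ => by split_ifs <;> norm_num
  have hnn : 0 ≤ Ex α k (fun q => if q.1 = j ∧ ∃ a ∈ A, (3 : ℤ) ^ q.1 ∣ ((2 : ℤ) ^ k * a - q.2)
      then 1 else 0) := by
    unfold Ex
    refine sum_nonneg fun q _ => mul_nonneg (hwt _) ?_
    dsimp only
    split_ifs <;> norm_num
  have hs1 : 0 ≤ 1 + s := by linarith
  have h2 : (∑ c ∈ A', F α k j (c : ℤ)) ^ (1 + s) ≤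
      (A'.card : ℝ) ^ s * ∑ c ∈ A', F α k j (c : ℤ) ^ (1 + s) := by
    have := Real.rpow_sum_le_const_mul_sum_rpow A' (fun c : ℕ => F α k j (c : ℤ))
      (p := 1 + s) (by linarith)
    simp only [abs_of_nonneg (hF _), add_sub_cancel_left] at this
    exact this
  have h3 : ∑ c ∈ A', F α k j (c : ℤ) ^ (1 + s) ≤
      ∑ c ∈ range (3 ^ j), F α k j (c : ℤ) ^ (1 + s) :=
    sum_le_sum_of_subset_of_nonneg hsub fun c _ _ => Real.rpow_nonneg (hF c) _
  have h4 : (3 : ℝ) ^ ((j : ℝ) * s) * ∑ c ∈ range (3 ^ j), F α k j (c : ℤ) ^ (1 + s) ≤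
      Zq α k s := by
    unfold Zq
    refine single_le_sum (f := fun j : ℕ => (3 : ℝ) ^ ((j : ℝ) * s) *
      ∑ c ∈ range (3 ^ j), F α k j (c : ℤ) ^ (1 + s)) (fun i _ => ?_)
      (mem_range.2 (Nat.lt_succ_of_le hj))
    refine mul_nonneg (Real.rpow_nonneg (by norm_num) _) (sum_nonneg fun c _ => ?_)
    exact Real.rpow_nonneg (F_nonneg h0 h1 k i c) _
  have h5 : ∑ c ∈ range (3 ^ j), F α k j (c : ℤ) ^ (1 + s) ≤
      (3 : ℝ) ^ (-((j : ℝ) * s)) * Zq α k s := by
    rw [Real.rpow_neg (by norm_num), inv_mul_eq_div, le_div_iff₀ (Real.rpow_pos_of_pos (by norm_num) _)]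
    rw [mul_comm]
    exact h4
  have hZ : 0 ≤ (3 : ℝ) ^ (-((j : ℝ) * s)) * Zq α k s :=
    le_trans (sum_nonneg fun c _ => Real.rpow_nonneg (hF c) _) h5
  calc _ ≤ (∑ c ∈ A', F α k j (c : ℤ)) ^ (1 + s) := Real.rpow_le_rpow hnn hle hs1
    _ ≤ (A'.card : ℝ) ^ s * ∑ c ∈ A', F α k j (c : ℤ) ^ (1 + s) := h2
    _ ≤ (A'.card : ℝ) ^ s * ((3 : ℝ) ^ (-((j : ℝ) * s)) * Zq α k s) := by
        refine mul_le_mul_of_nonneg_left (h3.trans h5) (Real.rpow_nonneg (by positivity) _)
    _ ≤ (A.card : ℝ) ^ s * ((3 : ℝ) ^ (-((j : ℝ) * s)) * Zq α k s) := by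
        refine mul_le_mul_of_nonneg_right ?_ hZ
        exact Real.rpow_le_rpow (by positivity) hcard hs
    _ = _ := by ring

end Pool.Agent.Syr66
end

section

set_option autoImplicit false

namespace Pool.Agent.Syr66

open Finset

/-- One scale. `Zq α L s = ∑ j, ∑ c, F * exp (s Y)` with `Y = j log 3 + log F` (`F > 0`). Since
`(min α (1-α)) ^ L ≤ F ≤ 1` (`F_pos_lower`, `F_le_M`, `M_le_one`), `|Y| ≤ B` for
`B = L * (log 3 - log (min α (1-α)))`. For `s B ≤ 1`: `exp (s Y) ≤ 1 + s Y + (s Y) ^ 2`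
(`Real.abs_exp_sub_one_sub_id_le`). So `Zq α L s ≤ 1 + s * E + s ^ 2 B ^ 2` with
`E = ∑ j, ∑ c, F * Y = α L log 3 + ∑ ∑ F log F` (`M_mean`) and
`∑ ∑ F log F = - Hc α L - ∑ j, negMulLog (M j) ≤ - Hc α L ≤ - (α log 3 - ε) L`, so `E ≤ ε L`.
Take `s` with `s B ≤ 1`, `s B ^ 2 ≤ ε L`: `Zq α L s ≤ 1 + 2 ε L s ≤ exp (2 ε s L)`. -/
theorem Zq_one {α : ℝ} (h0 : 0 < α) (h1 : α < 1) (ε : ℝ) (hε : 0 < ε) (L : ℕ) (hL : 0 < L)
    (hH : (α * Real.log 3 - ε) * L ≤ Hc α L) :
    ∃ s : ℝ, 0 < s ∧ s ≤ 1 ∧ Zq α L s ≤ Real.exp (2 * ε * s * L) := by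
  have hLr : (0 : ℝ) < L := by exact_mod_cast hL
  set m : ℝ := min α (1 - α) with hm
  have hm0 : 0 < m := lt_min h0 (by linarith)
  have hm1 : m < 1 := lt_of_le_of_lt (min_le_left _ _) h1
  have hlogm : Real.log m < 0 := Real.log_neg hm0 hm1
  have hlog3 : 0 < Real.log 3 := Real.log_pos (by norm_num)
  set B : ℝ := L * (Real.log 3 - Real.log m) with hB
  have hB0 : 0 < B := mul_pos hLr (by linarith)
  set s : ℝ := min 1 (min (1 / B) (ε * L / B ^ 2)) with hs
  have hs0 : 0 < s := lt_min one_pos (lt_min (by positivity) (by positivity))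
  have hs1 : s ≤ 1 := min_le_left _ _
  have hsB : s * B ≤ 1 := by
    have : s ≤ 1 / B := (min_le_right _ _).trans (min_le_left _ _)
    calc s * B ≤ 1 / B * B := mul_le_mul_of_nonneg_right this hB0.le
      _ = 1 := by field_simp
  have hsB2 : s * B ^ 2 ≤ ε * L := by
    have : s ≤ ε * L / B ^ 2 := (min_le_right _ _).trans (min_le_right _ _)
    calc s * B ^ 2 ≤ ε * L / B ^ 2 * B ^ 2 := mul_le_mul_of_nonneg_right this (by positivity)
      _ = ε * L := by field_simp
  refine ⟨s, hs0, hs1, ?_⟩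
  have hpt : ∀ (j : ℕ) (z : ℤ), j ≤ L →
      (3 : ℝ) ^ ((j : ℝ) * s) * (F α L j z) ^ (1 + s) ≤
        (1 + s ^ 2 * B ^ 2) * F α L j z + s * Real.log 3 * ((j : ℝ) * F α L j z) -
          s * Real.negMulLog (F α L j z) := by
    intro j z hj
    have a0 := F_nonneg h0 h1 L j z
    have a1 : F α L j z ≤ 1 := (F_le_M h0 h1 L j z).trans (M_le_one h0 h1 L j)
    rcases eq_or_lt_of_le a0 with h | h
    · rw [← h, Real.zero_rpow (by linarith), Real.negMulLog_zero]
      simp
    · have hlow := F_pos_lower h0 h1 L j z h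
      rw [← hm] at hlow
      have hlogF : Real.log (F α L j z) ≤ 0 := Real.log_nonpos a0 a1
      have hlogF2 : L * Real.log m ≤ Real.log (F α L j z) := by
        rw [← Real.log_pow]
        exact Real.log_le_log (by positivity) hlow
      have hjr : (j : ℝ) ≤ L := by exact_mod_cast hj
      have hj0 : (0 : ℝ) ≤ j := Nat.cast_nonneg j
      set Y : ℝ := j * Real.log 3 + Real.log (F α L j z) with hY
      have hYB : |Y| ≤ B := by
        rw [abs_le]
        constructor
        · rw [hB, hY]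
          nlinarith
        · rw [hB, hY]
          nlinarith
      have hsY : |s * Y| ≤ 1 := by
        rw [abs_mul, abs_of_pos hs0]
        exact (mul_le_mul_of_nonneg_left hYB hs0.le).trans hsB
      have hexp := (abs_le.mp (Real.abs_exp_sub_one_sub_id_le hsY)).2
      have hY2 : Y ^ 2 ≤ B ^ 2 := by
        rw [← sq_abs]
        exact pow_le_pow_left₀ (abs_nonneg _) hYB 2
      have hexp2 : Real.exp (s * Y) ≤ 1 + s * Y + s ^ 2 * B ^ 2 := by
        have : (s * Y) ^ 2 ≤ s ^ 2 * B ^ 2 := by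
          rw [mul_pow]
          exact mul_le_mul_of_nonneg_left hY2 (by positivity)
        linarith
      have e1 : (3 : ℝ) ^ ((j : ℝ) * s) * (F α L j z) ^ (1 + s) =
          F α L j z * Real.exp (s * Y) := by
        rw [Real.rpow_add h, Real.rpow_one, Real.rpow_def_of_pos (by norm_num : (0 : ℝ) < 3),
          Real.rpow_def_of_pos h, mul_left_comm, ← Real.exp_add]
        congr 2
        rw [hY]
        ring
      rw [e1]
      refine (mul_le_mul_of_nonneg_left hexp2 a0).trans (le_of_eq ?_)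
      rw [hY, Real.negMulLog]
      ring
  have hneg : ∀ j : ℕ, hh (range (3 ^ j)) (fun c => F α L j (c : ℤ)) ≤
      ∑ c ∈ range (3 ^ j), Real.negMulLog (F α L j (c : ℤ)) := by
    intro j
    unfold hh
    have : 0 ≤ Real.negMulLog (∑ c ∈ range (3 ^ j), F α L j (c : ℤ)) := by
      rw [F_sum]
      exact Real.negMulLog_nonneg (M_nonneg h0 h1 L j) (M_le_one h0 h1 L j)
    linarith
  have hmain : Zq α L s ≤ 1 + s ^ 2 * B ^ 2 + s * Real.log 3 * (α * L) - s * Hc α L := by
    calc Zq α L s = ∑ j ∈ range (L + 1), (3 : ℝ) ^ ((j : ℝ) * s) *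
        ∑ c ∈ range (3 ^ j), (F α L j (c : ℤ)) ^ (1 + s) := rfl
      _ ≤ ∑ j ∈ range (L + 1), ((1 + s ^ 2 * B ^ 2) * M α L j +
          s * Real.log 3 * ((j : ℝ) * M α L j) -
          s * hh (range (3 ^ j)) (fun c => F α L j (c : ℤ))) := by
          apply sum_le_sum
          intro j hj
          have hjL : j ≤ L := Nat.lt_succ_iff.mp (mem_range.mp hj)
          rw [mul_sum]
          have hsum := sum_le_sum (s := range (3 ^ j)) fun (c : ℕ) _ => hpt j (c : ℤ) hjL
          refine hsum.trans ?_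
          rw [sum_sub_distrib, sum_add_distrib, ← mul_sum, ← mul_sum, ← mul_sum, ← mul_sum, F_sum]
          have := mul_le_mul_of_nonneg_left (hneg j) hs0.le
          linarith
      _ = 1 + s ^ 2 * B ^ 2 + s * Real.log 3 * (α * L) - s * Hc α L := by
          rw [sum_sub_distrib, sum_add_distrib, ← mul_sum, ← mul_sum, ← mul_sum, M_sum, M_mean,
            mul_one]
          rfl
  have h5 : s * ((α * Real.log 3 - ε) * L) ≤ s * Hc α L := mul_le_mul_of_nonneg_left hH hs0.le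
  have h6 : s ^ 2 * B ^ 2 ≤ s * (ε * L) := by
    calc s ^ 2 * B ^ 2 = s * (s * B ^ 2) := by ring
      _ ≤ s * (ε * L) := mul_le_mul_of_nonneg_left hsB2 hs0.le
  have h7 := Real.add_one_le_exp (2 * ε * s * L)
  nlinarith

end Pool.Agent.Syr66
end
end

section

section

set_option autoImplicit false

namespace Pool.Agent.Syr66

open Finset

/-- The main inequality. Sum `hh_Ph_ge` over `j ≤ L` and use `sum_hh_Ph_le`. The bracket:
`∑ j, negMulLog (M j) ≤ log (L + 1)` (`hh_le` on `range (L+1)`, total mass `1`, `negMulLog 1 = 0`);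
`log (wt α L j) = j log α + (L - j) log (1 - α)` and `∑ j M j = α L` (`M_mean`), `∑ M j = 1`, so
`- ∑ j, M j * log (wt α L j) = L * bh α`; `∑ j, M j * j * log 3 = α L log 3`;
`∑ j, 2 exp (-κ) (L - j) M j ≤ 2 exp (-κ) L`. -/
theorem main_ineq {α : ℝ} (h0 : 0 < α) (h1 : α < 1) (L : ℕ)
    (κ δ : ℝ) (hκ : 1 ≤ κ) (hδ : 0 ≤ δ) (hi : ∀ i < L, hp α i ≤ Real.log 3 - δ) :
    Hc α L + ∑ j ∈ range (L + 1), M α L j * Hp α (L - j) +
      δ / (6 * κ) * (L * (bh α - α * Real.log 3 - 2 * Real.exp (-κ)) - Real.log (L + 1)) ≤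
    Hp α L := by
  have hc0 : 0 ≤ δ / (6 * κ) := by positivity
  -- the sum of the lower bounds
  have hsum := (Finset.sum_le_sum fun j (hj : j ∈ range (L + 1)) =>
    hh_Ph_ge h0 h1 L j (Nat.lt_succ_iff.mp (mem_range.mp hj)) κ δ hκ hδ hi).trans
    (sum_hh_Ph_le h0 h1 L)
  rw [Finset.sum_add_distrib, Finset.sum_add_distrib, ← Finset.mul_sum] at hsum
  have hM := M_sum (α := α) L
  have hmean := M_mean (α := α) L
  -- entropy of the law of `j`
  have hent : ∑ j ∈ range (L + 1), Real.negMulLog (M α L j) ≤ Real.log (L + 1) := by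
    have h := hh_le (range (L + 1)) (fun j => M α L j) (fun j _ => M_nonneg h0 h1 L j)
    unfold hh at h
    rw [hM, Real.negMulLog_one, sub_zero, one_mul, card_range] at h
    push_cast at h
    exact h
  have hlog : ∀ j ∈ range (L + 1), M α L j * Real.log (wt α L j) =
      (Real.log α - Real.log (1 - α)) * ((j : ℝ) * M α L j) +
        (L * Real.log (1 - α)) * M α L j := by
    intro j hj
    have hjL : j ≤ L := Nat.lt_succ_iff.mp (mem_range.mp hj)
    have h1' : (0 : ℝ) < 1 - α := by linarith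
    unfold wt
    rw [Real.log_mul (pow_pos h0 j).ne' (pow_pos h1' _).ne', Real.log_pow, Real.log_pow,
      Nat.cast_sub hjL]
    ring
  have hlogsum : ∑ j ∈ range (L + 1), M α L j * Real.log (wt α L j) = - (L * bh α) := by
    rw [Finset.sum_congr rfl hlog, Finset.sum_add_distrib, ← Finset.mul_sum, ← Finset.mul_sum,
      hM, hmean]
    unfold bh Real.negMulLog
    ring
  have hthree : ∑ j ∈ range (L + 1), M α L j * (j * Real.log 3) = α * L * Real.log 3 := by
    rw [← hmean, Finset.sum_mul]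
    refine Finset.sum_congr rfl fun j _ => ?_
    ring
  have hrest : ∑ j ∈ range (L + 1), 2 * Real.exp (-κ) * ((L - j : ℕ) : ℝ) * M α L j ≤
      2 * Real.exp (-κ) * L := by
    have h2 : ∀ j ∈ range (L + 1), 2 * Real.exp (-κ) * ((L - j : ℕ) : ℝ) * M α L j ≤
        2 * Real.exp (-κ) * L * M α L j := by
      intro j hj
      refine mul_le_mul_of_nonneg_right ?_ (M_nonneg h0 h1 L j)
      refine mul_le_mul_of_nonneg_left ?_ (by positivity)
      exact_mod_cast Nat.sub_le L j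
    refine (Finset.sum_le_sum h2).trans ?_
    rw [← Finset.mul_sum, hM, mul_one]
  have hbr : L * (bh α - α * Real.log 3 - 2 * Real.exp (-κ)) - Real.log (L + 1) ≤
      ∑ j ∈ range (L + 1), (-Real.negMulLog (M α L j) - M α L j * Real.log (wt α L j) -
        M α L j * (j * Real.log 3) - 2 * Real.exp (-κ) * ((L - j : ℕ) : ℝ) * M α L j) := by
    rw [Finset.sum_sub_distrib, Finset.sum_sub_distrib, Finset.sum_sub_distrib,
      Finset.sum_neg_distrib, hlogsum, hthree]
    nlinarith [hent, hrest]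
  have h3 := mul_le_mul_of_nonneg_left hbr hc0
  have h4 : ∑ j ∈ range (L + 1), hh (range (3 ^ j)) (fun c => F α L j (c : ℤ)) = Hc α L := rfl
  rw [h4] at hsum
  linarith

end Pool.Agent.Syr66
end

section

set_option autoImplicit false

namespace Pool.Agent.Syr66

open Finset

/-- The deficiency `m * h - Hp α m` is nondecreasing when `hp α i ≤ h`. -/
private theorem def_mono {α : ℝ} (h0 : 0 < α) (h1 : α < 1) (h : ℝ) (hle : ∀ i, hp α i ≤ h) :
    Monotone (fun m : ℕ => (m : ℝ) * h - Hp α m) := by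
  apply monotone_nat_of_le_succ
  intro m
  have e := Hp_succ h0 h1 m
  have l := hle m
  push_cast
  rw [e]
  linarith

/-- If `hp α i → h` then the deficiency is sublinear. -/
private theorem def_le {α : ℝ} (h0 : 0 < α) (h1 : α < 1) (h : ℝ) (hle : ∀ i, hp α i ≤ h)
    (hlim : Filter.Tendsto (hp α) Filter.atTop (nhds h)) (η : ℝ) (hη : 0 < η) :
    ∃ C : ℝ, 0 ≤ C ∧ ∀ m : ℕ, (m : ℝ) * h - Hp α m ≤ C + η * m := by
  have hmono := def_mono h0 h1 h hle
  obtain ⟨m₀, hm₀⟩ := Filter.eventually_atTop.1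
    (hlim.eventually (lt_mem_nhds (show h - η < h by linarith)))
  refine ⟨(m₀ : ℝ) * h - Hp α m₀, ?_, ?_⟩
  · have := hmono (Nat.zero_le m₀)
    simp only [Nat.cast_zero, zero_mul, Hp_zero h0 h1, sub_zero] at this
    exact this
  · have key : ∀ n : ℕ, ((m₀ + n : ℕ) : ℝ) * h - Hp α (m₀ + n) ≤
        ((m₀ : ℝ) * h - Hp α m₀) + η * n := by
      intro n
      induction n with
      | zero => simp
      | succ n ih =>
        have e := Hp_succ h0 h1 (m₀ + n)
        have l := hm₀ (m₀ + n) (Nat.le_add_right _ _)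
        have e2 : m₀ + (n + 1) = (m₀ + n) + 1 := by ring
        rw [e2, e]
        push_cast at ih ⊢
        nlinarith
    intro m
    rcases le_total m m₀ with hm | hm
    · have := hmono hm
      have hm' : (0 : ℝ) ≤ η * m := by positivity
      simp only at this
      linarith
    · obtain ⟨n, rfl⟩ := Nat.exists_eq_add_of_le hm
      have := key n
      have h3 : η * (n : ℝ) ≤ η * ((m₀ + n : ℕ) : ℝ) := by
        apply mul_le_mul_of_nonneg_left _ hη.le
        push_cast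
        have : (0 : ℝ) ≤ m₀ := Nat.cast_nonneg _
        linarith
      linarith

/-- The lower tail of the number of odd steps in terms of `M`. -/
private theorem M_tail {α : ℝ} (h0 : 0 < α) (h1 : α < 1) (ε : ℝ) (hε : 0 < ε) :
    ∃ c : ℝ, 0 < c ∧ ∀ L j₀ : ℕ, j₀ ≤ L → (j₀ : ℝ) ≤ (α - ε) * L →
      ∑ j ∈ range j₀, M α L j ≤ Real.exp (-(c * L)) := by
  obtain ⟨c, hc, hcb⟩ := lower_tail h0 h1 ε hε
  refine ⟨c, hc, fun L j₀ hj hj' => ?_⟩
  refine le_trans ?_ (hcb L)
  rw [← M_expect L (fun j => if (j : ℝ) ≤ (α - ε) * L then (1 : ℝ) else 0)]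
  have hsub : range j₀ ⊆ range (L + 1) := by
    intro x hx
    simp only [mem_range] at hx ⊢
    omega
  refine le_trans ?_ (Finset.sum_le_sum_of_subset_of_nonneg hsub ?_)
  · apply Finset.sum_le_sum
    intro j hj2
    have hj3 : j < j₀ := mem_range.1 hj2
    have : (j : ℝ) ≤ (α - ε) * L := by
      have : (j : ℝ) ≤ j₀ := by exact_mod_cast hj3.le
      linarith
    rw [if_pos this, one_mul]
  · intro j _ _
    have := M_nonneg h0 h1 L j
    split_ifs <;> simp [this]

/-- An affine-logarithmic upper bound cannot hold for a linear function. -/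
private theorem no_lin (a K0 K1 : ℝ) (ha : 0 < a) (hK1 : 0 < K1)
    (hb : ∀ L : ℕ, a * L ≤ K0 + K1 * Real.log (L + 1)) : False := by
  have hb2 : ∀ L : ℕ, a * L ≤ K0 + (a * ((L : ℝ) + 1) / 2 + K1 * Real.log (2 * K1 / a)) := by
    intro L
    have h2 := hb L
    have ht : (0 : ℝ) < 2 * K1 / a := by positivity
    have hL : (0 : ℝ) < (L : ℝ) + 1 := by positivity
    have h3 : Real.log ((L : ℝ) + 1) ≤ ((L : ℝ) + 1) / (2 * K1 / a) + Real.log (2 * K1 / a) := by
      have h4 := Real.log_le_sub_one_of_pos (show (0 : ℝ) < ((L : ℝ) + 1) / (2 * K1 / a) by positivity)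
      rw [Real.log_div hL.ne' ht.ne'] at h4
      linarith
    have h5 : K1 * Real.log ((L : ℝ) + 1) ≤
        K1 * (((L : ℝ) + 1) / (2 * K1 / a) + Real.log (2 * K1 / a)) :=
      mul_le_mul_of_nonneg_left h3 hK1.le
    have h6 : K1 * (((L : ℝ) + 1) / (2 * K1 / a) + Real.log (2 * K1 / a)) =
        a * ((L : ℝ) + 1) / 2 + K1 * Real.log (2 * K1 / a) := by
      field_simp
    linarith
  obtain ⟨L, hL⟩ := exists_nat_gt (2 / a * (K0 + a / 2 + K1 * Real.log (2 * K1 / a)))
  have h7 := hb2 L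
  have h8 : a / 2 * (2 / a * (K0 + a / 2 + K1 * Real.log (2 * K1 / a))) < a / 2 * L :=
    mul_lt_mul_of_pos_left hL (by positivity)
  have h9 : a / 2 * (2 / a * (K0 + a / 2 + K1 * Real.log (2 * K1 / a))) =
      K0 + a / 2 + K1 * Real.log (2 * K1 / a) := by
    field_simp
  rw [h9] at h8
  linarith

/-- `x exp (-c x) ≤ 1 / c`. -/
private theorem x_exp_le (c x : ℝ) (hc : 0 < c) : x * Real.exp (-(c * x)) ≤ 1 / c := by
  have h1 := Real.add_one_le_exp (c * x)
  have h2 : 0 < Real.exp (-(c * x)) := Real.exp_pos _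
  have h3 : Real.exp (c * x) * Real.exp (-(c * x)) = 1 := by
    rw [← Real.exp_add]; simp
  rw [le_div_iff₀ hc]
  have h4 : (c * x) * Real.exp (-(c * x)) ≤ Real.exp (c * x) * Real.exp (-(c * x)) :=
    mul_le_mul_of_nonneg_right (by linarith) h2.le
  rw [h3] at h4
  linarith

/-- The digit entropies tend to `log 3`. They are nondecreasing (`hp_mono`) and `≤ log 3`, so they
converge to `h = ⨆ i, hp α i`; put `δ = log 3 - h ≥ 0`, so `hp α i ≤ log 3 - δ` for all `i`. Suppose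
`δ > 0`. Choose `κ ≥ 1` with `2 exp (-κ) ≤ (bh α - α log 3) / 2 =: c₁`. Let
`R m = m * h - Hp α m = ∑ i < m, (h - hp α i) ≥ 0`: nondecreasing in `m` and `R m / m → 0` (Cesàro,
`Filter.Tendsto.cesaro`). For `ε > 0` and `j₀ = ⌊(α - ε) L⌋`: `main_ineq` and `Hc_ge` give
`Hp α j₀ - P * (j₀ log 3) - log (L+1) + ∑ j, M j * Hp α (L-j) + δ/(6κ) (L c₁ - log (L+1)) ≤ Hp α L ≤ L h`,
`P = ∑ j < j₀, M α L j ≤ exp (-c L)` (`lower_tail`, `M_expect`), `Hp α j₀ ≥ j₀ h - R L`,
`∑ j, M j * Hp α (L - j) ≥ h (1 - α) L - R L` (`M_mean`, `M_sum`). Divide by `L → ∞`: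
`h (α - ε) + h (1 - α) + δ c₁ / (6 κ) ≤ h`, i.e. `δ c₁ / (6 κ) ≤ h ε` for every `ε > 0`;
contradiction. -/
theorem tendsto_hp {α : ℝ} (h0 : 0 < α) (h1 : α < 1) (hα : α * Real.log 3 < bh α) :
    Filter.Tendsto (hp α) Filter.atTop (nhds (Real.log 3)) := by
  have hmono : Monotone (hp α) := monotone_nat_of_le_succ (hp_mono h0 h1)
  have hbdd : BddAbove (Set.range (hp α)) :=
    ⟨Real.log 3, by rintro _ ⟨i, rfl⟩; exact hp_le h0 h1 i⟩
  obtain ⟨h, hlim⟩ : ∃ h, Filter.Tendsto (hp α) Filter.atTop (nhds h) :=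
    ⟨_, tendsto_atTop_ciSup hmono hbdd⟩
  have hle : ∀ i, hp α i ≤ h := fun i => hmono.ge_of_tendsto hlim i
  have hlog : h ≤ Real.log 3 := le_of_tendsto' hlim (hp_le h0 h1)
  have hnn : 0 ≤ h := le_trans (hp_nonneg h0 h1 0) (hle 0)
  rcases hlog.eq_or_lt with he | hlt
  · rw [← he]; exact hlim
  exfalso
  -- parameters
  set δ : ℝ := Real.log 3 - h with hδ
  have hδ0 : 0 < δ := by rw [hδ]; linarith
  set c₁ : ℝ := (bh α - α * Real.log 3) / 2 with hc₁
  have hc₁0 : 0 < c₁ := by rw [hc₁]; linarith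
  obtain ⟨κ, hκ1, hκ2⟩ : ∃ κ : ℝ, 1 ≤ κ ∧ 2 * Real.exp (-κ) ≤ c₁ := by
    have ht : Filter.Tendsto (fun κ : ℝ => 2 * Real.exp (-κ)) Filter.atTop (nhds (2 * 0)) :=
      (Real.tendsto_exp_neg_atTop_nhds_zero).const_mul 2
    rw [mul_zero] at ht
    have h2 := (ht.eventually (gt_mem_nhds hc₁0)).and (Filter.eventually_ge_atTop (1 : ℝ))
    obtain ⟨κ, hk, hk1⟩ := h2.exists
    exact ⟨κ, hk1, hk.le⟩
  have hκ0 : 0 < κ := by linarith
  set g : ℝ := δ / (6 * κ) with hg
  have hg0 : 0 < g := by rw [hg]; positivity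
  -- choose ε and η
  obtain ⟨ε, hε0, hε1, hε2⟩ : ∃ ε : ℝ, 0 < ε ∧ ε ≤ α ∧ ε * h ≤ g * c₁ / 4 := by
    refine ⟨min α (g * c₁ / (4 * (h + 1))), ?_, min_le_left _ _, ?_⟩
    · apply lt_min h0
      positivity
    · have h3 : min α (g * c₁ / (4 * (h + 1))) * h ≤ g * c₁ / (4 * (h + 1)) * h :=
        mul_le_mul_of_nonneg_right (min_le_right _ _) hnn
      have h4 : g * c₁ / (4 * (h + 1)) * h ≤ g * c₁ / (4 * (h + 1)) * (h + 1) :=
        mul_le_mul_of_nonneg_left (by linarith) (by positivity)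
      have h5 : g * c₁ / (4 * (h + 1)) * (h + 1) = g * c₁ / 4 := by
        have : h + 1 ≠ 0 := by positivity
        field_simp
      linarith
  obtain ⟨C, hC0, hC⟩ := def_le h0 h1 h hle hlim (g * c₁ / 8) (by positivity)
  obtain ⟨c, hc0, hc⟩ := M_tail h0 h1 ε hε0
  have hdm := def_mono h0 h1 h hle
  have hlog3 : 0 < Real.log 3 := Real.log_pos (by norm_num)
  apply no_lin (g * c₁ / 2) (h + 2 * C + Real.log 3 * (1 / c)) (1 + g) (by positivity) (by positivity)
  intro L
  have hL0 : (0 : ℝ) ≤ L := Nat.cast_nonneg L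
  have hαε : 0 ≤ α - ε := by linarith
  set j₀ : ℕ := ⌊(α - ε) * L⌋₊ with hj₀
  have hj1 : (j₀ : ℝ) ≤ (α - ε) * L := Nat.floor_le (by positivity)
  have hj2 : (α - ε) * L < j₀ + 1 := Nat.lt_floor_add_one _
  have hj3 : (j₀ : ℝ) ≤ L := by
    have : (α - ε) * L ≤ 1 * L := mul_le_mul_of_nonneg_right (by linarith) hL0
    linarith
  have hj4 : j₀ ≤ L := by exact_mod_cast hj3
  have hmain := main_ineq h0 h1 L κ δ hκ1 hδ0.le (fun i _ => by
    have := hle i
    rw [hδ]; linarith)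
  have hHc := Hc_ge h0 h1 L j₀ hj4
  have hP := hc L j₀ hj4 hj1
  have hP0 : 0 ≤ ∑ j ∈ range j₀, M α L j := Finset.sum_nonneg (fun j _ => M_nonneg h0 h1 L j)
  have hRL := hC L
  -- lower bound for Hp at arguments ≤ L
  have hHp : ∀ m : ℕ, m ≤ L → (m : ℝ) * h - (C + g * c₁ / 8 * L) ≤ Hp α m := by
    intro m hm
    have := hdm hm
    simp only at this
    linarith
  have hHpL : Hp α L ≤ L * h := by
    have := hdm (Nat.zero_le L)
    simp only [Nat.cast_zero, zero_mul, Hp_zero h0 h1, sub_zero] at this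
    linarith
  -- the mean
  have hsum : h * ((1 - α) * L) - (C + g * c₁ / 8 * L) ≤
      ∑ j ∈ range (L + 1), M α L j * Hp α (L - j) := by
    have e1 := M_sum (α := α) L
    have e2 := M_mean (α := α) L
    have e3 : ∑ j ∈ range (L + 1), M α L j * (((L : ℝ) - j) * h - (C + g * c₁ / 8 * L)) =
        h * ((1 - α) * L) - (C + g * c₁ / 8 * L) := by
      have : ∀ j ∈ range (L + 1), M α L j * (((L : ℝ) - j) * h - (C + g * c₁ / 8 * L)) =
          (L * h - (C + g * c₁ / 8 * L)) * M α L j - h * ((j : ℝ) * M α L j) := by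
        intro j _; ring
      rw [Finset.sum_congr rfl this, Finset.sum_sub_distrib, ← Finset.mul_sum, ← Finset.mul_sum,
        e1, e2]
      ring
    rw [← e3]
    apply Finset.sum_le_sum
    intro j hj
    have hj5 : j ≤ L := by
      have := mem_range.1 hj
      omega
    apply mul_le_mul_of_nonneg_left _ (M_nonneg h0 h1 L j)
    have := hHp (L - j) (Nat.sub_le _ _)
    rw [Nat.cast_sub hj5] at this
    exact this
  have hHj := hHp j₀ hj4
  -- tail term
  have htail : (∑ j ∈ range j₀, M α L j) * (j₀ * Real.log 3) ≤ Real.log 3 * (1 / c) := by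
    have s1 : (∑ j ∈ range j₀, M α L j) * (j₀ * Real.log 3) ≤
        Real.exp (-(c * L)) * (L * Real.log 3) := by
      apply mul_le_mul hP _ (by positivity) (Real.exp_pos _).le
      exact mul_le_mul_of_nonneg_right hj3 hlog3.le
    have s2 := mul_le_mul_of_nonneg_left (x_exp_le c L hc0) hlog3.le
    linarith
  -- gain term
  have hgain : g * (L * c₁ - Real.log (L + 1)) ≤
      g * (L * (bh α - α * Real.log 3 - 2 * Real.exp (-κ)) - Real.log (L + 1)) := by
    apply mul_le_mul_of_nonneg_left _ hg0.le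
    have : L * c₁ ≤ L * (bh α - α * Real.log 3 - 2 * Real.exp (-κ)) := by
      apply mul_le_mul_of_nonneg_left _ hL0
      have : bh α - α * Real.log 3 = 2 * c₁ := by rw [hc₁]; ring
      rw [this]; linarith
    linarith
  have hjh : (α - ε) * L * h - h ≤ j₀ * h := by
    have := mul_le_mul_of_nonneg_right hj2.le hnn
    linarith
  have hεL : ε * h * L ≤ g * c₁ / 4 * L := mul_le_mul_of_nonneg_right hε2 hL0
  nlinarith [hmain, hHc, hHj, hsum, htail, hgain, hjh, hHpL, hεL]

end Pool.Agent.Syr66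
end

section

set_option autoImplicit false

namespace Pool.Agent.Syr66

open Finset

/-- Linear lower bound for `Hp` from a lower bound for the digit entropies. -/
private lemma f8_Hp_ge {α : ℝ} (h0 : 0 < α) (h1 : α < 1) (η : ℝ) (hη : 0 ≤ η) (N : ℕ)
    (hN : ∀ i : ℕ, N ≤ i → Real.log 3 - η ≤ hp α i) (m : ℕ) :
    m * (Real.log 3 - η) - N * Real.log 3 ≤ Hp α m := by
  have hl : 0 < Real.log 3 := Real.log_pos (by norm_num)
  rcases le_total m N with hm | hm
  · have hm' : (m : ℝ) ≤ N := by exact_mod_cast hm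
    have := Hp_nonneg h0 h1 m
    have h2 : (m : ℝ) * (Real.log 3 - η) ≤ N * Real.log 3 := by
      have h3 : (m : ℝ) * η ≥ 0 := by positivity
      have h4 : (m : ℝ) * Real.log 3 ≤ N * Real.log 3 := mul_le_mul_of_nonneg_right hm' hl.le
      nlinarith
    linarith
  · induction m, hm using Nat.le_induction with
    | base =>
      have := Hp_nonneg h0 h1 N
      have h3 : (N : ℝ) * η ≥ 0 := by positivity
      nlinarith
    | succ m hm ih =>
      rw [Hp_succ h0 h1]
      have := hN m hm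
      push_cast
      linarith

/-- `x * exp (-(c x)) ≤ 1 / c`. -/
private lemma f8_mul_exp {c x : ℝ} (hc : 0 < c) : x * Real.exp (-(c * x)) ≤ 1 / c := by
  have h1 : c * x ≤ Real.exp (c * x) := by linarith [Real.add_one_le_exp (c * x)]
  rw [Real.exp_neg, le_div_iff₀ hc, ← div_eq_mul_inv, div_mul_eq_mul_div,
    div_le_one (Real.exp_pos _)]
  linarith

/-- From `tendsto_hp`: `Hp α m / m → log 3` (Cesàro), then `Hc_ge` with
`j₀ = ⌊(α - ε') L⌋` and `lower_tail`. -/
theorem Hc_lower {α : ℝ} (h0 : 0 < α) (h1 : α < 1) (hα : α * Real.log 3 < bh α)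
    (ε : ℝ) (hε : 0 < ε) :
    ∃ L₀ : ℕ, ∀ L : ℕ, L₀ ≤ L → (α * Real.log 3 - ε) * L ≤ Hc α L := by
  have hl : 0 < Real.log 3 := Real.log_pos (by norm_num)
  have hl1 : 1 < Real.log 3 := by
    have := Real.exp_one_lt_d9
    rw [Real.lt_log_iff_exp_lt (by norm_num)]
    linarith
  have hl2 : Real.log 3 < 2 := by
    have h := Real.log_lt_sub_one_of_pos (show (0 : ℝ) < 3 by norm_num) (by norm_num)
    linarith
  set ε' : ℝ := min (α / 2) (ε / 8) with hε'
  have e1 : 0 < ε' := lt_min (by linarith) (by linarith)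
  have e2 : ε' ≤ α / 2 := min_le_left _ _
  have e3 : ε' ≤ ε / 8 := min_le_right _ _
  set η : ℝ := min (ε / 4) 1 with hη
  have n1 : 0 < η := lt_min (by linarith) (by norm_num)
  have n2 : η ≤ ε / 4 := min_le_left _ _
  have n3 : η ≤ 1 := min_le_right _ _
  obtain ⟨N, hN⟩ := Filter.eventually_atTop.1
    ((tendsto_hp h0 h1 hα).eventually (lt_mem_nhds (show Real.log 3 - η < Real.log 3 by linarith)))
  obtain ⟨c, hc, hP⟩ := lower_tail h0 h1 ε' e1
  set C : ℝ := (1 + N + 1 / c) * Real.log 3 + ε / 4 - 1 - Real.log (ε / 4) with hC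
  obtain ⟨L₀, hL₀⟩ := exists_nat_ge (4 * C / ε)
  refine ⟨L₀, fun L hL => ?_⟩
  have hLC : C ≤ ε / 4 * L := by
    have h2 : 4 * C / ε ≤ L := hL₀.trans (by exact_mod_cast hL)
    rw [div_le_iff₀ hε] at h2
    linarith
  have hL0 : (0 : ℝ) ≤ L := Nat.cast_nonneg L
  have ha : 0 < α - ε' := by linarith
  set j₀ : ℕ := ⌊(α - ε') * L⌋₊ with hj₀
  have j1 : (j₀ : ℝ) ≤ (α - ε') * L := Nat.floor_le (by positivity)
  have j2 : (α - ε') * L - 1 ≤ j₀ := by
    have := Nat.lt_floor_add_one ((α - ε') * L)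
    linarith
  have j3 : (j₀ : ℝ) ≤ L := by nlinarith
  have j4 : j₀ ≤ L := by exact_mod_cast j3
  have hge := Hc_ge h0 h1 L j₀ j4
  have hHp := f8_Hp_ge h0 h1 η n1.le N (fun i hi => (hN i hi).le) j₀
  -- the tail
  have hPle : ∑ j ∈ range j₀, M α L j ≤ Real.exp (-(c * L)) := by
    refine le_trans ?_ (hP L)
    rw [← M_expect (α := α) L (fun j => if (j : ℝ) ≤ (α - ε') * L then 1 else 0)]
    have h3 : ∑ j ∈ range j₀, M α L j =
        ∑ j ∈ range j₀, (if (j : ℝ) ≤ (α - ε') * L then 1 else 0) * M α L j := by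
      refine sum_congr rfl fun j hj => ?_
      have h4 : (j : ℝ) ≤ (α - ε') * L := by
        have : (j : ℝ) ≤ j₀ := by exact_mod_cast (mem_range.1 hj).le
        linarith
      rw [if_pos h4, one_mul]
    rw [h3]
    refine sum_le_sum_of_subset_of_nonneg (range_subset_range.2 (by omega)) fun j _ _ => ?_
    refine mul_nonneg ?_ (M_nonneg h0 h1 L j)
    split_ifs <;> norm_num
  have hP0 : 0 ≤ ∑ j ∈ range j₀, M α L j := sum_nonneg fun j _ => M_nonneg h0 h1 L j
  have hPj : (∑ j ∈ range j₀, M α L j) * (j₀ * Real.log 3) ≤ 1 / c * Real.log 3 := by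
    have h5 : (∑ j ∈ range j₀, M α L j) * (j₀ * Real.log 3) ≤
        Real.exp (-(c * L)) * (L * Real.log 3) :=
      mul_le_mul hPle (mul_le_mul_of_nonneg_right j3 hl.le) (by positivity) (Real.exp_pos _).le
    have h6 := mul_le_mul_of_nonneg_right (f8_mul_exp (c := c) (x := (L : ℝ)) hc) hl.le
    linarith
  -- the logarithm
  have hlog : Real.log ((L : ℝ) + 1) ≤ ε / 4 * (L + 1) - 1 - Real.log (ε / 4) := by
    have h7 := Real.log_le_sub_one_of_pos (show (0 : ℝ) < ε / 4 * (L + 1) by positivity)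
    rw [Real.log_mul (by positivity) (by positivity)] at h7
    linarith
  have h8 : ((α - ε') * L - 1) * (Real.log 3 - η) ≤ j₀ * (Real.log 3 - η) :=
    mul_le_mul_of_nonneg_right j2 (by linarith)
  have h9 : (α * Real.log 3 - ε / 2) * L ≤ (α - ε') * L * (Real.log 3 - η) := by
    have h10 : α * Real.log 3 - ε / 2 ≤ (α - ε') * (Real.log 3 - η) := by
      have h11 : ε' * Real.log 3 ≤ ε / 4 := by nlinarith
      have h12 : α * η ≤ ε / 4 := by nlinarith
      have h13 : 0 ≤ ε' * η := by positivity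
      nlinarith
    have := mul_le_mul_of_nonneg_right h10 hL0
    nlinarith
  nlinarith

end Pool.Agent.Syr66
end

section

set_option autoImplicit false

namespace Pool.Agent.Syr66

open Finset

private theorem G5_log (ε : ℝ) (hε : 0 < ε) (L₀ : ℕ) :
    ∃ L : ℕ, L₀ ≤ L ∧ 0 < L ∧ Real.log ((L : ℝ) + 1) ≤ ε * L := by
  have h1 : ∀ᶠ x : ℝ in Filter.atTop, ‖Real.log x‖ ≤ (ε / 2) * ‖x‖ :=
    (Asymptotics.isLittleO_iff.1 Real.isLittleO_log_id_atTop) (by positivity)
  have h2 : Filter.Tendsto (fun L : ℕ => (L : ℝ) + 1) Filter.atTop Filter.atTop :=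
    Filter.tendsto_atTop_add_const_right _ _ tendsto_natCast_atTop_atTop
  obtain ⟨L, hL1, hL2, hL3⟩ := ((h2.eventually h1).and
    ((Filter.eventually_ge_atTop L₀).and (Filter.eventually_ge_atTop 1))).exists
  refine ⟨L, hL2, hL3, ?_⟩
  have h3 : (1 : ℝ) ≤ L := by exact_mod_cast hL3
  rw [Real.norm_eq_abs, Real.norm_eq_abs, abs_of_nonneg (by linarith : (0 : ℝ) ≤ L + 1)] at hL1
  have h4 := le_abs_self (Real.log ((L : ℝ) + 1))
  nlinarith

/-- Choose `L` large (`Hc_lower`, with `ε / 3`, and `log (L + 1) ≤ (ε / 3) L`), `s` from `Zq_one`. By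
`Zq_mul` (`k = L`), `Zq α (L + l) s ≤ exp (s log (L+1)) * exp (2 (ε/3) s L) * Zq α l s ≤
exp (ε s L) * Zq α l s`. For `k = R L + l`, `l < L`: `Zq α k s ≤ exp (ε s R L) * Zq α l s` and
`Zq α l s ≤ 3 ^ (L s)` (`Zq_le`). -/
theorem Zq_small {α : ℝ} (h0 : 0 < α) (h1 : α < 1) (hα : α * Real.log 3 < bh α)
    (ε : ℝ) (hε : 0 < ε) :
    ∃ s : ℝ, 0 < s ∧ s ≤ 1 ∧ ∃ C : ℝ, 0 < C ∧ ∀ k : ℕ,
      Zq α k s ≤ C * Real.exp (ε * s * k) := by
  have hε3 : 0 < ε / 3 := by positivity
  obtain ⟨L₀, hL₀⟩ := Hc_lower h0 h1 hα (ε / 3) hε3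
  obtain ⟨L, hLL, hL, hlog⟩ := G5_log (ε / 3) hε3 L₀
  obtain ⟨s, hs, hs1, hZ⟩ := Zq_one h0 h1 (ε / 3) hε3 L hL (hL₀ L hLL)
  have hLr : (0 : ℝ) < L := by exact_mod_cast hL
  refine ⟨s, hs, hs1, (3 : ℝ) ^ ((L : ℝ) * s), by positivity, ?_⟩
  have hstep : ∀ l : ℕ, Zq α (L + l) s ≤ Real.exp (ε * s * L) * Zq α l s := by
    intro l
    have hz := Zq_nonneg h0 h1 l s
    have hp : ((L : ℝ) + 1) ^ s ≤ Real.exp (s * (ε / 3 * L)) := by
      rw [Real.rpow_def_of_pos (by linarith : (0 : ℝ) < L + 1)]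
      apply Real.exp_le_exp.2
      rw [mul_comm]
      exact mul_le_mul_of_nonneg_left hlog hs.le
    calc Zq α (L + l) s ≤ (L + 1 : ℝ) ^ s * Zq α L s * Zq α l s := Zq_mul h0 h1 L l s hs.le
      _ ≤ Real.exp (s * (ε / 3 * L)) * Real.exp (2 * (ε / 3) * s * L) * Zq α l s := by
          refine mul_le_mul_of_nonneg_right ?_ hz
          exact mul_le_mul hp hZ (Zq_nonneg h0 h1 L s) (Real.exp_nonneg _)
      _ = Real.exp (ε * s * L) * Zq α l s := by
          rw [← Real.exp_add]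
          congr 2
          ring
  have hiter : ∀ R l : ℕ, Zq α (R * L + l) s ≤ Real.exp (ε * s * (R * L)) * Zq α l s := by
    intro R
    induction R with
    | zero => intro l; simp
    | succ R ih =>
      intro l
      have e : (R + 1) * L + l = L + (R * L + l) := by ring
      rw [e]
      refine (hstep _).trans ?_
      refine (mul_le_mul_of_nonneg_left (ih l) (Real.exp_nonneg _)).trans (le_of_eq ?_)
      rw [← mul_assoc, ← Real.exp_add]
      congr 2
      push_cast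
      ring
  intro k
  have hk : k = (k / L) * L + k % L := (Nat.div_add_mod' k L).symm
  have hlt : k % L < L := Nat.mod_lt _ hL
  have h2 : Zq α k s ≤ Real.exp (ε * s * (((k / L : ℕ) : ℝ) * L)) * Zq α (k % L) s := by
    have := hiter (k / L) (k % L)
    rwa [← hk] at this
  have h3 : Zq α (k % L) s ≤ (3 : ℝ) ^ ((L : ℝ) * s) := by
    refine (Zq_le h0 h1 (k % L) s hs.le).trans ?_
    refine Real.rpow_le_rpow_of_exponent_le (by norm_num) ?_
    refine mul_le_mul_of_nonneg_right ?_ hs.le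
    exact_mod_cast hlt.le
  have h4 : Real.exp (ε * s * (((k / L : ℕ) : ℝ) * L)) ≤ Real.exp (ε * s * k) := by
    apply Real.exp_le_exp.2
    refine mul_le_mul_of_nonneg_left ?_ (by positivity)
    have : (k / L) * L ≤ k := Nat.div_mul_le_self k L
    exact_mod_cast this
  calc Zq α k s ≤ Real.exp (ε * s * (((k / L : ℕ) : ℝ) * L)) * Zq α (k % L) s := h2
    _ ≤ Real.exp (ε * s * k) * (3 : ℝ) ^ ((L : ℝ) * s) :=
        mul_le_mul h4 h3 (Zq_nonneg h0 h1 _ _) (Real.exp_nonneg _)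
    _ = _ := mul_comm _ _

end Pool.Agent.Syr66
end

section

set_option autoImplicit false

namespace Pool.Agent.Syr66

open Finset

/-- `(k + 1) * exp (- κ k) ≤ (1 + 2 / κ) * exp (- κ k / 2)`. -/
private theorem absorb (κ : ℝ) (hκ : 0 < κ) (k : ℕ) :
    ((k : ℝ) + 1) * Real.exp (-(κ * k)) ≤ (1 + 2 / κ) * Real.exp (-(κ / 2 * k)) := by
  have h1 : Real.exp (-(κ * k)) = Real.exp (-(κ / 2 * k)) * Real.exp (-(κ / 2 * k)) := by
    rw [← Real.exp_add]; congr 1; ring
  have hE := Real.exp_pos (-(κ / 2 * k))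
  have hk : (0 : ℝ) ≤ κ / 2 * k := by positivity
  have h2 : Real.exp (-(κ / 2 * k)) ≤ 1 := Real.exp_le_one_iff.mpr (by linarith)
  have h3 : (κ / 2 * k) * Real.exp (-(κ / 2 * k)) ≤ 1 := by
    rw [Real.exp_neg, ← div_eq_mul_inv, div_le_one (Real.exp_pos _)]
    have := Real.add_one_le_exp (κ / 2 * k)
    linarith
  have h4 : (k : ℝ) * Real.exp (-(κ / 2 * k)) ≤ 2 / κ := by
    have : (k : ℝ) * Real.exp (-(κ / 2 * k)) = 2 / κ * ((κ / 2 * k) * Real.exp (-(κ / 2 * k))) := by
      field_simp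
    rw [this]
    calc 2 / κ * ((κ / 2 * k) * Real.exp (-(κ / 2 * k))) ≤ 2 / κ * 1 := by
          apply mul_le_mul_of_nonneg_left h3; positivity
      _ = 2 / κ := by ring
  rw [h1, ← mul_assoc]
  apply mul_le_mul_of_nonneg_right _ hE.le
  nlinarith

/-- The stage lemma. Let `ε₁ = α η / 4` and `s, C` from `Zq_small` with `ε = α η log 3 / 4`. Words with
`q.1 ≤ (α - ε₁) k` have total weight `≤ exp (-c k)` (`lower_tail`). For each other `j ≤ k`,
`level_bound` gives (weight)`^(1+s) ≤ exp (s * (α (1-η) log 3 k - (α - ε₁) log 3 k)) * C exp (ε s k)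
= C exp (- α η log 3 * s k / 2)`, so the weight is `≤ C' exp (- α η log 3 * s k / (2 (1+s)))`. Sum over the
at most `k + 1` values of `j` and absorb `k + 1` in the exponential
(`(k + 1) * exp (- 2 c k) ≤ C'' * exp (- c k)`). -/
theorem stage {α : ℝ} (h0 : 0 < α) (h1 : α < 1) (hα : α * Real.log 3 < bh α)
    (η : ℝ) (hη : 0 < η) :
    ∃ c : ℝ, 0 < c ∧ ∃ C : ℝ, 0 < C ∧ ∀ (k : ℕ) (A : Finset ℕ),
      (A.card : ℝ) ≤ Real.exp (α * (1 - η) * Real.log 3 * k) →
      Ex α k (fun q => if ∃ a ∈ A, (3 : ℤ) ^ q.1 ∣ ((2 : ℤ) ^ k * a - q.2) then 1 else 0) ≤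
        C * Real.exp (-(c * k)) := by
  have hl3 : 0 < Real.log 3 := Real.log_pos (by norm_num)
  obtain ⟨s, hs, hs1, C, hC, hZ⟩ := Zq_small h0 h1 hα (α * η * Real.log 3 / 4) (by positivity)
  obtain ⟨c0, hc0, hlow⟩ := lower_tail h0 h1 (α * η / 4) (by positivity)
  have hs1' : 0 < 1 + s := by linarith
  obtain ⟨κ, hκ⟩ : ∃ κ : ℝ, κ = α * η * Real.log 3 / 2 * s / (1 + s) := ⟨_, rfl⟩
  have hκ0 : 0 < κ := by rw [hκ]; positivity
  obtain ⟨C', hC'⟩ : ∃ C' : ℝ, C' = C ^ (1 / (1 + s)) := ⟨_, rfl⟩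
  have hC'0 : 0 < C' := by rw [hC']; exact Real.rpow_pos_of_pos hC _
  refine ⟨min c0 (κ / 2), lt_min hc0 (by positivity), 1 + C' * (1 + 2 / κ), by positivity, ?_⟩
  intro k A hA
  have hX : ∀ j : ℕ, j ≤ k → (α - α * η / 4) * k < (j : ℝ) →
      Ex α k (fun q => if q.1 = j ∧ ∃ a ∈ A, (3 : ℤ) ^ q.1 ∣ ((2 : ℤ) ^ k * a - q.2) then 1 else 0)
        ≤ C' * Real.exp (-(κ * k)) := by
    intro j hj hjk
    have hlb := level_bound h0 h1 k j hj A s hs.le
    obtain ⟨X, hXdef⟩ : ∃ X : ℝ, X = Ex α k (fun q => if q.1 = j ∧ ∃ a ∈ A,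
      (3 : ℤ) ^ q.1 ∣ ((2 : ℤ) ^ k * a - q.2) then 1 else 0) := ⟨_, rfl⟩
    have hX0 : 0 ≤ X := by
      rw [hXdef]
      apply Ex_nonneg h0.le h1.le
      intro q _
      split_ifs <;> norm_num
    rw [← hXdef] at hlb ⊢
    have hZk := hZ k
    have hA' : (A.card : ℝ) ^ s ≤ Real.exp (α * (1 - η) * Real.log 3 * k * s) := by
      rw [Real.exp_mul]
      exact Real.rpow_le_rpow (by positivity) hA hs.le
    have h3 : (3 : ℝ) ^ (-((j : ℝ) * s)) = Real.exp (-(Real.log 3 * j * s)) := by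
      rw [Real.rpow_def_of_pos (by norm_num)]
      congr 1; ring
    have hZ0 : 0 ≤ Zq α k s ∨ Zq α k s < 0 := le_or_gt _ _
    have hb : X ^ (1 + s) ≤ C * Real.exp (-(α * η * Real.log 3 / 2 * s * k)) := by
      have hXs : 0 ≤ X ^ (1 + s) := Real.rpow_nonneg hX0 _
      calc X ^ (1 + s) ≤ (A.card : ℝ) ^ s * (3 : ℝ) ^ (-((j : ℝ) * s)) * Zq α k s := hlb
        _ ≤ (A.card : ℝ) ^ s * (3 : ℝ) ^ (-((j : ℝ) * s)) *
              (C * Real.exp (α * η * Real.log 3 / 4 * s * k)) := by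
            apply mul_le_mul_of_nonneg_left hZk
            positivity
        _ ≤ Real.exp (α * (1 - η) * Real.log 3 * k * s) * (3 : ℝ) ^ (-((j : ℝ) * s)) *
              (C * Real.exp (α * η * Real.log 3 / 4 * s * k)) := by
            gcongr
        _ = C * Real.exp (α * (1 - η) * Real.log 3 * k * s + -(Real.log 3 * j * s) +
              α * η * Real.log 3 / 4 * s * k) := by
            rw [h3, Real.exp_add, Real.exp_add]; ring
        _ ≤ C * Real.exp (-(α * η * Real.log 3 / 2 * s * k)) := by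
            apply mul_le_mul_of_nonneg_left _ hC.le
            apply Real.exp_le_exp.mpr
            have h5 : (α - α * η / 4) * k * (Real.log 3 * s) ≤ (j : ℝ) * (Real.log 3 * s) :=
              mul_le_mul_of_nonneg_right hjk.le (by positivity)
            nlinarith
    have hroot : X = (X ^ (1 + s)) ^ (1 / (1 + s)) := by
      rw [← Real.rpow_mul hX0]
      rw [show (1 + s) * (1 / (1 + s)) = 1 by field_simp]
      rw [Real.rpow_one]
    rw [hroot]
    calc (X ^ (1 + s)) ^ (1 / (1 + s))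
        ≤ (C * Real.exp (-(α * η * Real.log 3 / 2 * s * k))) ^ (1 / (1 + s)) := by
          apply Real.rpow_le_rpow (Real.rpow_nonneg hX0 _) hb
          positivity
      _ = C' * Real.exp (-(κ * k)) := by
          rw [Real.mul_rpow hC.le (Real.exp_pos _).le, ← hC', ← Real.exp_mul, hκ]
          congr 2
          field_simp
  have hpt : ∀ q ∈ W k,
      (if ∃ a ∈ A, (3 : ℤ) ^ q.1 ∣ ((2 : ℤ) ^ k * a - q.2) then (1 : ℝ) else 0) ≤
        (if (q.1 : ℝ) ≤ (α - α * η / 4) * k then (1 : ℝ) else 0) +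
        ∑ j ∈ (range (k + 1)).filter (fun j : ℕ => (α - α * η / 4) * k < (j : ℝ)),
          (if q.1 = j ∧ ∃ a ∈ A, (3 : ℤ) ^ q.1 ∣ ((2 : ℤ) ^ k * a - q.2) then (1 : ℝ) else 0) := by
    intro q hq
    have hnn : ∀ j ∈ (range (k + 1)).filter (fun j : ℕ => (α - α * η / 4) * k < (j : ℝ)),
        (0 : ℝ) ≤ (if q.1 = j ∧ ∃ a ∈ A, (3 : ℤ) ^ q.1 ∣ ((2 : ℤ) ^ k * a - q.2)
          then (1 : ℝ) else 0) := by
      intro j _
      split_ifs <;> norm_num
    by_cases hle : (q.1 : ℝ) ≤ (α - α * η / 4) * k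
    · rw [if_pos hle]
      have h6 := Finset.sum_nonneg hnn
      split_ifs
      · linarith
      · linarith
    · rw [if_neg hle]
      have hle' : (α - α * η / 4) * k < (q.1 : ℝ) := lt_of_not_ge hle
      have hmem : q.1 ∈ (range (k + 1)).filter (fun j : ℕ => (α - α * η / 4) * k < (j : ℝ)) := by
        rw [Finset.mem_filter, Finset.mem_range]
        exact ⟨Nat.lt_succ_of_le (W_fst_le hq), hle'⟩
      have h7 := Finset.single_le_sum hnn hmem
      by_cases hex : ∃ a ∈ A, (3 : ℤ) ^ q.1 ∣ ((2 : ℤ) ^ k * a - q.2)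
      · rw [if_pos hex]
        rw [if_pos ⟨rfl, hex⟩] at h7
        linarith
      · rw [if_neg hex]
        have h6 := Finset.sum_nonneg hnn
        linarith
  have hmain : Ex α k (fun q => if ∃ a ∈ A, (3 : ℤ) ^ q.1 ∣ ((2 : ℤ) ^ k * a - q.2)
      then 1 else 0) ≤ Real.exp (-(c0 * k)) + ((k : ℝ) + 1) * (C' * Real.exp (-(κ * k))) := by
    refine le_trans (Ex_mono h0.le h1.le k _ _ hpt) ?_
    rw [Ex_add', Ex_sum]
    apply add_le_add (hlow k)
    calc ∑ j ∈ (range (k + 1)).filter (fun j : ℕ => (α - α * η / 4) * k < (j : ℝ)),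
          Ex α k (fun q => if q.1 = j ∧ ∃ a ∈ A, (3 : ℤ) ^ q.1 ∣ ((2 : ℤ) ^ k * a - q.2)
            then (1 : ℝ) else 0)
        ≤ ∑ j ∈ (range (k + 1)).filter (fun j : ℕ => (α - α * η / 4) * k < (j : ℝ)),
            C' * Real.exp (-(κ * k)) := by
          apply Finset.sum_le_sum
          intro j hj
          rw [Finset.mem_filter, Finset.mem_range] at hj
          exact hX j (Nat.le_of_lt_succ hj.1) hj.2
      _ = (((range (k + 1)).filter (fun j : ℕ => (α - α * η / 4) * k < (j : ℝ))).card : ℝ) *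
            (C' * Real.exp (-(κ * k))) := by
          rw [Finset.sum_const, nsmul_eq_mul]
      _ ≤ ((k : ℝ) + 1) * (C' * Real.exp (-(κ * k))) := by
          apply mul_le_mul_of_nonneg_right _ (by positivity)
          have h8 := Finset.card_filter_le (range (k + 1))
            (fun j : ℕ => (α - α * η / 4) * k < (j : ℝ))
          rw [Finset.card_range] at h8
          exact_mod_cast h8
  refine le_trans hmain ?_
  have hk0 : (0 : ℝ) ≤ k := Nat.cast_nonneg k
  have e1 : Real.exp (-(c0 * k)) ≤ Real.exp (-(min c0 (κ / 2) * k)) := by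
    apply Real.exp_le_exp.mpr
    have := mul_le_mul_of_nonneg_right (min_le_left c0 (κ / 2)) hk0
    linarith
  have e2 : Real.exp (-(κ / 2 * k)) ≤ Real.exp (-(min c0 (κ / 2) * k)) := by
    apply Real.exp_le_exp.mpr
    have := mul_le_mul_of_nonneg_right (min_le_right c0 (κ / 2)) hk0
    linarith
  have e3 := absorb κ hκ0 k
  have e4 : ((k : ℝ) + 1) * (C' * Real.exp (-(κ * k))) ≤
      C' * (1 + 2 / κ) * Real.exp (-(min c0 (κ / 2) * k)) := by
    calc ((k : ℝ) + 1) * (C' * Real.exp (-(κ * k)))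
        = C' * (((k : ℝ) + 1) * Real.exp (-(κ * k))) := by ring
      _ ≤ C' * ((1 + 2 / κ) * Real.exp (-(κ / 2 * k))) := by
          apply mul_le_mul_of_nonneg_left e3 hC'0.le
      _ = C' * (1 + 2 / κ) * Real.exp (-(κ / 2 * k)) := by ring
      _ ≤ C' * (1 + 2 / κ) * Real.exp (-(min c0 (κ / 2) * k)) := by
          apply mul_le_mul_of_nonneg_left e2
          positivity
  calc Real.exp (-(c0 * k)) + ((k : ℝ) + 1) * (C' * Real.exp (-(κ * k)))
      ≤ Real.exp (-(min c0 (κ / 2) * k)) +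
          C' * (1 + 2 / κ) * Real.exp (-(min c0 (κ / 2) * k)) := add_le_add e1 e4
    _ = (1 + C' * (1 + 2 / κ)) * Real.exp (-(min c0 (κ / 2) * k)) := by ring

end Pool.Agent.Syr66
end

section

set_option autoImplicit false

namespace Pool.Agent.Syr66

open Finset

/-- Stage lemma for counts: if `T^[k] n = a ∈ A` then `2 ^ k * a = 3 ^ q.1 * n + q.2` for
`q = enc k n` (`enc_spec`), so `3 ^ q.1 ∣ 2 ^ k * a - q.2`. Apply `stage` with `α = 1/2`
(`bh (1/2) = log 2 > (1/2) log 3`) and `count_half`. -/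
theorem stage_count (η : ℝ) (hη : 0 < η) :
    ∃ c : ℝ, 0 < c ∧ ∃ C : ℝ, 0 < C ∧ ∀ (k : ℕ) (A : Finset ℕ),
      (A.card : ℝ) ≤ Real.exp ((1 - η) * (Real.log 3 / 2) * k) →
      (((range (2 ^ k)).filter (fun n => T^[k] n ∈ A)).card : ℝ) ≤
        C * 2 ^ k * Real.exp (-(c * k)) := by
  have hbh : (1 / 2 : ℝ) * Real.log 3 < bh (1 / 2) := by
    have h1 : bh (1 / 2) = Real.log 2 := by
      unfold bh Real.negMulLog
      rw [show (1 : ℝ) - 1 / 2 = 1 / 2 by norm_num]
      rw [show (1 / 2 : ℝ) = 2⁻¹ by norm_num, Real.log_inv]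
      ring
    rw [h1]
    have h2 : Real.log 3 < Real.log 4 := Real.log_lt_log (by norm_num) (by norm_num)
    have h3 : Real.log 4 = 2 * Real.log 2 := by
      rw [show (4 : ℝ) = 2 ^ 2 by norm_num, Real.log_pow]; norm_num
    linarith
  obtain ⟨c, hc, C, hC, hst⟩ := stage (α := 1 / 2) (by norm_num) (by norm_num) hbh η hη
  refine ⟨c, hc, C, hC, ?_⟩
  intro k A hA
  have hA' : (A.card : ℝ) ≤ Real.exp (1 / 2 * (1 - η) * Real.log 3 * k) := by
    refine le_trans hA (le_of_eq ?_)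
    congr 1; ring
  have h := hst k A hA'
  have hcount := count_half k (fun q => ∃ a ∈ A, (3 : ℤ) ^ q.1 ∣ ((2 : ℤ) ^ k * a - q.2))
  have hsub : (range (2 ^ k)).filter (fun n => T^[k] n ∈ A) ⊆
      (range (2 ^ k)).filter (fun n => ∃ a ∈ A,
        (3 : ℤ) ^ (enc k n).1 ∣ ((2 : ℤ) ^ k * a - (enc k n).2)) := by
    intro n hn
    rw [Finset.mem_filter] at hn ⊢
    refine ⟨hn.1, T^[k] n, hn.2, ?_⟩
    have hs := enc_spec k n
    refine ⟨(n : ℤ), ?_⟩
    have hs' : (2 : ℤ) ^ k * (T^[k] n : ℕ) = 3 ^ (enc k n).1 * n + (enc k n).2 := by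
      exact_mod_cast hs
    rw [hs']; ring
  have hcard : (((range (2 ^ k)).filter (fun n => T^[k] n ∈ A)).card : ℝ) ≤
      (((range (2 ^ k)).filter (fun n => ∃ a ∈ A,
        (3 : ℤ) ^ (enc k n).1 ∣ ((2 : ℤ) ^ k * a - (enc k n).2))).card : ℝ) := by
    exact_mod_cast Finset.card_le_card hsub
  refine le_trans hcard ?_
  rw [hcount]
  calc (2 : ℝ) ^ k * Ex (1 / 2) k (fun q => if ∃ a ∈ A,
          (3 : ℤ) ^ q.1 ∣ ((2 : ℤ) ^ k * a - q.2) then 1 else 0)
      ≤ (2 : ℝ) ^ k * (C * Real.exp (-(c * k))) := by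
        apply mul_le_mul_of_nonneg_left h; positivity
    _ = C * 2 ^ k * Real.exp (-(c * k)) := by ring

end Pool.Agent.Syr66
end

section

set_option autoImplicit false

namespace Pool.Agent.Syr66

open Finset

private theorem Nice_zero {ε : ℝ} (hε : 0 < ε) (k n : ℕ) (hn : n < 2 ^ k) : Nice 0 ε 1 k n := by
  intro i hi
  rw [tt_zero, zero_mul] at hi
  have hi0 : i = 0 := by
    have : (i : ℝ) ≤ ((0 : ℕ) : ℝ) := by simpa using hi
    exact Nat.le_zero.mp (by exact_mod_cast this)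
  subst hi0
  have hk : (0 : ℝ) ≤ (k : ℝ) := Nat.cast_nonneg k
  have hn' : (n : ℝ) ≤ 2 ^ k := by exact_mod_cast hn.le
  constructor
  · simp only [enc, Nat.cast_zero, zero_div, sub_zero, abs_zero]
    positivity
  · simp only [Function.iterate_zero, id, pow_zero, mul_one, one_mul]
    have h1 : (1 : ℝ) ≤ Real.exp (ε * k) := Real.one_le_exp (by positivity)
    have h2 : (0 : ℝ) ≤ 2 ^ k := by positivity
    nlinarith

open Classical in
/-- The combination of the two bounds for a fixed `k`. -/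
private theorem bad_card_le (r : ℕ) {ε u e D : ℝ} (hε : 0 < ε) (hu : 0 ≤ u) (hu1 : u ≤ 1 / 4)
    (hu2 : u ≤ ε / 2) (he : 0 ≤ e) (he1 : e ≤ ε / 4) (he2 : e ≤ u / 2) (hD : 1 ≤ D) (k : ℕ) :
    (((range (2 ^ k)).filter (fun n => ¬ Nice (r + 1) ε (2 * D) k n)).card : ℝ) ≤
      (((range (2 ^ k)).filter (fun n => ∃ i ∈ range (k + 1),
        e * k < |((enc i n).1 : ℝ) - i / 2|)).card : ℝ) +
      (((range (2 ^ k)).filter (fun n => T^[k] n ∈
        (range (2 ^ ⌈th * (1 + u) * k⌉₊)).filter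
          (fun y => ¬ Nice r (ε / 4) D ⌈th * (1 + u) * k⌉₊ y))).card : ℝ) := by
  have hk : (0 : ℝ) ≤ (k : ℝ) := Nat.cast_nonneg k
  rw [← Nat.cast_add, Nat.cast_le]
  refine le_trans (card_le_card ?_) (card_union_le _ _)
  intro n hn
  rw [mem_filter] at hn
  obtain ⟨hn, hbad⟩ := hn
  simp only [mem_union, mem_filter]
  by_cases hdev : ∃ i ∈ range (k + 1), e * k < |((enc i n).1 : ℝ) - i / 2|
  · left
    exact ⟨hn, hdev⟩
  · right
    push Not at hdev
    refine ⟨hn, ?_⟩
    have hn' := mem_range.mp hn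
    have hkk := hdev k (mem_range.mpr (Nat.lt_succ_self k))
    refine ⟨mem_range.mpr (T_lt_next hu k n hn' (hkk.trans ?_)), ?_⟩
    · exact mul_le_mul_of_nonneg_right he2 hk
    · intro hnice
      exact hbad (Nice_succ r hε hu hu1 hu2 he he1 hD k n hn' hdev hnice)

open Classical in
/-- Induction on `r`. For `r = 0` only `i = 0` occurs and no `n < 2 ^ k` is bad (`D = 1`). Step: the
hypothesis for `r`, `ε / 4` gives `D, c, C`; we may assume `c < log 2`. Put `c' = c / log 2`,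
`u = min (c' / 4) (min (1 / 4) (ε / 2))`, `e = min (ε / 4) (u / 2)`, `k' = ⌈θ (1 + u) k⌉`. A bad
`n < 2 ^ k` (for `r + 1`, `ε`, `2 D`) is, by `T_lt_next` and `Nice_succ`, either in the deviation set of
`dev_count e`, or `T^[k] n` lies in `A = {y < 2 ^ k' : ¬ Nice r (ε / 4) D k' y}`, with
`A.card ≤ C * 2 ^ k' * exp (- c k') = C * exp ((1 - c') log 2 * k')` and
`k' ≤ θ (1 + c'/4) k + 1`, `θ log 2 = log 3 / 2`, `(1 - c') (1 + c' / 4) ≤ 1 - c' / 2`, so
`A.card ≤ exp ((1 - c' / 4) (log 3 / 2) k)` for `k ≥ k₀`: apply `stage_count (c' / 4)`. For `k < k₀` use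
the trivial bound `2 ^ k` and a larger constant. -/
theorem Nice_count (r : ℕ) (ε : ℝ) (hε : 0 < ε) :
    ∃ D : ℝ, 1 ≤ D ∧ ∃ c : ℝ, 0 < c ∧ ∃ C : ℝ, 0 < C ∧ ∀ k : ℕ,
      (((range (2 ^ k)).filter (fun n => ¬ Nice r ε D k n)).card : ℝ) ≤
        C * 2 ^ k * Real.exp (-(c * k)) := by
  induction r generalizing ε with
  | zero =>
    refine ⟨1, le_rfl, 1, one_pos, 1, one_pos, fun k => ?_⟩
    have h0 : (range (2 ^ k)).filter (fun n => ¬ Nice 0 ε 1 k n) = ∅ := by
      rw [filter_eq_empty_iff]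
      intro n hn
      rw [not_not]
      exact Nice_zero hε k n (mem_range.mp hn)
    rw [h0, card_empty, Nat.cast_zero]
    positivity
  | succ r ih =>
    obtain ⟨D, hD, c₀, hc₀, C₀, hC₀, hcount⟩ := ih (ε / 4) (by positivity)
    have hlog2 : 0 < Real.log 2 := Real.log_pos one_lt_two
    have hlog3 : 0 < Real.log 3 := Real.log_pos (by norm_num)
    -- the parameters
    set c : ℝ := min c₀ (Real.log 2 / 2) with hc
    have hcpos : 0 < c := lt_min hc₀ (by positivity)
    have hclt : c < Real.log 2 := lt_of_le_of_lt (min_le_right _ _) (by linarith)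
    set c' : ℝ := c / Real.log 2 with hc'
    have hc'pos : 0 < c' := div_pos hcpos hlog2
    have hc'lt : c' < 1 := (div_lt_one hlog2).mpr hclt
    set u : ℝ := min (c' / 4) (min (1 / 4) (ε / 2)) with hu
    have hupos : 0 < u := lt_min (by positivity) (lt_min (by norm_num) (by positivity))
    have hu0 : u ≤ c' / 4 := min_le_left _ _
    have hu1 : u ≤ 1 / 4 := (min_le_right _ _).trans (min_le_left _ _)
    have hu2 : u ≤ ε / 2 := (min_le_right _ _).trans (min_le_right _ _)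
    set e : ℝ := min (ε / 4) (u / 2) with he
    have hepos : 0 < e := lt_min (by positivity) (by positivity)
    have he1 : e ≤ ε / 4 := min_le_left _ _
    have he2 : e ≤ u / 2 := min_le_right _ _
    obtain ⟨c₁, hc₁, C₁, hC₁, hstage⟩ := stage_count (c' / 4) (by positivity)
    obtain ⟨c₂, hc₂, C₂, hC₂, hdev⟩ := dev_count e hepos
    -- the threshold
    set a : ℝ := c' / 4 * (Real.log 3 / 2) with ha
    have hapos : 0 < a := by positivity
    obtain ⟨k₀, hk₀⟩ := exists_nat_ge (Real.log (C₀ * 2) / a)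
    set c₃ : ℝ := min c₁ c₂ with hc₃
    have hc₃pos : 0 < c₃ := lt_min hc₁ hc₂
    refine ⟨2 * D, by linarith, c₃, hc₃pos, C₁ + C₂ + Real.exp (c₃ * k₀), by positivity,
      fun k => ?_⟩
    have hk0 : (0 : ℝ) ≤ (k : ℝ) := Nat.cast_nonneg k
    have h2k : (0 : ℝ) < 2 ^ k := by positivity
    by_cases hkk : k < k₀
    · -- trivial bound
      have h1 : (((range (2 ^ k)).filter (fun n => ¬ Nice (r + 1) ε (2 * D) k n)).card : ℝ) ≤
          2 ^ k := by
        have : ((range (2 ^ k)).filter (fun n => ¬ Nice (r + 1) ε (2 * D) k n)).card ≤ 2 ^ k := by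
          refine (card_filter_le _ _).trans ?_
          rw [card_range]
        exact_mod_cast this
      refine h1.trans ?_
      have h2 : 1 ≤ Real.exp (c₃ * k₀) * Real.exp (-(c₃ * k)) := by
        rw [← Real.exp_add]
        apply Real.one_le_exp
        have : (k : ℝ) ≤ k₀ := by exact_mod_cast hkk.le
        nlinarith
      have h3 : 0 ≤ (C₁ + C₂) * 2 ^ k * Real.exp (-(c₃ * k)) := by positivity
      calc (2 : ℝ) ^ k = 2 ^ k * 1 := (mul_one _).symm
        _ ≤ 2 ^ k * (Real.exp (c₃ * k₀) * Real.exp (-(c₃ * k))) :=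
            mul_le_mul_of_nonneg_left h2 h2k.le
        _ ≤ 2 ^ k * (Real.exp (c₃ * k₀) * Real.exp (-(c₃ * k))) +
              (C₁ + C₂) * 2 ^ k * Real.exp (-(c₃ * k)) := le_add_of_nonneg_right h3
        _ = (C₁ + C₂ + Real.exp (c₃ * k₀)) * 2 ^ k * Real.exp (-(c₃ * k)) := by ring
    · -- the main case
      have hkk' : (k₀ : ℝ) ≤ k := by exact_mod_cast not_lt.mp hkk
      refine (bad_card_le r hε hupos.le hu1 hu2 hepos.le he1 he2 hD k).trans ?_
      set k' : ℕ := ⌈th * (1 + u) * k⌉₊ with hk'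
      set A : Finset ℕ := (range (2 ^ k')).filter (fun y => ¬ Nice r (ε / 4) D k' y) with hA
      have hk'0 : (0 : ℝ) ≤ (k' : ℝ) := Nat.cast_nonneg k'
      have hk'le : (k' : ℝ) ≤ th * (1 + u) * k + 1 :=
        (Nat.ceil_lt_add_one (by have := th_pos; positivity)).le
      have hAcard : (A.card : ℝ) ≤ Real.exp ((1 - c' / 4) * (Real.log 3 / 2) * k) := by
        have h1 : (A.card : ℝ) ≤ C₀ * 2 ^ k' * Real.exp (-(c₀ * k')) := hcount k'
        have h2 : Real.exp (-(c₀ * k')) ≤ Real.exp (-(c * k')) := by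
          apply Real.exp_le_exp.mpr
          have : c * k' ≤ c₀ * k' := mul_le_mul_of_nonneg_right (min_le_left _ _) hk'0
          linarith
        have h3 : (2 : ℝ) ^ k' = Real.exp (Real.log 2 * k') := by
          rw [Real.exp_mul, Real.exp_log (by norm_num), Real.rpow_natCast]
        have h4 : C₀ * 2 ^ k' * Real.exp (-(c₀ * k')) ≤
            C₀ * Real.exp ((1 - c') * Real.log 2 * k') := by
          have h5 : Real.exp ((1 - c') * Real.log 2 * k') =
              Real.exp (Real.log 2 * k') * Real.exp (-(c * k')) := by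
            rw [← Real.exp_add]
            congr 1
            have : c' * Real.log 2 = c := div_mul_cancel₀ _ hlog2.ne'
            linear_combination (-(k' : ℝ)) * this
          rw [h5, ← h3, mul_assoc]
          exact mul_le_mul_of_nonneg_left
            (mul_le_mul_of_nonneg_left h2 (by positivity)) hC₀.le
        have h6 : (1 - c') * Real.log 2 * k' ≤
            Real.log 2 + (1 - c' / 2) * (Real.log 3 / 2) * k := by
          have hth : th * Real.log 2 = Real.log 3 / 2 := by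
            unfold th
            field_simp
          have h7 : (1 - c') * Real.log 2 * k' ≤ (1 - c') * Real.log 2 * (th * (1 + u) * k + 1) :=
            mul_le_mul_of_nonneg_left hk'le (mul_nonneg (by linarith) hlog2.le)
          have h8 : (1 - c') * Real.log 2 * (th * (1 + u) * k + 1) =
              (1 - c') * Real.log 2 + ((1 - c') * (1 + u)) * (Real.log 3 / 2) * k := by
            rw [← hth]
            ring
          have h9 : (1 - c') * (1 + u) ≤ 1 - c' / 2 := by nlinarith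
          have h10 : ((1 - c') * (1 + u)) * (Real.log 3 / 2) * k ≤
              (1 - c' / 2) * (Real.log 3 / 2) * k :=
            mul_le_mul_of_nonneg_right
              (mul_le_mul_of_nonneg_right h9 (by positivity)) hk0
          have h11 : (1 - c') * Real.log 2 ≤ Real.log 2 := by nlinarith
          linarith
        have h12 : C₀ * Real.exp ((1 - c') * Real.log 2 * k') ≤
            Real.exp ((1 - c' / 4) * (Real.log 3 / 2) * k) := by
          have h13 : Real.log (C₀ * 2) ≤ a * k := by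
            have := hk₀.trans hkk'
            rw [div_le_iff₀ hapos] at this
            linarith
          have h14 : C₀ = Real.exp (Real.log C₀) := (Real.exp_log hC₀).symm
          rw [Real.log_mul hC₀.ne' (by norm_num)] at h13
          calc C₀ * Real.exp ((1 - c') * Real.log 2 * k')
              = Real.exp (Real.log C₀ + (1 - c') * Real.log 2 * k') := by
                rw [Real.exp_add, Real.exp_log hC₀]
            _ ≤ Real.exp ((1 - c' / 4) * (Real.log 3 / 2) * k) := by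
                apply Real.exp_le_exp.mpr
                have h15 : (1 - c' / 4) * (Real.log 3 / 2) * k =
                    (1 - c' / 2) * (Real.log 3 / 2) * k + a * k := by
                  rw [ha]; ring
                linarith
        exact h1.trans (h4.trans h12)
      have hS := hstage k A hAcard
      have hV := hdev k
      have hexp1 : Real.exp (-(c₁ * k)) ≤ Real.exp (-(c₃ * k)) := by
        apply Real.exp_le_exp.mpr
        have : c₃ * k ≤ c₁ * k := mul_le_mul_of_nonneg_right (min_le_left _ _) hk0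
        linarith
      have hexp2 : Real.exp (-(c₂ * k)) ≤ Real.exp (-(c₃ * k)) := by
        apply Real.exp_le_exp.mpr
        have : c₃ * k ≤ c₂ * k := mul_le_mul_of_nonneg_right (min_le_right _ _) hk0
        linarith
      have hS' : (((range (2 ^ k)).filter (fun n => T^[k] n ∈ A)).card : ℝ) ≤
          C₁ * 2 ^ k * Real.exp (-(c₃ * k)) :=
        hS.trans (mul_le_mul_of_nonneg_left hexp1 (by positivity))
      have hV' : (((range (2 ^ k)).filter (fun n => ∃ i ∈ range (k + 1),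
          e * k < |((enc i n).1 : ℝ) - i / 2|)).card : ℝ) ≤
          C₂ * 2 ^ k * Real.exp (-(c₃ * k)) :=
        hV.trans (mul_le_mul_of_nonneg_left hexp2 (by positivity))
      have h3 : 0 ≤ Real.exp (c₃ * k₀) * 2 ^ k * Real.exp (-(c₃ * k)) := by positivity
      calc _ ≤ C₂ * 2 ^ k * Real.exp (-(c₃ * k)) + C₁ * 2 ^ k * Real.exp (-(c₃ * k)) :=
            add_le_add hV' hS'
        _ ≤ C₂ * 2 ^ k * Real.exp (-(c₃ * k)) + C₁ * 2 ^ k * Real.exp (-(c₃ * k)) +
              Real.exp (c₃ * k₀) * 2 ^ k * Real.exp (-(c₃ * k)) := le_add_of_nonneg_right h3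
        _ = (C₁ + C₂ + Real.exp (c₃ * k₀)) * 2 ^ k * Real.exp (-(c₃ * k)) := by ring

end Pool.Agent.Syr66
end

section

set_option autoImplicit false

namespace Pool.Agent.Syr66

open Finset

private lemma T_le_two_mul (m : ℕ) : T m ≤ 2 * m := by
  unfold T
  split_ifs with h
  · omega
  · omega

private lemma T_iter_le_two (d m : ℕ) : T^[d] m ≤ 2 ^ d * m := by
  induction d with
  | zero => simp
  | succ d ih =>
    rw [Function.iterate_succ_apply', pow_succ]
    have := T_le_two_mul (T^[d] m)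
    nlinarith

private lemma T_one_le {m : ℕ} (h : 1 ≤ m) : 1 ≤ T m := by
  unfold T
  split_ifs with h2
  · omega
  · omega

private lemma T_iter_one_le (i : ℕ) {m : ℕ} (h : 1 ≤ m) : 1 ≤ T^[i] m := by
  induction i with
  | zero => simpa using h
  | succ i ih =>
    rw [Function.iterate_succ_apply']
    exact T_one_le ih

private lemma log_s : Real.log (Real.sqrt 3 / 2) = -((1 - th) * Real.log 2) := by
  have h2 : 0 < Real.log 2 := Real.log_pos (by norm_num)
  rw [Real.log_div (by positivity) (by norm_num), Real.log_sqrt (by norm_num)]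
  unfold th
  field_simp
  ring

private lemma th_mul : th * Real.log 2 = Real.log 3 / 2 := by
  have h2 : 0 < Real.log 2 := Real.log_pos (by norm_num)
  unfold th
  field_simp

private lemma mu_eq : 2 / Real.log (4 / 3) = 1 / ((1 - th) * Real.log 2) := by
  have h : Real.log (4 / 3) = 2 * ((1 - th) * Real.log 2) := by
    rw [Real.log_div (by norm_num) (by norm_num)]
    have h4 : Real.log 4 = 2 * Real.log 2 := by
      rw [show (4 : ℝ) = 2 ^ 2 by norm_num, Real.log_pow]
      norm_num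
    have := th_mul
    rw [h4]
    linarith
  have h1 : (1 - th) * Real.log 2 ≠ 0 := by
    have h2 : 0 < Real.log 2 := Real.log_pos (by norm_num)
    have h3 := th_lt
    have : 0 < (1 - th) * Real.log 2 := mul_pos (by linarith) h2
    exact this.ne'
  rw [h]
  field_simp

private lemma exp_log_pow {a : ℝ} (ha : 0 < a) (i : ℕ) : a ^ i = Real.exp (i * Real.log a) := by
  rw [mul_comm, Real.exp_mul, Real.exp_log ha, Real.rpow_natCast]

/-- For large `x`, a nice `n` follows the law. Let `2 ^ (k-1) ≤ x < 2 ^ k`, `n ≥ x ^ (1 - ε / 4)`,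
`Nice r e D k n`, `μ log x ≤ k / (1 - θ)` with `μ = 2 / log (4/3) = 1 / ((1 - θ) log 2)`.
* `i ≤ tt r * k`: lower bound `T_iter_ge`: `T^[i] n ≥ 3 ^ j n / 2 ^ i ≥ n (√3/2) ^ i 3 ^ (- e k)`; upper
bound from `Nice`: `≤ D exp (e k) 2 ^ k (√3/2) ^ i` and `2 ^ k ≤ 2 x ≤ 2 n x ^ (ε / 4)`.
* `tt r * k < i ≤ μ log x`: with `i₀ = ⌊tt r * k⌋`, `i - i₀ ≤ θ ^ r k / (1 - θ) + 1`. Lower bound:
`T^[i] n ≥ 1` and `n (√3/2) ^ i ≤ 2 x ^ (θ ^ r)`-like. Upper bound: `T m ≤ 2 m` for `m ≥ 1`, so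
`T^[i] n ≤ 2 ^ (i - i₀) T^[i₀] n`, and `(√3/2) ^ i₀ ≤ (√3/2) ^ i 2 ^ (i - i₀)`.
All losses are `≤ x ^ ε` for `e`, `θ ^ r` small and `x` large. -/
theorem law_of_nice (ε : ℝ) (hε : 0 < ε) :
    ∃ r : ℕ, ∃ e : ℝ, 0 < e ∧ ∀ D : ℝ, 1 ≤ D → ∃ x₀ : ℝ, 1 ≤ x₀ ∧ ∀ (x : ℝ) (k n : ℕ), x₀ ≤ x →
      x < 2 ^ k → (2 : ℝ) ^ k ≤ 2 * x → (n : ℝ) ≤ x → x ^ (1 - ε / 4) ≤ (n : ℝ) → Nice r e D k n →
      ∀ i : ℕ, (i : ℝ) ≤ 2 / Real.log (4 / 3) * Real.log x →
        (n : ℝ) * (Real.sqrt 3 / 2) ^ i * x ^ (-ε) ≤ (T^[i] n : ℝ) ∧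
        (T^[i] n : ℝ) ≤ (n : ℝ) * (Real.sqrt 3 / 2) ^ i * x ^ ε := by
  have hth0 := th_pos
  have hth1 := th_lt
  obtain ⟨r, hr⟩ := exists_pow_lt_of_lt_one (show (0 : ℝ) < ε / 200 by positivity)
    (show th < 1 by linarith)
  refine ⟨r, ε / 12, by positivity, fun D hD => ?_⟩
  have hD0 : 0 < D := by linarith
  have hlD : 0 ≤ Real.log (2 * D) := Real.log_nonneg (by linarith)
  set L₀ : ℝ := 1 + 8 / ε * (Real.log (2 * D) + 2) with hL₀
  have hL₀1 : 1 ≤ L₀ := by
    have : 0 ≤ 8 / ε * (Real.log (2 * D) + 2) := by positivity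
    linarith
  refine ⟨Real.exp L₀, Real.one_le_exp (by linarith), ?_⟩
  intro x k n hx hxk hkx hnx hxn hN i hi
  have hx0 : 0 < x := lt_of_lt_of_le (Real.exp_pos _) hx
  set L : ℝ := Real.log x with hL
  have hLL : L₀ ≤ L := by
    rw [hL, Real.le_log_iff_exp_le hx0]
    exact hx
  have hL1 : 1 ≤ L := le_trans hL₀1 hLL
  have hεL : Real.log (2 * D) + 2 ≤ ε / 8 * L := by
    have h1 : 8 / ε * (Real.log (2 * D) + 2) ≤ L := by linarith
    have h2 : ε / 8 * (8 / ε * (Real.log (2 * D) + 2)) ≤ ε / 8 * L :=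
      mul_le_mul_of_nonneg_left h1 (by positivity)
    have h3 : ε / 8 * (8 / ε * (Real.log (2 * D) + 2)) = Real.log (2 * D) + 2 := by
      field_simp
    linarith
  have l2 : 0.69 < Real.log 2 := by
    have := Real.log_two_gt_d9
    linarith
  have l2' : Real.log 2 < 0.7 := by
    have := Real.log_two_lt_d9
    linarith
  have l20 : 0 < Real.log 2 := by linarith
  have l3 : Real.log 3 < 1.4 := by
    have h := th_mul
    have h1 : th * Real.log 2 ≤ 4 / 5 * 0.7 := mul_le_mul hth1.le l2'.le l20.le (by norm_num)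
    linarith
  have l30 : 0 < Real.log 3 := Real.log_pos (by norm_num)
  -- `k`
  have hk1 : L < k * Real.log 2 := by
    have := Real.log_lt_log hx0 hxk
    rwa [Real.log_pow] at this
  have hk2 : k * Real.log 2 ≤ Real.log 2 + L := by
    have := Real.log_le_log (by positivity) hkx
    rwa [Real.log_pow, Real.log_mul (by norm_num) hx0.ne'] at this
  have hk0 : (0 : ℝ) ≤ k := Nat.cast_nonneg k
  have hk3 : (k : ℝ) ≤ 3 * L := by
    have h1 : (k : ℝ) * 0.69 ≤ k * Real.log 2 := mul_le_mul_of_nonneg_left l2.le hk0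
    linarith
  -- `n`
  have hn0 : (0 : ℝ) < n := lt_of_lt_of_le (Real.rpow_pos_of_pos hx0 _) hxn
  have hn1 : 1 ≤ n := by exact_mod_cast hn0
  have hlnx : Real.log n ≤ L := Real.log_le_log hn0 hnx
  have hlxn : (1 - ε / 4) * L ≤ Real.log n := by
    have := Real.log_le_log (Real.rpow_pos_of_pos hx0 _) hxn
    rwa [Real.log_rpow hx0] at this
  have hxe : x ^ ε = Real.exp (L * ε) := Real.rpow_def_of_pos hx0 _
  have hxe' : x ^ (-ε) = Real.exp (L * (-ε)) := Real.rpow_def_of_pos hx0 _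
  have hnexp : (n : ℝ) = Real.exp (Real.log n) := (Real.exp_log hn0).symm
  have hs0 : 0 < Real.sqrt 3 / 2 := by positivity
  have hsi : ∀ m : ℕ, (Real.sqrt 3 / 2) ^ m = Real.exp (m * -((1 - th) * Real.log 2)) := by
    intro m
    rw [exp_log_pow hs0, log_s]
  have h2m : ∀ m : ℕ, (2 : ℝ) ^ m = Real.exp (m * Real.log 2) := fun m => exp_log_pow (by norm_num) m
  have hDexp : D = Real.exp (Real.log D) := (Real.exp_log hD0).symm
  have hlogD : Real.log (2 * D) = Real.log 2 + Real.log D := Real.log_mul (by norm_num) hD0.ne'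
  by_cases hik : (i : ℝ) ≤ tt r * k
  · obtain ⟨hj, hT⟩ := hN i hik
    constructor
    · refine le_trans ?_ (T_iter_ge i n)
      rw [le_div_iff₀ (by positivity)]
      have h3 : (3 : ℝ) ^ (enc i n).1 = Real.exp ((enc i n).1 * Real.log 3) := exp_log_pow (by norm_num) _
      have e1 : (n : ℝ) * (Real.sqrt 3 / 2) ^ i * x ^ (-ε) * 2 ^ i =
          Real.exp (i * -((1 - th) * Real.log 2) + L * (-ε) + i * Real.log 2) * n := by
        rw [hsi, hxe', h2m, Real.exp_add, Real.exp_add]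
        ring
      rw [e1, h3]
      refine mul_le_mul_of_nonneg_right (Real.exp_le_exp.2 ?_) hn0.le
      have h4 := (abs_le.1 hj).1
      have h5 : ((i : ℝ) / 2 - (enc i n).1) * Real.log 3 ≤ ε / 12 * k * Real.log 3 :=
        mul_le_mul_of_nonneg_right (by linarith) l30.le
      have h6 : ε / 12 * k * Real.log 3 ≤ ε / 12 * (3 * L) * 1.4 := by
        apply mul_le_mul (mul_le_mul_of_nonneg_left hk3 (by positivity)) l3.le l30.le (by positivity)
      have h7 := th_mul
      have h8 : (i : ℝ) * -((1 - th) * Real.log 2) + i * Real.log 2 = i / 2 * Real.log 3 := by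
        have : (i : ℝ) * -((1 - th) * Real.log 2) + i * Real.log 2 = i * (th * Real.log 2) := by ring
        rw [this, h7]
        ring
      have h9 : 0 ≤ ε * L := by positivity
      linarith
    · refine hT.trans ?_
      rw [hxe]
      have e1 : D * Real.exp (ε / 12 * k) * 2 ^ k * (Real.sqrt 3 / 2) ^ i =
          (Real.sqrt 3 / 2) ^ i * Real.exp (Real.log D + ε / 12 * k + k * Real.log 2) := by
        rw [h2m, Real.exp_add, Real.exp_add, Real.exp_log hD0]
        ring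
      have e2 : (n : ℝ) * (Real.sqrt 3 / 2) ^ i * Real.exp (L * ε) =
          (Real.sqrt 3 / 2) ^ i * Real.exp (Real.log n + L * ε) := by
        rw [Real.exp_add, Real.exp_log hn0]
        ring
      rw [e1, e2]
      refine mul_le_mul_of_nonneg_left (Real.exp_le_exp.2 ?_) (by positivity)
      have h6 : ε / 12 * k ≤ ε / 12 * (3 * L) := mul_le_mul_of_nonneg_left hk3 (by positivity)
      have h9 : 0 ≤ ε * L := by positivity
      linarith
  · rw [not_le] at hik
    have htt := tt_eq r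
    have h1th : 0 < 1 - th := by linarith
    have hthr : 0 ≤ th ^ r := by positivity
    have httk : tt r * k = (1 - th ^ r) / (1 - th) * k := by rw [htt]
    have hi2 : (i : ℝ) * ((1 - th) * Real.log 2) ≤ L := by
      rw [mu_eq, one_div, ← div_eq_inv_mul, le_div_iff₀ (mul_pos h1th l20)] at hi
      exact hi
    have hi3 : (1 - th ^ r) * k ≤ i * (1 - th) := by
      rw [httk, div_mul_eq_mul_div, div_lt_iff₀ h1th] at hik
      exact hik.le
    constructor
    · have h1 : (1 : ℝ) ≤ (T^[i] n : ℝ) := by exact_mod_cast T_iter_one_le i hn1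
      refine le_trans ?_ h1
      have e1 : (n : ℝ) * (Real.sqrt 3 / 2) ^ i * x ^ (-ε) =
          Real.exp (Real.log n + i * -((1 - th) * Real.log 2) + L * (-ε)) := by
        rw [hsi, hxe', Real.exp_add, Real.exp_add, Real.exp_log hn0]
      rw [e1, Real.exp_le_one_iff]
      have h2 : (1 - th ^ r) * k * Real.log 2 ≤ i * (1 - th) * Real.log 2 :=
        mul_le_mul_of_nonneg_right hi3 l20.le
      have hthr1 : th ^ r ≤ 1 := pow_le_one₀ hth0.le (by linarith)
      have h3 : (1 - th ^ r) * L ≤ (1 - th ^ r) * (k * Real.log 2) :=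
        mul_le_mul_of_nonneg_left hk1.le (by linarith)
      have h4 : th ^ r * L ≤ ε / 200 * L := mul_le_mul_of_nonneg_right hr.le (by linarith)
      have h9 : 0 ≤ ε * L := by positivity
      linarith
    · set i₀ : ℕ := ⌊tt r * k⌋₊ with hi₀
      have htt0 : 0 ≤ tt r * k := mul_nonneg (tt_nonneg r) hk0
      have h1 : (i₀ : ℝ) ≤ tt r * k := Nat.floor_le htt0
      have h2 : tt r * k < i₀ + 1 := Nat.lt_floor_add_one _
      have h3 : i₀ ≤ i := by
        have : (i₀ : ℝ) < i := lt_of_le_of_lt h1 hik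
        have := Nat.cast_lt.1 this
        omega
      obtain ⟨d, hd⟩ := Nat.exists_eq_add_of_le h3
      obtain ⟨hj, hT⟩ := hN i₀ h1
      have h4 : T^[i] n ≤ 2 ^ d * T^[i₀] n := by
        have e : T^[i] n = T^[d] (T^[i₀] n) := by
          rw [hd, add_comm i₀ d, Function.iterate_add_apply]
        rw [e]
        exact T_iter_le_two d _
      have h5 : (T^[i] n : ℝ) ≤ 2 ^ d * (T^[i₀] n : ℝ) := by exact_mod_cast h4
      have hdi : (i : ℝ) = i₀ + d := by rw [hd]; push_cast; ring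
      refine h5.trans ((mul_le_mul_of_nonneg_left hT (by positivity)).trans ?_)
      have e1 : (2 : ℝ) ^ d * (D * Real.exp (ε / 12 * k) * 2 ^ k * (Real.sqrt 3 / 2) ^ i₀) =
          Real.exp (d * Real.log 2 + Real.log D + ε / 12 * k + k * Real.log 2 +
            i₀ * -((1 - th) * Real.log 2)) := by
        rw [hsi, h2m, h2m, Real.exp_add, Real.exp_add, Real.exp_add, Real.exp_add, Real.exp_log hD0]
        ring
      have e2 : (n : ℝ) * (Real.sqrt 3 / 2) ^ i * x ^ ε =
          Real.exp (Real.log n + i * -((1 - th) * Real.log 2) + L * ε) := by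
        rw [hsi, hxe, Real.exp_add, Real.exp_add, Real.exp_log hn0]
      rw [e1, e2, Real.exp_le_exp]
      have h6 : ε / 12 * k ≤ ε / 12 * (3 * L) := mul_le_mul_of_nonneg_left hk3 (by positivity)
      have h9 : 0 ≤ ε * L := by positivity
      have hd0 : (0 : ℝ) ≤ d := Nat.cast_nonneg d
      -- `d (1 - θ) log 2 ≤ θ ^ r k log 2 + (1 - θ) log 2`
      have h7 : (d : ℝ) * (1 - th) ≤ th ^ r * k + (1 - th) := by
        have h71 : (i : ℝ) * (1 - th) ≤ k := by
          have h72 : (i : ℝ) * (1 - th) * Real.log 2 ≤ k * Real.log 2 := by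
            have : (i : ℝ) * (1 - th) * Real.log 2 = (i : ℝ) * ((1 - th) * Real.log 2) := by ring
            rw [this]
            linarith
          exact le_of_mul_le_mul_right h72 l20
        have h73 : (1 - th ^ r) * k < (i₀ + 1) * (1 - th) := by
          rw [httk, div_mul_eq_mul_div, div_lt_iff₀ h1th] at h2
          exact h2
        have h74 : (d : ℝ) = i - i₀ := by linarith
        rw [h74]
        linarith
      have h8 : (d : ℝ) ≤ 5 * (th ^ r * k) + 1 := by
        have h81 : (d - 1 : ℝ) * (1 - th) ≤ th ^ r * k := by linarith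
        by_cases hd1 : (d : ℝ) ≤ 1
        · have : 0 ≤ th ^ r * k := by positivity
          linarith
        · have h82 : (d - 1 : ℝ) * (1 / 5) ≤ (d - 1 : ℝ) * (1 - th) :=
            mul_le_mul_of_nonneg_left (by linarith) (by linarith)
          linarith
      have h10 : th ^ r * k ≤ ε / 200 * (3 * L) := mul_le_mul hr.le hk3 hk0 (by positivity)
      have h11 : (d : ℝ) ≤ 3 * ε / 40 * L + 1 := by linarith
      have h12 : (d : ℝ) * Real.log 2 + (d : ℝ) * ((1 - th) * Real.log 2) ≤ 2 * (d * 0.7) := by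
        have h121 : (d : ℝ) * Real.log 2 ≤ d * 0.7 := mul_le_mul_of_nonneg_left l2'.le hd0
        have h122 : (1 - th) * Real.log 2 ≤ 1 * 0.7 := mul_le_mul (by linarith) l2'.le l20.le (by norm_num)
        have h123 : (d : ℝ) * ((1 - th) * Real.log 2) ≤ d * (1 * 0.7) := mul_le_mul_of_nonneg_left h122 hd0
        linarith
      have h13 : (i : ℝ) * -((1 - th) * Real.log 2) = i₀ * -((1 - th) * Real.log 2) - d * ((1 - th) * Real.log 2) := by
        rw [hdi]
        ring
      rw [h13]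
      linarith

end Pool.Agent.Syr66
end

section

set_option autoImplicit false

namespace Pool.Agent.Syr66

open Finset

open Classical in
/-- The trajectory law with a power saving. Take `r, e` from `law_of_nice`, `D, c, C` from
`Nice_count r e`, `x₀`. For `x ≥ x₀` let `k = ⌊log x / log 2⌋ + 1`; the exceptional `n ≤ x` are either
`< x ^ (1 - ε / 4)` (at most `x ^ (1 - ε / 4) + 1` of them) or not nice (`n < 2 ^ k`; at most
`C 2 ^ k exp (- c k) ≤ 2 C x ^ (1 - c / log 2)`). With `δ = min (ε / 4) (c / log 2)` (and `δ ≤ 1`) and a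
constant that also covers `x < x₀` (there the count is `≤ x₀`). -/
theorem trajectory_law (ε : ℝ) (hε : 0 < ε) :
    ∃ δ : ℝ, 0 < δ ∧ ∃ C : ℝ, 0 < C ∧ ∀ x : ℝ, 1 ≤ x →
      (((Finset.Icc 1 ⌊x⌋₊).filter (fun n : ℕ => ¬ ∀ i : ℕ,
        (i : ℝ) ≤ 2 / Real.log (4 / 3) * Real.log x →
          (n : ℝ) * (Real.sqrt 3 / 2) ^ i * x ^ (-ε) ≤ (T^[i] n : ℝ) ∧
          (T^[i] n : ℝ) ≤ (n : ℝ) * (Real.sqrt 3 / 2) ^ i * x ^ ε)).card : ℝ) ≤
        C * x ^ (1 - δ) := by
  obtain ⟨r, e, he, hlaw⟩ := law_of_nice ε hε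
  obtain ⟨D, hD, c, hc, C, hC, hcount⟩ := Nice_count r e he
  obtain ⟨x₀, hx₀, hlaw⟩ := hlaw D hD
  have l2 : 0 < Real.log 2 := Real.log_pos (by norm_num)
  obtain ⟨δ, hδ⟩ : ∃ δ : ℝ, δ = min 1 (min (ε / 4) (c / Real.log 2)) := ⟨_, rfl⟩
  have hδ1 : δ ≤ 1 := by rw [hδ]; exact min_le_left _ _
  have hδ2 : δ ≤ ε / 4 := by rw [hδ]; exact (min_le_right _ _).trans (min_le_left _ _)
  have hδ3 : δ ≤ c / Real.log 2 := by rw [hδ]; exact (min_le_right _ _).trans (min_le_right _ _)
  have hδ0 : 0 < δ := by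
    rw [hδ]
    exact lt_min one_pos (lt_min (by positivity) (by positivity))
  refine ⟨δ, hδ0, x₀ + 2 + 2 * C, by positivity, fun x hx => ?_⟩
  have hxpos : 0 < x := by linarith
  have hone : 1 ≤ x ^ (1 - δ) := Real.one_le_rpow hx (by linarith)
  by_cases hxx : x < x₀
  · have h1 : (((Finset.Icc 1 ⌊x⌋₊).filter (fun n : ℕ => ¬ ∀ i : ℕ,
        (i : ℝ) ≤ 2 / Real.log (4 / 3) * Real.log x →
          (n : ℝ) * (Real.sqrt 3 / 2) ^ i * x ^ (-ε) ≤ (T^[i] n : ℝ) ∧
          (T^[i] n : ℝ) ≤ (n : ℝ) * (Real.sqrt 3 / 2) ^ i * x ^ ε)).card : ℝ) ≤ x := by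
      refine le_trans ?_ (Nat.floor_le hxpos.le)
      rw [Nat.cast_le]
      refine (card_filter_le _ _).trans ?_
      rw [Nat.card_Icc]
      omega
    refine h1.trans ?_
    have h2 : (x₀ + 2 + 2 * C) * 1 ≤ (x₀ + 2 + 2 * C) * x ^ (1 - δ) :=
      mul_le_mul_of_nonneg_left hone (by positivity)
    linarith
  · rw [not_lt] at hxx
    have hlx : 0 ≤ Real.log x := Real.log_nonneg hx
    obtain ⟨k, hk⟩ : ∃ k : ℕ, k = ⌊Real.log x / Real.log 2⌋₊ + 1 := ⟨_, rfl⟩
    have hk1 : Real.log x / Real.log 2 < k := by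
      rw [hk]
      push_cast
      exact Nat.lt_floor_add_one _
    have hk2 : (k : ℝ) ≤ Real.log x / Real.log 2 + 1 := by
      rw [hk]
      push_cast
      have := Nat.floor_le (div_nonneg hlx l2.le)
      linarith
    have hk1' : Real.log x < k * Real.log 2 := (div_lt_iff₀ l2).1 hk1
    have h2k : (2 : ℝ) ^ k = Real.exp (k * Real.log 2) := by
      rw [mul_comm, Real.exp_mul, Real.exp_log (by norm_num), Real.rpow_natCast]
    have hxk : x < 2 ^ k := by
      rw [h2k, ← Real.log_lt_iff_lt_exp hxpos]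
      exact hk1'
    have hkx : (2 : ℝ) ^ k ≤ 2 * x := by
      have h3 : (k : ℝ) * Real.log 2 ≤ Real.log x + Real.log 2 := by
        have h4 := mul_le_mul_of_nonneg_right hk2 l2.le
        have h5 : (Real.log x / Real.log 2 + 1) * Real.log 2 = Real.log x + Real.log 2 := by
          field_simp
        linarith
      rw [h2k]
      calc Real.exp (k * Real.log 2) ≤ Real.exp (Real.log x + Real.log 2) := Real.exp_le_exp.2 h3
        _ = 2 * x := by
          rw [Real.exp_add, Real.exp_log hxpos, Real.exp_log (by norm_num)]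
          ring
    have hsub : (Finset.Icc 1 ⌊x⌋₊).filter (fun n : ℕ => ¬ ∀ i : ℕ,
        (i : ℝ) ≤ 2 / Real.log (4 / 3) * Real.log x →
          (n : ℝ) * (Real.sqrt 3 / 2) ^ i * x ^ (-ε) ≤ (T^[i] n : ℝ) ∧
          (T^[i] n : ℝ) ≤ (n : ℝ) * (Real.sqrt 3 / 2) ^ i * x ^ ε) ⊆
        range (⌊x ^ (1 - ε / 4)⌋₊ + 1) ∪
          (range (2 ^ k)).filter (fun n => ¬ Nice r e D k n) := by
      intro n hn
      rw [mem_filter, mem_Icc] at hn
      obtain ⟨⟨_, hn2⟩, hn3⟩ := hn
      have hnx : (n : ℝ) ≤ x := (Nat.le_floor_iff hxpos.le).1 hn2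
      rw [mem_union, mem_range, mem_filter, mem_range]
      by_cases hsm : x ^ (1 - ε / 4) ≤ (n : ℝ)
      · right
        refine ⟨?_, fun hN => hn3 (hlaw x k n hxx hxk hkx hnx hsm hN)⟩
        have : (n : ℝ) < 2 ^ k := lt_of_le_of_lt hnx hxk
        exact_mod_cast this
      · left
        rw [not_le] at hsm
        have h6 : n ≤ ⌊x ^ (1 - ε / 4)⌋₊ := Nat.le_floor hsm.le
        omega
    have h7 : x ^ (1 - ε / 4) ≤ x ^ (1 - δ) := Real.rpow_le_rpow_of_exponent_le hx (by linarith)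
    have h8 : ((range (⌊x ^ (1 - ε / 4)⌋₊ + 1)).card : ℝ) ≤ 2 * x ^ (1 - δ) := by
      rw [card_range]
      push_cast
      have := Nat.floor_le (Real.rpow_nonneg hxpos.le (1 - ε / 4))
      linarith
    have h9 : Real.exp (-(c * k)) ≤ x ^ (-(c / Real.log 2)) := by
      rw [Real.rpow_def_of_pos hxpos, Real.exp_le_exp]
      have h10 : c * (Real.log x / Real.log 2) ≤ c * k := mul_le_mul_of_nonneg_left hk1.le hc.le
      have h11 : Real.log x * -(c / Real.log 2) = -(c * (Real.log x / Real.log 2)) := by ring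
      rw [h11]
      linarith
    have h12 : (((range (2 ^ k)).filter (fun n => ¬ Nice r e D k n)).card : ℝ) ≤
        2 * C * x ^ (1 - δ) := by
      refine (hcount k).trans ?_
      calc C * 2 ^ k * Real.exp (-(c * k)) ≤ C * (2 * x) * x ^ (-(c / Real.log 2)) := by
            apply mul_le_mul (mul_le_mul_of_nonneg_left hkx hC.le) h9 (Real.exp_pos _).le
            positivity
        _ = 2 * C * (x ^ (1 : ℝ) * x ^ (-(c / Real.log 2))) := by
            rw [Real.rpow_one]
            ring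
        _ = 2 * C * x ^ (1 + -(c / Real.log 2)) := by rw [← Real.rpow_add hxpos]
        _ ≤ 2 * C * x ^ (1 - δ) := by
            apply mul_le_mul_of_nonneg_left _ (by positivity)
            exact Real.rpow_le_rpow_of_exponent_le hx (by linarith)
    have h13 : (((Finset.Icc 1 ⌊x⌋₊).filter (fun n : ℕ => ¬ ∀ i : ℕ,
        (i : ℝ) ≤ 2 / Real.log (4 / 3) * Real.log x →
          (n : ℝ) * (Real.sqrt 3 / 2) ^ i * x ^ (-ε) ≤ (T^[i] n : ℝ) ∧
          (T^[i] n : ℝ) ≤ (n : ℝ) * (Real.sqrt 3 / 2) ^ i * x ^ ε)).card : ℝ) ≤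
        ((range (⌊x ^ (1 - ε / 4)⌋₊ + 1)).card : ℝ) +
          (((range (2 ^ k)).filter (fun n => ¬ Nice r e D k n)).card : ℝ) := by
      rw [← Nat.cast_add, Nat.cast_le]
      exact (card_le_card hsub).trans (card_union_le _ _)
    have h14 : 0 ≤ x₀ * x ^ (1 - δ) := by positivity
    calc _ ≤ _ := h13
      _ ≤ 2 * x ^ (1 - δ) + 2 * C * x ^ (1 - δ) := add_le_add h8 h12
      _ ≤ (x₀ + 2 + 2 * C) * x ^ (1 - δ) := by linarith

end Pool.Agent.Syr66
end
end
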